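import Pool.Agent.H35.K2S.Stab

/-!
# Exhaustion of an event by boundedly many good parts
-/

set_option autoImplicit false

namespace Pool.NJ34C

open Finset Real
open Pool.Agent.H49.Ent Pool.Agent.H32.Dense Pool.STK Pool.KA Pool.K2S

section aux

variable {Ω : Type} [Fintype Ω]

theorem pe_diff_le {p : Ω → ℝ} {R B' : Ω → Prop} (hs : Sub B' R) :
    Pe p (fun ω => R ω ∧ ¬ B' ω) = Pe p R - Pe p B' := by
  classical
  rw [Pe_eq, Pe_eq, Pe_eq, ← Finset.sum_sub_distrib]
  refine Finset.sum_congr rfl fun ω _ => ?_
  by_cases h1 : B' ω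
  · simp [h1, hs ω h1]
  · by_cases h2 : R ω
    · simp [h1, h2]
    · simp [h1, h2]

theorem pe_nonneg' {p : Ω → ℝ} (hp : ∀ ω, 0 ≤ p ω) (A : Ω → Prop) : 0 ≤ Pe p A := by
  classical
  rw [Pe_eq]
  refine Finset.sum_nonneg fun ω _ => ?_
  by_cases h : A ω
  · simp [h, hp ω]
  · simp [h]

theorem pe_congr' {p : Ω → ℝ} {A B : Ω → Prop} (h : ∀ ω, A ω ↔ B ω) : Pe p A = Pe p B := by
  have : A = B := funext fun ω => propext (h ω)
  rw [this]

theorem parts_aux {p : Ω → ℝ} (hp : ∀ ω, 0 ≤ p ω) (A : Ω → Prop) (Psi : (Ω → Prop) → Prop)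
    (kap c T : ℝ) (hc0 : 0 ≤ c) (hc : 1 - kap ≤ c)
    (H : ∀ B, Sub B A → T ≤ Pe p B → ∃ B', Sub B' B ∧ kap * Pe p B ≤ Pe p B' ∧ Psi B') (m : ℕ) :
    ∃ j : Ω → ℕ, (∀ ω, j ω ≤ m) ∧
      (∀ i < m, Psi (fun ω => A ω ∧ j ω = i) ∨ ∀ ω, ¬ (A ω ∧ j ω = i)) ∧
      (Pe p (fun ω => A ω ∧ j ω = m) ≤ T ∨
        Pe p (fun ω => A ω ∧ j ω = m) ≤ c ^ m * Pe p A) := by
  classical
  induction m with
  | zero =>
    refine ⟨fun _ => 0, fun _ => le_rfl, fun i hi => absurd hi (Nat.not_lt_zero i), Or.inr ?_⟩
    rw [pow_zero, one_mul]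
    exact le_of_eq (pe_congr' fun ω => by simp)
  | succ m ih =>
    obtain ⟨j, hj, hgood, hlast⟩ := ih
    by_cases hT : Pe p (fun ω => A ω ∧ j ω = m) ≤ T
    · refine ⟨fun ω => if j ω = m then m + 1 else j ω, fun ω => ?_, fun i hi => ?_, Or.inl ?_⟩
      · by_cases h : j ω = m
        · simp [h]
        · simp only [h, if_false]
          exact (hj ω).trans (Nat.le_succ m)
      · rcases Nat.lt_succ_iff_lt_or_eq.mp hi with h | rfl
        · have e : (fun ω => A ω ∧ (if j ω = m then m + 1 else j ω) = i) =
              fun ω => A ω ∧ j ω = i := by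
            funext ω
            apply propext
            by_cases h1 : j ω = m
            · simp only [h1, if_true]
              constructor
              · rintro ⟨_, h2⟩
                omega
              · rintro ⟨_, h2⟩
                omega
            · simp only [h1, if_false]
          rw [e]
          rcases hgood i h with h2 | h2
          · exact Or.inl h2
          · refine Or.inr fun ω h3 => h2 ω ?_
            exact (iff_of_eq (congrFun e ω)).mp h3
        · refine Or.inr fun ω h1 => ?_
          obtain ⟨_, h2⟩ := h1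
          by_cases h3 : j ω = i
          · simp [h3] at h2
          · simp [h3] at h2
      · refine (le_of_eq (pe_congr' fun ω => ?_)).trans hT
        by_cases h1 : j ω = m
        · simp [h1]
        · have := hj ω
          simp only [h1, if_false, and_false, iff_false, not_and]
          intro _
          omega
    · have hT' : T < Pe p (fun ω => A ω ∧ j ω = m) := lt_of_not_ge hT
      obtain ⟨B', hB1, hB2, hB3⟩ := H _ (fun ω h => h.1) hT'.le
      have hl : Pe p (fun ω => A ω ∧ j ω = m) ≤ c ^ m * Pe p A := hlast.resolve_left hT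
      refine ⟨fun ω => if j ω = m ∧ ¬ B' ω then m + 1 else j ω, fun ω => ?_, fun i hi => ?_,
        Or.inr ?_⟩
      · by_cases h : j ω = m ∧ ¬ B' ω
        · simp [h]
        · simp only [h, if_false]
          exact (hj ω).trans (Nat.le_succ m)
      · rcases Nat.lt_succ_iff_lt_or_eq.mp hi with h | rfl
        · have e : (fun ω => A ω ∧ (if j ω = m ∧ ¬ B' ω then m + 1 else j ω) = i) =
              fun ω => A ω ∧ j ω = i := by
            funext ω
            apply propext
            by_cases h1 : j ω = m ∧ ¬ B' ω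
            · simp only [h1, if_true, h1.1]
              constructor
              · rintro ⟨_, h2⟩
                simp at h2
                omega
              · rintro ⟨_, h2⟩
                omega
            · simp only [h1, if_false]
          rcases hgood i h with h2 | h2
          · exact Or.inl (by rw [e]; exact h2)
          · refine Or.inr fun ω h3 => h2 ω ?_
            exact (iff_of_eq (congrFun e ω)).mp h3
        · left
          have e : (fun ω => A ω ∧ (if j ω = i ∧ ¬ B' ω then i + 1 else j ω) = i) = B' := by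
            funext ω
            apply propext
            constructor
            · rintro ⟨_, h2⟩
              by_contra h3
              by_cases h4 : j ω = i
              · simp [h3, h4] at h2
              · simp [h3, h4] at h2
            · intro h2
              have h3 := hB1 ω h2
              refine ⟨h3.1, ?_⟩
              simp [h2, h3.2]
          rw [e]
          exact hB3
      · have e : Pe p (fun ω => A ω ∧ (if j ω = m ∧ ¬ B' ω then m + 1 else j ω) = m + 1) =
            Pe p (fun ω => (A ω ∧ j ω = m) ∧ ¬ B' ω) := by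
          refine pe_congr' fun ω => ?_
          by_cases h1 : j ω = m ∧ ¬ B' ω
          · simp only [h1, if_true, and_true, not_false_eq_true]
          · simp only [h1, if_false]
            have := hj ω
            constructor
            · rintro ⟨_, h2⟩
              omega
            · rintro ⟨⟨_, h2⟩, h3⟩
              exact absurd ⟨h2, h3⟩ h1
        rw [e, pe_diff_le hB1]
        have h1 := pe_nonneg' hp (fun ω => A ω ∧ j ω = m)
        calc Pe p (fun ω => A ω ∧ j ω = m) - Pe p B'
            ≤ (1 - kap) * Pe p (fun ω => A ω ∧ j ω = m) := by linarith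
          _ ≤ c * Pe p (fun ω => A ω ∧ j ω = m) := mul_le_mul_of_nonneg_right hc h1
          _ ≤ c * (c ^ m * Pe p A) := mul_le_mul_of_nonneg_left hl hc0
          _ = c ^ (m + 1) * Pe p A := by ring

end aux

/-- boundedly many good parts exhaust an event up to a small rest -/
theorem parts (kap eta : ℝ) (hkap : 0 < kap) (heta : 0 < eta) : ∃ n : ℕ,
    ∀ {Ω : Type} [Fintype Ω] {p : Ω → ℝ}, (∀ ω, 0 ≤ p ω) →
      ∀ (A : Ω → Prop) (Psi : (Ω → Prop) → Prop),
        (∀ B, Sub B A → eta * Pe p A ≤ Pe p B →
          ∃ B', Sub B' B ∧ kap * Pe p B ≤ Pe p B' ∧ Psi B') →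
        ∃ j : Ω → ℕ, (∀ ω, j ω ≤ n) ∧
          (∀ i < n, Psi (fun ω => A ω ∧ j ω = i) ∨ ∀ ω, ¬ (A ω ∧ j ω = i)) ∧
          Pe p (fun ω => A ω ∧ j ω = n) ≤ eta * Pe p A := by
  have hc1 : max (1 - kap) 0 < 1 := max_lt (by linarith) one_pos
  obtain ⟨n, hn⟩ := exists_pow_lt_of_lt_one heta hc1
  refine ⟨n, fun {Ω} _ {p} hp A Psi H => ?_⟩
  obtain ⟨j, h1, h2, h3⟩ := parts_aux hp A Psi kap (max (1 - kap) 0) (eta * Pe p A)
    (le_max_right _ _) (le_max_left _ _) H n
  refine ⟨j, h1, h2, ?_⟩
  rcases h3 with h3 | h3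
  · exact h3
  · exact h3.trans (mul_le_mul_of_nonneg_right hn.le (pe_nonneg' hp A))

end Pool.NJ34C
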