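import Pool.Agent.H96.R1.R1L

/-!
# Row R2: the data of the local theorem in a cell

`Sup.cell`: the data `Sup` in the cell of the depth `s` (exhausted coordinates stop at their last
depth), with one more random variable `F` in the world, which is almost known on both sides.
-/

set_option autoImplicit false

namespace Pool.R2

open Finset Real
open Pool.Agent.H49.Ent Pool.Agent.H32.Dense Pool.STK
open Pool.JMN (shf tdg rp_mono rp_pos)
open Pool.R1 (Sup Rows cv cv_nest ch_cv)

variable {k K : ℕ}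

/-- The array in the coordinates `x ↦ c + t x`. -/
noncomputable def asc (c t : Fin k → ℝ) (q : (Fin k → Fin (K + 1)) → ℝ)
    (α : Fin k → Fin (K + 1)) : ℝ := (∏ l, t l ^ (α l : ℕ)) * shf c q α

theorem ev_asc (c t : Fin k → ℝ) (q : (Fin k → Fin (K + 1)) → ℝ) (x : Fin k → ℝ) :
    Pool.JMN.ev (asc c t q) x = Pool.JMN.ev q (fun l => c l + t l * x l) := by
  have e1 : Pool.JMN.ev q (fun l => c l + t l * x l) =
      Pool.JMN.ev (shf c q) (fun l => t l * x l) := by
    rw [Pool.JMN.ev_shf]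
  rw [e1]
  unfold Pool.JMN.ev asc
  refine Finset.sum_congr rfl fun α _ => ?_
  simp only [mul_pow]
  rw [Finset.prod_mul_distrib]
  ring

/-- The depths of the cell. -/
def ds (s : ℕ) (cap : Fin k → ℕ) (l : Fin k) : ℕ := min s (cap l)

variable {Ω : Type}

/-- The cell of the depth `s`. -/
noncomputable def cs (X s : ℕ) (cap : Fin k → ℕ) (y : Ω → Fin k → ℝ) : Ω → Fin k → ℤ :=
  cv X y (ds s cap)

/-- The corner of the cell. -/
noncomputable def cn (X s : ℕ) (cap : Fin k → ℕ) (y : Ω → Fin k → ℝ) (ω : Ω) (l : Fin k) : ℝ :=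
  cs X s cap y ω l / 2 ^ (ds s cap l * X)

/-- The side of the cell. -/
noncomputable def sd (X s : ℕ) (cap : Fin k → ℕ) (l : Fin k) : ℝ := 1 / 2 ^ (ds s cap l * X)

/-- The position in the cell. -/
noncomputable def yc (X s : ℕ) (cap : Fin k → ℕ) (y : Ω → Fin k → ℝ) (ω : Ω) (l : Fin k) : ℝ :=
  2 ^ (ds s cap l * X) * y ω l - cs X s cap y ω l

/-- The leaf in the cell. -/
noncomputable def ac (X s : ℕ) (cap : Fin k → ℕ) (y : Ω → Fin k → ℝ)
    (a : Ω → (Fin k → Fin (K + 1)) → ℝ) (ω : Ω) : (Fin k → Fin (K + 1)) → ℝ :=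
  asc (cn X s cap y ω) (sd X s cap) (a ω)

section pos

variable {X s : ℕ} {cap : Fin k → ℕ} {y : Ω → Fin k → ℝ}

theorem sd_pos (l : Fin k) : 0 < sd X s cap l := by
  unfold sd
  positivity

theorem sd_le (l : Fin k) : sd X s cap l ≤ 1 := by
  unfold sd
  rw [div_le_one (by positivity)]
  exact one_le_pow₀ (by norm_num)

theorem yc_nonneg (ω : Ω) (l : Fin k) : 0 ≤ yc X s cap y ω l := by
  unfold yc cs cv
  linarith [Int.floor_le ((2 : ℝ) ^ (ds s cap l * X) * y ω l)]

theorem yc_lt (ω : Ω) (l : Fin k) : yc X s cap y ω l < 1 := by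
  unfold yc cs cv
  linarith [Int.lt_floor_add_one ((2 : ℝ) ^ (ds s cap l * X) * y ω l)]

theorem cn_add (ω : Ω) (x : Fin k → ℝ) (l : Fin k) : cn X s cap y ω l + sd X s cap l * x l =
    y ω l + sd X s cap l * (x l - yc X s cap y ω l) := by
  unfold cn sd yc
  have h : (2 : ℝ) ^ (ds s cap l * X) ≠ 0 := by positivity
  field_simp
  ring

theorem cn_yc (ω : Ω) (l : Fin k) : cn X s cap y ω l + sd X s cap l * yc X s cap y ω l = y ω l := by
  rw [cn_add, sub_self, mul_zero, add_zero]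

theorem ev_ac {a : Ω → (Fin k → Fin (K + 1)) → ℝ} (ω : Ω) (x : Fin k → ℝ) :
    Pool.JMN.ev (ac X s cap y a ω) x =
      Pool.JMN.ev (a ω) (fun l => cn X s cap y ω l + sd X s cap l * x l) := ev_asc _ _ _ _

theorem ev_ac_yc {a : Ω → (Fin k → Fin (K + 1)) → ℝ} (ω : Ω) :
    Pool.JMN.ev (ac X s cap y a ω) (yc X s cap y ω) = Pool.JMN.ev (a ω) (y ω) := by
  rw [ev_ac]
  exact congrArg _ (funext fun l => cn_yc ω l)

/-- The digits in the cell. -/
theorem cv_yc (d : Fin k → ℕ) (ω : Ω) (l : Fin k) : cv X (yc X s cap y) d ω l =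
    cv X y (fun l => ds s cap l + d l) ω l - 2 ^ (d l * X) * cs X s cap y ω l := by
  have e1 : (2 : ℝ) ^ (d l * X) * yc X s cap y ω l = (2 : ℝ) ^ ((ds s cap l + d l) * X) * y ω l -
      ((2 ^ (d l * X) * cs X s cap y ω l : ℤ) : ℝ) := by
    unfold yc
    have e2 : (ds s cap l + d l) * X = d l * X + ds s cap l * X := by ring
    rw [e2, pow_add]
    push_cast
    ring
  show ⌊(2 : ℝ) ^ (d l * X) * yc X s cap y ω l⌋ = ⌊(2 : ℝ) ^ ((ds s cap l + d l) * X) * y ω l⌋ - _
  rw [e1, Int.floor_sub_intCast]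

/-- Cell and digits in the cell determine the digits. -/
theorem cv_of_yc {d : Fin k → ℕ} {ω ω' : Ω} (h : cs X s cap y ω = cs X s cap y ω')
    (h' : cv X (yc X s cap y) d ω = cv X (yc X s cap y) d ω') :
    cv X y (fun l => ds s cap l + d l) ω = cv X y (fun l => ds s cap l + d l) ω' := by
  funext l
  have h1 := congrFun h' l
  rw [cv_yc, cv_yc, h] at h1
  linarith

theorem cs_of_cv {d : Fin k → ℕ} (hd : ∀ l, ds s cap l ≤ d l) {ω ω' : Ω}
    (h : cv X y d ω = cv X y d ω') : cs X s cap y ω = cs X s cap y ω' := cv_nest hd h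

theorem yc_of_cv {d : Fin k → ℕ} {ω ω' : Ω}
    (h : cv X y (fun l => ds s cap l + d l) ω = cv X y (fun l => ds s cap l + d l) ω') :
    cv X (yc X s cap y) d ω = cv X (yc X s cap y) d ω' := by
  have h1 : cs X s cap y ω = cs X s cap y ω' := cs_of_cv (fun l => Nat.le_add_right _ _) h
  funext l
  rw [cv_yc, cv_yc, h1, congrFun h l]

theorem ds_add (s : ℕ) (cap : Fin k → ℕ) (l : Fin k) : ds s cap l + (cap l - s) = cap l := by
  unfold ds
  rcases le_total s (cap l) with h | h
  · rw [min_eq_left h]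
    omega
  · rw [min_eq_right h]
    omega

theorem ds_le (s : ℕ) (cap : Fin k → ℕ) (l : Fin k) : ds s cap l ≤ cap l := min_le_right _ _

end pos

section cell

variable {α β τ δ φ : Type} {p : Ω → ℝ} {r X S h s₀ : ℕ} {g : ℕ → ℝ} {cap : Fin k → ℕ}
  {A : Ω → α} {B : Ω → β} {W : Ω → τ} {D : Ω → δ} {y : Ω → Fin k → ℝ} {N : Ω → ℝ}
  {a b : Ω → (Fin k → Fin (K + 1)) → ℝ} {th Lf : ℝ} {F : Ω → φ} {η : ℝ}

/-- The point of the cell stays in the double box. -/
theorem cell_le (X s : ℕ) (cap : Fin k → ℕ) (hX : 1 ≤ X) (y0 : ∀ ω i, 0 ≤ y ω i) (y1 : ∀ ω i, y ω i < 1) (ω : Ω)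
    {x : Fin k → ℝ} (hx : ∀ l, |x l| ≤ 2) (l : Fin k) :
    |cn X s cap y ω l + sd X s cap l * x l| ≤ 2 := by
  have h1 := abs_le.1 (hx l)
  rcases Nat.eq_zero_or_pos (ds s cap l) with h | h
  · have e1 : sd X s cap l = 1 := by
      unfold sd
      rw [h]
      simp
    have e2 : cn X s cap y ω l = 0 := by
      unfold cn cs cv
      rw [h]
      have : ⌊(2 : ℝ) ^ (0 * X) * y ω l⌋ = 0 := by
        rw [Int.floor_eq_zero_iff, Set.mem_Ico]
        simp only [zero_mul, pow_zero, one_mul]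
        exact ⟨y0 ω l, y1 ω l⟩
      rw [this]
      simp
    rw [e1, e2, zero_add, one_mul]
    exact hx l
  · have e1 : sd X s cap l ≤ 1 / 2 := by
      unfold sd
      refine div_le_div_of_nonneg_left (by norm_num) (by norm_num) ?_
      have : (2 : ℝ) ^ 1 ≤ 2 ^ (ds s cap l * X) :=
        pow_le_pow_right₀ (by norm_num) (Nat.one_le_iff_ne_zero.2 (Nat.mul_ne_zero (by omega)
          (by omega)))
      linarith
    have e2 := sd_pos (X := X) (s := s) (cap := cap) l
    have e3 := cn_yc (X := X) (s := s) (cap := cap) (y := y) ω l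
    have e4 := yc_nonneg (X := X) (s := s) (cap := cap) (y := y) ω l
    have e6 : 0 ≤ cn X s cap y ω l := by
      unfold cn cs cv
      refine div_nonneg ?_ (by positivity)
      exact_mod_cast Int.floor_nonneg.2 (mul_nonneg (by positivity) (y0 ω l))
    have e7 : cn X s cap y ω l ≤ 1 := by nlinarith [y1 ω l, mul_nonneg e2.le e4]
    rw [abs_le]
    constructor <;> nlinarith

/-- **The data in the cell.** -/
theorem Sup_cell [Fintype Ω] (H : Sup p k K r X S h s₀ g cap A B W D y N a b th Lf) {s : ℕ} (hs0 : s₀ ≤ s)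
    (hsS : s ≤ S) (hη : 0 ≤ η) (hFa : CH p F (fun ω => (A ω, (W ω, cs X s cap y ω))) ≤ η)
    (hFb : CH p F (fun ω => (B ω, (W ω, cs X s cap y ω))) ≤ η)
    (hga : ∀ ω, 0 < p ω → ∀ z z' : Fin k → ℝ, (∀ l, |z l| ≤ 2) → (∀ l, |z' l| ≤ 2) →
      (∀ l, |z l - z' l| ≤ 2 / 2 ^ (cap l * X)) →
      |Pool.JMN.ev (a ω) z - Pool.JMN.ev (a ω) z'| ≤ (2 : ℝ) ^ (-(g S) - ((h + 1 : ℕ) : ℝ) - 3))
    (hgb : ∀ ω, 0 < p ω → ∀ z z' : Fin k → ℝ, (∀ l, |z l| ≤ 2) → (∀ l, |z' l| ≤ 2) →
      (∀ l, |z l - z' l| ≤ 2 / 2 ^ (cap l * X)) →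
      |Pool.JMN.ev (b ω) z - Pool.JMN.ev (b ω) z'| ≤ (2 : ℝ) ^ (-(g S) - ((h + 1 : ℕ) : ℝ) - 3)) :
    Sup p k K r X (S - s) (h + 1) 0 (fun i => g (s + i)) (fun l => cap l - s) A B
      (fun ω => (F ω, (W ω, cs X s cap y ω))) D (yc X s cap y) N (ac X s cap y a)
      (ac X s cap y b) (th + η) (Lf - (∑ l, (ds s cap l : ℝ)) * (X * Real.log 2)) := by
  have h0 := H.law.nonneg
  have eS : s + (S - s) = S := by omega
  have det : ∀ {γ : Type} {C : Ω → γ} {c : Ω → (Fin k → Fin (K + 1)) → ℝ},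
      Det p (fun ω => (C ω, W ω)) c →
      Det p (fun ω => (C ω, (F ω, (W ω, cs X s cap y ω)))) (ac X s cap y c) := by
    intro γ C c hc ω ω' hω hω' hh
    simp only [Prod.mk.injEq] at hh
    have e1 := hc ω ω' hω hω' (Prod.ext hh.1 hh.2.2.1)
    unfold ac cn
    rw [e1, hh.2.2.2]
  have far : ∀ (ω : Ω) (z z' : Fin k → ℝ), (∀ l, |z l - z' l| ≤ 2 / 2 ^ ((cap l - s) * X)) → ∀ l,
      |(cn X s cap y ω l + sd X s cap l * z l) - (cn X s cap y ω l + sd X s cap l * z' l)| ≤
        2 / 2 ^ (cap l * X) := by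
    intro ω z z' hz l
    have e1 : (cn X s cap y ω l + sd X s cap l * z l) - (cn X s cap y ω l + sd X s cap l * z' l) =
        sd X s cap l * (z l - z' l) := by ring
    rw [e1, abs_mul, abs_of_pos (sd_pos l)]
    refine (mul_le_mul_of_nonneg_left (hz l) (sd_pos l).le).trans (le_of_eq ?_)
    have e2 : (2 : ℝ) ^ (cap l * X) = 2 ^ (ds s cap l * X) * 2 ^ ((cap l - s) * X) := by
      rw [← pow_add, ← add_mul, ds_add]
    rw [e2]
    unfold sd
    field_simp
  have full : ∀ {γ : Type} {C : Ω → γ}, Lf - th ≤ CH p D (fun ω => (C ω, W ω)) →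
      CH p F (fun ω => (C ω, (W ω, cs X s cap y ω))) ≤ η →
      Lf - (∑ l, (ds s cap l : ℝ)) * (X * Real.log 2) - (th + η) ≤
        CH p D (fun ω => (C ω, (F ω, (W ω, cs X s cap y ω)))) := by
    intro γ C hC hF
    have e1 := CH_le_add h0 D (cs X s cap y) (fun ω => (C ω, W ω))
    have e2 := ch_cv H.law X y H.y0 H.y1 (ds s cap) (fun ω => (C ω, W ω))
    have e3 := CH_le_add h0 D F (fun ω => (cs X s cap y ω, (C ω, W ω)))
    have e4 : CH p F (fun ω => (cs X s cap y ω, (C ω, W ω))) ≤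
        CH p F (fun ω => (C ω, (W ω, cs X s cap y ω))) := by
      refine CH_mono_cond h0 fun ω ω' _ _ hh => ?_
      simp only [Prod.mk.injEq] at hh ⊢
      exact ⟨hh.2.1, hh.2.2, hh.1⟩
    have e5 : CH p D (fun ω => (F ω, (cs X s cap y ω, (C ω, W ω)))) ≤
        CH p D (fun ω => (C ω, (F ω, (W ω, cs X s cap y ω)))) := by
      refine CH_mono_cond h0 fun ω ω' _ _ hh => ?_
      simp only [Prod.mk.injEq] at hh ⊢
      exact ⟨hh.2.2.1, hh.1, hh.2.2.2, hh.2.1⟩
    have e6 : CH p (cs X s cap y) (fun ω => (C ω, W ω)) ≤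
        (∑ i, (ds s cap i : ℝ)) * (X * Real.log 2) := e2
    linarith
  refine ⟨H.law, H.hX, by linarith [H.th0], fun ω i => yc_nonneg ω i, fun ω i => yc_lt ω i,
    fun i => H.g0 _, ?_, ?_, ?_, det H.da, det H.db, ?_, ?_, ?_, ?_, ?_, ?_, ?_, full H.fb hFb,
    full H.fa hFa⟩
  · intro i _ hi
    exact H.gm (s + i) (by omega) (by omega)
  · intro i _ hi
    have := H.gs (s + i) (by omega) (by omega)
    have e : s + (i + 1) = s + i + 1 := rfl
    rw [e]
    refine this.trans ?_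
    push_cast
    linarith
  · intro i j hij
    have := H.anti i j hij
    omega
  · -- the upper bound
    intro ω hω i _ hi z hz
    rw [ev_ac, ev_ac]
    obtain ⟨v, hv⟩ : ∃ v : Fin k → ℝ, v = fun l => cn X s cap y ω l + sd X s cap l * z l := ⟨_, rfl⟩
    rw [← hv]
    obtain ⟨u, hu⟩ : ∃ u : Fin k → ℝ, u = fun l : Fin k =>
      if s ≤ cap l then v l else y ω l := ⟨_, rfl⟩
    have kvy : ∀ l, |v l - y ω l| ≤ sd X s cap l * (1 / 2 ^ (i * X)) := by
      intro l
      rw [hv]
      show |cn X s cap y ω l + sd X s cap l * z l - y ω l| ≤ _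
      rw [cn_add, add_sub_cancel_left, abs_mul, abs_of_pos (sd_pos l)]
      exact mul_le_mul_of_nonneg_left (hz l) (sd_pos l).le
    have hX1 : ∀ n : ℕ, (1 : ℝ) / 2 ^ n ≤ 1 := fun n => by
      rw [div_le_one (by positivity)]
      exact one_le_pow₀ (by norm_num)
    have ky : ∀ l, |y ω l| ≤ 1 := fun l => by
      rw [abs_of_nonneg (H.y0 ω l)]
      exact (H.y1 ω l).le
    have kv1 : ∀ l, |v l - y ω l| ≤ 1 := by
      intro l
      refine (kvy l).trans ?_
      have := mul_le_mul (sd_le (X := X) (s := s) (cap := cap) l) (hX1 (i * X)) (by positivity)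
        (by norm_num)
      linarith
    have kv : ∀ l, |v l| ≤ 2 := by
      intro l
      have e1 : v l = (v l - y ω l) + y ω l := by ring
      rw [e1]
      refine (abs_add_le _ _).trans ?_
      linarith [ky l, kv1 l]
    have ku : ∀ l, |u l - y ω l| ≤ 1 / 2 ^ ((s + i) * X) := by
      intro l
      rw [hu]
      show |(if s ≤ cap l then v l else y ω l) - y ω l| ≤ _
      split_ifs with hl
      · refine (kvy l).trans (le_of_eq ?_)
        unfold sd ds
        rw [min_eq_left hl, add_mul, pow_add]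
        field_simp
      · rw [sub_self, abs_zero]
        positivity
    have ku2 : ∀ l, |u l| ≤ 2 := by
      intro l
      have e1 : u l = (u l - y ω l) + y ω l := by ring
      rw [e1]
      refine (abs_add_le _ _).trans ?_
      linarith [ky l, (ku l).trans (hX1 _)]
    have kvu : ∀ l, |v l - u l| ≤ 2 / 2 ^ (cap l * X) := by
      intro l
      rw [hu]
      show |v l - (if s ≤ cap l then v l else y ω l)| ≤ _
      split_ifs with hl
      · rw [sub_self, abs_zero]
        positivity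
      · refine (kvy l).trans ?_
        have e1 : sd X s cap l = 1 / 2 ^ (cap l * X) := by
          unfold sd ds
          rw [min_eq_right (le_of_lt (not_le.1 hl))]
        rw [e1]
        have e2 : (1 : ℝ) / 2 ^ (cap l * X) * (1 / 2 ^ (i * X)) ≤ 1 / 2 ^ (cap l * X) * 1 :=
          mul_le_mul_of_nonneg_left (hX1 _) (by positivity)
        refine e2.trans ?_
        rw [mul_one]
        exact div_le_div_of_nonneg_right (by norm_num) (by positivity)
    have m1 := H.near hω kv ku2 kvu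
    have m2 := H.up ω hω (s + i) (by omega) (by omega) u ku
    have m3 := H.mono (i := s + i) (j := S) (by omega) (by omega) le_rfl
    have m4 : (2 : ℝ) ^ (-(g S) - h - 2) ≤ (2 : ℝ) ^ ((h : ℝ) - g (s + i)) := by
      refine rp_mono ?_
      have : (0 : ℝ) ≤ h := Nat.cast_nonneg h
      linarith
    have m5 : (2 : ℝ) ^ (((h + 1 : ℕ) : ℝ) - g (s + i)) = 2 * (2 : ℝ) ^ ((h : ℝ) - g (s + i)) := by
      have : ((h + 1 : ℕ) : ℝ) - g (s + i) = 1 + ((h : ℝ) - g (s + i)) := by push_cast; ring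
      rw [this, Real.rpow_add (by norm_num), Real.rpow_one]
    rw [m5]
    have m6 := abs_sub_abs_le_abs_sub (Pool.JMN.ev (a ω) v - Pool.JMN.ev (b ω) v)
      (Pool.JMN.ev (a ω) u - Pool.JMN.ev (b ω) u)
    linarith
  · -- the lower bound
    intro ω hω i _ hi
    obtain ⟨u, hu, hlo⟩ := H.lo ω hω (s + i) (by omega) (by omega)
    refine ⟨fun l => yc X s cap y ω l + (u l - y ω l) / sd X s cap l, fun l => ?_, ?_⟩
    · rw [add_sub_cancel_left, abs_div, abs_of_pos (sd_pos l), div_le_iff₀ (sd_pos l)]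
      refine (hu l).trans ?_
      unfold sd
      rw [← mul_one_div, one_mul, one_div_mul_one_div, ← pow_add, ← add_mul]
      refine div_le_div_of_nonneg_left (by norm_num) (by positivity) ?_
      refine pow_le_pow_right₀ (by norm_num) (Nat.mul_le_mul_right X ?_)
      have : ds s cap l ≤ s := min_le_left _ _
      omega
    · rw [ev_ac, ev_ac]
      have e1 : (fun l => cn X s cap y ω l + sd X s cap l *
          (yc X s cap y ω l + (u l - y ω l) / sd X s cap l)) = u := by
        funext l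
        rw [mul_add, ← add_assoc, cn_yc]
        have := (sd_pos (X := X) (s := s) (cap := cap) l).ne'
        field_simp
        ring
      rw [e1]
      refine le_trans (rp_mono ?_) hlo
      push_cast
      linarith
  · intro ω hω z z' hz hz' hzz
    rw [ev_ac, ev_ac]
    have e1 := hga ω hω _ _ (cell_le X s cap H.hX H.y0 H.y1 ω hz)
      (cell_le X s cap H.hX H.y0 H.y1 ω hz') (far ω z z' hzz)
    simp only [eS]
    exact e1
  · intro ω hω z z' hz hz' hzz
    rw [ev_ac, ev_ac]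
    have e1 := hgb ω hω _ _ (cell_le X s cap H.hX H.y0 H.y1 ω hz)
      (cell_le X s cap H.hX H.y0 H.y1 ω hz') (far ω z z' hzz)
    simp only [eS]
    exact e1
  · intro ω hω
    rw [ev_ac_yc, eS]
    exact H.nn ω hω
  · -- the digits
    intro ω ω' hω hω' hh
    simp only [Prod.mk.injEq] at hh
    refine yc_of_cv ?_
    have e1 := H.dc ω ω' hω hω' (Prod.ext hh.1 hh.2.2.1)
    have e2 : (fun l => ds s cap l + (cap l - s)) = cap := funext fun l => ds_add s cap l
    rw [e2]
    exact e1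
  · intro d hd
    have e1 : CH p D (fun ω => ((F ω, (W ω, cs X s cap y ω)), cv X (yc X s cap y) d ω)) ≤
        CH p D (fun ω => (W ω, cv X y (fun l => ds s cap l + d l) ω)) := by
      refine CH_mono_cond h0 fun ω ω' _ _ hh => ?_
      simp only [Prod.mk.injEq] at hh ⊢
      exact ⟨hh.1.2.1, cv_of_yc hh.1.2.2 hh.2⟩
    have e2 := H.cnt (fun l => ds s cap l + d l) (fun l => by
      have := hd l
      have := ds_add s cap l
      omega)
    have e3 : ∑ l, (((ds s cap l + d l : ℕ)) : ℝ) = ∑ l, (ds s cap l : ℝ) + ∑ l, (d l : ℝ) := by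
      push_cast
      exact Finset.sum_add_distrib
    rw [e3] at e2
    push_cast
    linarith

end cell

end Pool.R2
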