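import Pool.Agent.H3.R2.Own
import Pool.Agent.H15.R2E.Cmp

/-!
# Row R2: the fat world

The coordinates of the box of depth `s`: the position in the cell and the height over an actual
leaf with the same record.
-/

set_option autoImplicit false

namespace Pool.R2

open Finset Real
open Pool.Agent.H49.Ent Pool.Agent.H32.Dense Pool.STK Pool.KA Pool.KSAT Pool.K2S Pool.PC Pool.LU
open Pool.JMN (shf tdg rp_mono rp_pos rp_nat coef_le)
open Pool.R1 (Sup Rows cv cv_nest ch_cv r1l)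
open Pool.R1P (log_bd fl_sub_near)

/-! ### Representatives -/

section pick

variable {Ω τ : Type}

open Classical in
/-- A point with the property `P`. -/
noncomputable def pick (P : Ω → Prop) (ω : Ω) : Ω := if h : ∃ w, P w then Classical.choose h else ω

theorem pick_spec {P : Ω → Prop} {ω : Ω} (h : ∃ w, P w) : P (pick P ω) := by
  unfold pick
  rw [dif_pos h]
  exact Classical.choose_spec h

theorem pick_eq {P : Ω → Prop} {ω ω' : Ω} (h : ∃ w, P w) : pick P ω = pick P ω' := by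
  unfold pick
  rw [dif_pos h, dif_pos h]

/-- The representative of the value of `V`. -/
noncomputable def rep (q : Ω → ℝ) (V : Ω → τ) (ω : Ω) : Ω := pick (fun w => 0 < q w ∧ V w = V ω) ω

theorem rep_spec {q : Ω → ℝ} {V : Ω → τ} {ω : Ω} (hω : 0 < q ω) :
    0 < q (rep q V ω) ∧ V (rep q V ω) = V ω :=
  pick_spec (P := fun w => 0 < q w ∧ V w = V ω) ⟨ω, hω, rfl⟩

theorem rep_eq {q : Ω → ℝ} {V : Ω → τ} {ω ω' : Ω} (hω : 0 < q ω) (h : V ω = V ω') :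
    rep q V ω = rep q V ω' := by
  unfold rep
  rw [h]
  exact pick_eq ⟨ω, hω, h⟩

end pick

/-! ### The coordinates of the box -/

/-- The exponent of the width of the box. -/
def mm (k K h : ℕ) : ℕ := h + 2 * ((K + 1) ^ k + 4)

section fat

variable {Ω τ : Type} {k K : ℕ}

/-- The world of the box. -/
noncomputable def wp (X s : ℕ) (cap : Fin k → ℕ) (W : Ω → τ) (y : Ω → Fin k → ℝ)
    (b : Ω → (Fin k → Fin (K + 1)) → ℝ) (n : ℕ) (ω : Ω) :
    ((Fin k → Fin (K + 1)) → ℤ) × (τ × (Fin k → ℤ)) :=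
  (rc X s cap y b n ω, (W ω, cs X s cap y ω))

/-- The sheet of the box: the leaf of the representative. -/
noncomputable def shl (q : Ω → ℝ) (X s : ℕ) (cap : Fin k → ℕ) (W : Ω → τ) (y : Ω → Fin k → ℝ)
    (b : Ω → (Fin k → Fin (K + 1)) → ℝ) (n : ℕ) (ω : Ω) : (Fin k → Fin (K + 1)) → ℝ :=
  b (rep q (wp X s cap W y b n) ω)

/-- The coordinate across the sheet, before truncation. -/
noncomputable def vr (q : Ω → ℝ) (X s h : ℕ) (cap : Fin k → ℕ) (W : Ω → τ) (y : Ω → Fin k → ℝ)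
    (v : Ω → ℝ) (b : Ω → (Fin k → Fin (K + 1)) → ℝ) (n : ℕ) (ω : Ω) : ℝ :=
  2 ^ n / 2 ^ mm k K h * (v ω - Pool.JMN.ev (shl q X s cap W y b n ω) (y ω)) + 1 / 2

open Classical in
/-- **The coordinates of the box.** -/
noncomputable def yp (q : Ω → ℝ) (X s h : ℕ) (cap : Fin k → ℕ) (W : Ω → τ) (y : Ω → Fin k → ℝ)
    (v : Ω → ℝ) (b : Ω → (Fin k → Fin (K + 1)) → ℝ) (n : ℕ) (ω : Ω) : Fin (k + 1) → ℝ :=
  Fin.snoc (α := fun _ => ℝ) (yc X s cap y ω)
    (if 0 ≤ vr q X s h cap W y v b n ω ∧ vr q X s h cap W y v b n ω < 1 then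
      vr q X s h cap W y v b n ω else 0)

/-- The depths of the exhaustion in the box. -/
def capp {k : ℕ} (X s : ℕ) (cap : Fin k → ℕ) (n E : ℕ) : Fin (k + 1) → ℕ :=
  Fin.snoc (α := fun _ => ℕ) (fun l => cap l - s) ((E - n) / X)

/-- **A polynomial of the raw coordinates in the coordinates of the box.** -/
noncomputable def fat {K' : ℕ} (q : Ω → ℝ) (X s h : ℕ) (cap : Fin k → ℕ) (W : Ω → τ)
    (y : Ω → Fin k → ℝ) (b : Ω → (Fin k → Fin (K + 1)) → ℝ) (n : ℕ)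
    (G : Ω → (Fin (k + 1) → Fin (K' + 1)) → ℝ) (ω : Ω) :
    (Fin (k + 1) → Fin (K' * (K + 1) + 1)) → ℝ :=
  Pool.TUB.tub (G ω) (asc (cn X s cap y ω) (sd X s cap) (shl q X s cap W y b n ω))
    (cn X s cap y ω) (sd X s cap) (2 ^ mm k K h / 2 ^ n) (-(1 / 2) * (2 ^ mm k K h / 2 ^ n))

theorem yp_castSucc {q : Ω → ℝ} {X s h : ℕ} {cap : Fin k → ℕ} {W : Ω → τ} {y : Ω → Fin k → ℝ}
    {v : Ω → ℝ} {b : Ω → (Fin k → Fin (K + 1)) → ℝ} {n : ℕ} (ω : Ω) (l : Fin k) :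
    yp q X s h cap W y v b n ω l.castSucc = yc X s cap y ω l := by
  unfold yp
  rw [Fin.snoc_castSucc]

theorem yp_nonneg {q : Ω → ℝ} {X s h : ℕ} {cap : Fin k → ℕ} {W : Ω → τ} {y : Ω → Fin k → ℝ}
    {v : Ω → ℝ} {b : Ω → (Fin k → Fin (K + 1)) → ℝ} {n : ℕ} (ω : Ω) (l : Fin (k + 1)) :
    0 ≤ yp q X s h cap W y v b n ω l := by
  refine Fin.lastCases ?_ (fun l => ?_) l
  · unfold yp
    rw [Fin.snoc_last]
    split_ifs with hh
    · exact hh.1
    · exact le_rfl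
  · rw [yp_castSucc]
    exact yc_nonneg ω l

theorem yp_lt {q : Ω → ℝ} {X s h : ℕ} {cap : Fin k → ℕ} {W : Ω → τ} {y : Ω → Fin k → ℝ}
    {v : Ω → ℝ} {b : Ω → (Fin k → Fin (K + 1)) → ℝ} {n : ℕ} (ω : Ω) (l : Fin (k + 1)) :
    yp q X s h cap W y v b n ω l < 1 := by
  refine Fin.lastCases ?_ (fun l => ?_) l
  · unfold yp
    rw [Fin.snoc_last]
    split_ifs with hh
    · exact hh.2
    · exact zero_lt_one
  · rw [yp_castSucc]
    exact yc_lt ω l

end fat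

section tb

variable {Ω α β τ δ ε φ : Type} [Fintype Ω] {q : Ω → ℝ} {k K r X S h s₀ : ℕ} {g : ℕ → ℝ}
  {cap : Fin k → ℕ} {A : Ω → α} {B : Ω → β} {W : Ω → τ} {Dz : Ω → ε} {D : Ω → δ}
  {y : Ω → Fin k → ℝ} {v : Ω → ℝ} {a b : Ω → (Fin k → Fin (K + 1)) → ℝ} {E : ℕ} {th Lz : ℝ}

omit [Fintype Ω] in
/-- Leaves with the same record. -/
theorem rc_close {n s : ℕ} {ω ω' : Ω} (h1 : cs X s cap y ω = cs X s cap y ω')
    (h2 : rc X s cap y b n ω = rc X s cap y b n ω') {x : Fin k → ℝ} (hx : ∀ l, |x l| ≤ 1) :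
    |Pool.JMN.ev (b ω) (fun l => cn X s cap y ω l + sd X s cap l * x l) -
      Pool.JMN.ev (b ω') (fun l => cn X s cap y ω l + sd X s cap l * x l)| ≤
      (K + 1) ^ k / 2 ^ n := by
  have e0 : cn X s cap y ω = cn X s cap y ω' := by
    unfold cn
    rw [h1]
  have e1 : Pool.JMN.ev (b ω') (fun l => cn X s cap y ω l + sd X s cap l * x l) =
      Pool.JMN.ev (ac X s cap y b ω') x := by
    rw [ev_ac, e0]
  rw [← ev_ac, e1, ← Pool.JMN.ev_sub]
  have e2 : ∀ α, |(ac X s cap y b ω α - ac X s cap y b ω' α)| * 1 ^ tdg α ≤ 1 / 2 ^ n := by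
    intro α
    rw [one_pow, mul_one]
    exact Pool.R1.fl_close (congrFun h2 α)
  refine (Pool.JMN.ev_le e2 hx).trans (le_of_eq ?_)
  ring

/-- The width. -/
theorem mm_gt (k K h : ℕ) : ((K : ℝ) + 1) ^ k + 4 * 2 ^ h < 1 / 2 * 2 ^ mm k K h := by
  have h1 : 2 * ((K + 1) ^ k + 4) < 2 ^ (2 * ((K + 1) ^ k + 4)) := Nat.lt_two_pow_self
  have h2 : (2 : ℝ) * (((K : ℝ) + 1) ^ k + 4) < 2 ^ (2 * ((K + 1) ^ k + 4)) := by
    exact_mod_cast h1
  have h3 : (1 : ℝ) ≤ 2 ^ h := one_le_pow₀ (by norm_num)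
  unfold mm
  rw [pow_add]
  have h4 : (0 : ℝ) ≤ ((K : ℝ) + 1) ^ k := by positivity
  nlinarith

/-- **The coordinate across the sheet is in the unit interval.** -/
theorem Tb.vr_mem (H : Tb q k K r X S h s₀ g cap A B W Dz D y v a b E th Lz) {s : ℕ} (hs0 : s₀ ≤ s)
    (hsS : s ≤ S) {ω : Ω} (hω : 0 < q ω) :
    0 < vr q X s h cap W y v b ⌈g s⌉₊ ω ∧ vr q X s h cap W y v b ⌈g s⌉₊ ω < 1 := by
  obtain ⟨n, hn⟩ : ∃ n, n = ⌈g s⌉₊ := ⟨_, rfl⟩
  have hP : (0 : ℝ) < 2 ^ n := by positivity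
  have hM : (0 : ℝ) < 2 ^ mm k K h := by positivity
  obtain ⟨T, hT⟩ : ∃ T, T = rep q (wp X s cap W y b n) ω := ⟨_, rfl⟩
  have e1 := rep_spec (V := wp X s cap W y b n) hω
  rw [← hT] at e1
  have e2 := e1.2
  unfold wp at e2
  simp only [Prod.mk.injEq] at e2
  have e3 : |v ω - Pool.JMN.ev (b ω) (y ω)| ≤ 4 * 2 ^ h / 2 ^ n := by
    refine (H.nb (hs0.trans hsS) hω).trans ?_
    have f1 := H.mono hs0 hsS le_rfl
    have f2 := Nat.ceil_lt_add_one (H.g0 s)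
    rw [← hn] at f2
    rw [le_div_iff₀ hP, ← rp_nat n, ← Real.rpow_add (by norm_num)]
    have f3 : (4 : ℝ) * 2 ^ h = (2 : ℝ) ^ ((h : ℝ) + 2) := by
      rw [Real.rpow_add (by norm_num), rp_nat]
      norm_num
      ring
    rw [f3]
    exact rp_mono (by linarith)
  have e4 : |Pool.JMN.ev (b ω) (y ω) - Pool.JMN.ev (b T) (y ω)| ≤ (K + 1) ^ k / 2 ^ n := by
    have f1 := rc_close (b := b) (n := n) e2.2.2.symm e2.1.symm (x := yc X s cap y ω) (fun l => by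
      rw [abs_of_nonneg (yc_nonneg ω l)]
      exact (yc_lt ω l).le)
    have f2 : (fun l => cn X s cap y ω l + sd X s cap l * yc X s cap y ω l) = y ω :=
      funext fun l => cn_yc ω l
    rw [f2] at f1
    exact f1
  have e5 : |v ω - Pool.JMN.ev (b T) (y ω)| < 1 / 2 * 2 ^ mm k K h / 2 ^ n := by
    have f1 : v ω - Pool.JMN.ev (b T) (y ω) = (v ω - Pool.JMN.ev (b ω) (y ω)) +
      (Pool.JMN.ev (b ω) (y ω) - Pool.JMN.ev (b T) (y ω)) := by ring
    rw [f1]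
    refine (abs_add_le _ _).trans_lt ?_
    have f2 := mm_gt k K h
    have f3 : 1 / 2 * 2 ^ mm k K h / 2 ^ n > ((K + 1 : ℝ) ^ k + 4 * 2 ^ h) / 2 ^ n :=
      div_lt_div_of_pos_right f2 hP
    rw [add_div] at f3
    linarith
  have e6 : vr q X s h cap W y v b n ω =
      2 ^ n / 2 ^ mm k K h * (v ω - Pool.JMN.ev (b T) (y ω)) + 1 / 2 := by
    unfold vr shl
    rw [← hT]
  rw [← hn, e6]
  have e7 : |2 ^ n / 2 ^ mm k K h * (v ω - Pool.JMN.ev (b T) (y ω))| < 1 / 2 := by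
    rw [abs_mul, abs_of_pos (by positivity)]
    have f1 := mul_lt_mul_of_pos_left e5 (show (0 : ℝ) < 2 ^ n / 2 ^ mm k K h by positivity)
    have f2 : (2 : ℝ) ^ n / 2 ^ mm k K h * (1 / 2 * 2 ^ mm k K h / 2 ^ n) = 1 / 2 := by
      field_simp
    rw [f2] at f1
    exact f1
  rw [abs_lt] at e7
  constructor <;> linarith

theorem Tb.yp_last (H : Tb q k K r X S h s₀ g cap A B W Dz D y v a b E th Lz) {s : ℕ}
    (hs0 : s₀ ≤ s) (hsS : s ≤ S) {ω : Ω} (hω : 0 < q ω) :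
    yp q X s h cap W y v b ⌈g s⌉₊ ω (Fin.last k) = vr q X s h cap W y v b ⌈g s⌉₊ ω := by
  have h1 := H.vr_mem hs0 hsS hω
  unfold yp
  rw [Fin.snoc_last, if_pos ⟨h1.1.le, h1.2⟩]

/-- **The value of a polynomial in the coordinates of the box.** -/
theorem Tb.ev_fat (H : Tb q k K r X S h s₀ g cap A B W Dz D y v a b E th Lz) {s : ℕ}
    (hs0 : s₀ ≤ s) (hsS : s ≤ S) {K' : ℕ} (G : Ω → (Fin (k + 1) → Fin (K' + 1)) → ℝ) {ω : Ω}
    (hω : 0 < q ω) :
    Pool.JMN.ev (fat q X s h cap W y b ⌈g s⌉₊ G ω) (yp q X s h cap W y v b ⌈g s⌉₊ ω) =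
      Pool.JMN.ev (G ω) (Fin.snoc (α := fun _ => ℝ) (y ω) (v ω)) := by
  unfold fat
  rw [Pool.TUB.ev_tub, H.yp_last hs0 hsS hω]
  simp only [yp_castSucc]
  have e1 : (fun l => cn X s cap y ω l + sd X s cap l * yc X s cap y ω l) = y ω :=
    funext fun l => cn_yc ω l
  rw [ev_asc, e1]
  congr 2
  unfold vr
  have h1 : (2 : ℝ) ^ ⌈g s⌉₊ ≠ 0 := by positivity
  have h2 : (2 : ℝ) ^ mm k K h ≠ 0 := by positivity
  field_simp
  ring

omit [Fintype Ω] in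
/-- The array in the box is a function of the raw array and of the world. -/
theorem fat_det {γ : Type} {K' s n : ℕ} {C : Ω → γ} {G : Ω → (Fin (k + 1) → Fin (K' + 1)) → ℝ}
    (hG : Det q (fun ω => (C ω, wp X s cap W y b n ω)) G) :
    Det q (fun ω => (C ω, wp X s cap W y b n ω)) (fat q X s h cap W y b n G) := by
  intro ω ω' hω hω' hh
  have e1 := hG ω ω' hω hω' hh
  simp only [Prod.mk.injEq] at hh
  have e2 := rep_eq (V := wp X s cap W y b n) hω hh.2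
  have e3 := hh.2
  unfold wp at e3
  simp only [Prod.mk.injEq] at e3
  have e4 : cn X s cap y ω = cn X s cap y ω' := by
    unfold cn
    rw [e3.2.2]
  unfold fat shl
  rw [e1, e2, e4]

/-- The digits determine the coordinates of the box. -/
theorem Tb.yp_det (H : Tb q k K r X S h s₀ g cap A B W Dz D y v a b E th Lz) {s n : ℕ} :
    Det q (fun ω => (D ω, wp X s cap W y b n ω)) (yp q X s h cap W y v b n) := by
  intro ω ω' hω hω' hh
  simp only [Prod.mk.injEq] at hh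
  have e2 := rep_eq (V := wp X s cap W y b n) hω hh.2
  have e3 := hh.2
  unfold wp at e3
  simp only [Prod.mk.injEq] at e3
  have e4 := H.dy ω ω' hω hω' (Prod.ext hh.1 e3.2.1)
  simp only [Prod.mk.injEq] at e4
  have e5 : yc X s cap y ω = yc X s cap y ω' := by
    funext l
    unfold yc
    rw [e4.1, e3.2.2]
  have e6 : vr q X s h cap W y v b n ω = vr q X s h cap W y v b n ω' := by
    unfold vr shl
    rw [e2, e4.1, e4.2]
  unfold yp
  rw [e5, e6]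

theorem Tb.yp_dc (H : Tb q k K r X S h s₀ g cap A B W Dz D y v a b E th Lz) {s n : ℕ}
    (d : Fin (k + 1) → ℕ) :
    Det q (fun ω => (D ω, wp X s cap W y b n ω)) (cv X (yp q X s h cap W y v b n) d) := by
  intro ω ω' hω hω' hh
  have e1 := H.yp_det ω ω' hω hω' hh
  unfold cv
  rw [e1]

/-- The size of the digits in the box. -/
noncomputable def Lp {k : ℕ} (X s : ℕ) (g : ℕ → ℝ) (cap : Fin k → ℕ) (E : ℕ) (Lz : ℝ) : ℝ :=
  Lz - (∑ l, (ds s cap l : ℝ)) * (X * Real.log 2) + ((E : ℝ) - g s) * Real.log 2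

/-- **The count in the box.** -/
theorem Tb.yp_cnt (H : Tb q k K r X S h s₀ g cap A B W Dz D y v a b E th Lz) {s : ℕ}
    (hs0 : s₀ ≤ s) (hsS : s ≤ S) (d : Fin (k + 1) → ℕ)
    (hd : ∀ l, d l ≤ capp X s cap ⌈g s⌉₊ E l) :
    CH q D (fun ω => (wp X s cap W y b ⌈g s⌉₊ ω, cv X (yp q X s h cap W y v b ⌈g s⌉₊) d ω)) ≤
      Lp X s g cap E Lz - (∑ l, (d l : ℝ)) * (X * Real.log 2) + ((mm k K h + h + 2 : ℕ) : ℝ) := by
  have h0 := H.law.nonneg
  have hl2 : 0 < Real.log 2 := Real.log_pos (by norm_num)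
  have hl21 : Real.log 2 ≤ 1 := by
    have := Real.log_two_lt_d9
    linarith
  obtain ⟨n, hn⟩ : ∃ n, n = ⌈g s⌉₊ := ⟨_, rfl⟩
  obtain ⟨m, hm⟩ : ∃ m, m = mm k K h := ⟨_, rfl⟩
  rw [← hn] at hd ⊢
  have hgn : g s ≤ n := by
    rw [hn]
    exact Nat.le_ceil _
  have hnE : n ≤ E := by
    rw [hn]
    exact Nat.ceil_le.2 ((H.mono hs0 hsS le_rfl).trans H.se)
  obtain ⟨T, hT⟩ : ∃ T, T = rep q (wp X s cap W y b n) := ⟨_, rfl⟩
  have hTs : ∀ ω, 0 < q ω → 0 < q (T ω) ∧ W (T ω) = W ω := by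
    intro ω hω
    rw [hT]
    have e1 := rep_spec (V := wp X s cap W y b n) hω
    refine ⟨e1.1, ?_⟩
    have e2 := e1.2
    unfold wp at e2
    simp only [Prod.mk.injEq] at e2
    exact e2.2.1
  obtain ⟨dl, hdl⟩ : ∃ x, x = d (Fin.last k) := ⟨_, rfl⟩
  have hdl' : dl * X ≤ E - n := by
    have e1 := hd (Fin.last k)
    unfold capp at e1
    rw [Fin.snoc_last, ← hdl] at e1
    exact (Nat.mul_le_mul_right X e1).trans (Nat.div_mul_le_self _ _)
  obtain ⟨j, hj⟩ : ∃ j, j = n + dl * X - m := ⟨_, rfl⟩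
  have hjE : j ≤ E := by omega
  obtain ⟨dz, hdz⟩ : ∃ dz : Fin k → ℕ, dz = fun l => ds s cap l + d l.castSucc := ⟨_, rfl⟩
  have hdz' : ∀ l, dz l ≤ cap l := by
    intro l
    have e1 := hd l.castSucc
    unfold capp at e1
    rw [Fin.snoc_castSucc] at e1
    have e2 := ds_add s cap l
    rw [hdz]
    simp only
    omega
  obtain ⟨V, hV⟩ : ∃ V, V = fun ω => (wp X s cap W y b n ω,
    cv X (yp q X s h cap W y v b n) d ω) := ⟨_, rfl⟩
  rw [← hV]
  obtain ⟨f, hf⟩ : ∃ f : Ω → ℤ, f = fun ω =>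
    ⌊(2 : ℝ) ^ j * (v ω - Pool.JMN.ev (b (T ω)) (y ω))⌋ := ⟨_, rfl⟩
  have c2 := H.c2 T hTs dz hdz' j hjE
  have ef : ∀ ω, ⌊(2 : ℝ) ^ j * (v ω - Pool.JMN.ev (b (T ω)) (y ω))⌋ = f ω := fun ω => by rw [hf]
  simp only [ef] at c2
  -- the components of `V`
  have hVc : ∀ ω ω', 0 < q ω → 0 < q ω' → V ω = V ω' →
      wp X s cap W y b n ω = wp X s cap W y b n ω' ∧ W ω = W ω' ∧ T ω = T ω' ∧
      cv X y dz ω = cv X y dz ω' ∧
      ⌊(2 : ℝ) ^ (dl * X) * vr q X s h cap W y v b n ω⌋ =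
        ⌊(2 : ℝ) ^ (dl * X) * vr q X s h cap W y v b n ω'⌋ := by
    intro ω ω' hω hω' hh
    rw [hV] at hh
    simp only [Prod.mk.injEq] at hh
    have e1 := hh.1
    unfold wp at e1
    simp only [Prod.mk.injEq] at e1
    refine ⟨hh.1, e1.2.1, ?_, ?_, ?_⟩
    · rw [hT]
      exact rep_eq hω hh.1
    · rw [hdz]
      refine cv_of_yc e1.2.2 ?_
      funext l
      have e2 := congrFun hh.2 l.castSucc
      unfold cv at e2 ⊢
      rw [yp_castSucc, yp_castSucc] at e2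
      exact e2
    · have e2 := congrFun hh.2 (Fin.last k)
      unfold cv at e2
      have e3 := H.yp_last hs0 hsS hω
      have e4 := H.yp_last hs0 hsS hω'
      rw [← hn] at e3 e4
      rw [e3, e4, ← hdl] at e2
      exact e2
  have e1 := CH_le_add h0 D f V
  have e2 : CH q D (fun ω => (f ω, V ω)) ≤ CH q D (fun ω => (f ω, (T ω, (W ω, cv X y dz ω)))) := by
    refine CH_mono_cond h0 fun ω ω' hω hω' hh => ?_
    simp only [Prod.mk.injEq] at hh ⊢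
    obtain ⟨g1, g2, g3, g4, g5⟩ := hVc ω ω' hω hω' hh.2
    exact ⟨hh.1, g3, g2, g4⟩
  have he0 : 0 ≤ (m : ℝ) - n - dl * X + j := by
    have : n + dl * X ≤ j + m := by omega
    have : ((n + dl * X : ℕ) : ℝ) ≤ ((j + m : ℕ) : ℝ) := by exact_mod_cast this
    push_cast at this
    linarith
  have e3 : CH q f V ≤ ((m : ℝ) - n - dl * X + j) * Real.log 2 + 2 := by
    refine (CH_bd1 H.law f V ((2 : ℝ) ^ ((m : ℝ) - n - dl * X + j) + 1) ?_).trans (log_cnt he0)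
    intro ω ω' hω hω' hh
    obtain ⟨g1, g2, g3, g4, g5⟩ := hVc ω ω' hω hω' hh
    have g6 := Pool.R1.fl_close g5
    have g7 : ∀ ω, v ω - Pool.JMN.ev (b (T ω)) (y ω) =
        2 ^ m / 2 ^ n * (vr q X s h cap W y v b n ω - 1 / 2) := by
      intro ω
      unfold vr shl
      rw [hT, ← hm]
      have h1 : (2 : ℝ) ^ n ≠ 0 := by positivity
      have h2 : (2 : ℝ) ^ m ≠ 0 := by positivity
      field_simp
      ring
    have g8 : |(2 : ℝ) ^ j * (v ω - Pool.JMN.ev (b (T ω)) (y ω)) -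
        2 ^ j * (v ω' - Pool.JMN.ev (b (T ω')) (y ω'))| ≤
        (2 : ℝ) ^ ((m : ℝ) - n - dl * X + j) := by
      rw [g7, g7]
      have q1 : (2 : ℝ) ^ j * (2 ^ m / 2 ^ n * (vr q X s h cap W y v b n ω - 1 / 2)) -
          2 ^ j * (2 ^ m / 2 ^ n * (vr q X s h cap W y v b n ω' - 1 / 2)) =
          2 ^ j * (2 ^ m / 2 ^ n) * (vr q X s h cap W y v b n ω - vr q X s h cap W y v b n ω') := by
        ring
      rw [q1, abs_mul, abs_of_pos (by positivity)]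
      refine (mul_le_mul_of_nonneg_left g6 (by positivity)).trans (le_of_eq ?_)
      have q2 : (m : ℝ) - n - dl * X + j = ((j + m : ℕ) : ℝ) - ((n + dl * X : ℕ) : ℝ) := by
        push_cast
        ring
      rw [q2, Real.rpow_sub (by norm_num), rp_nat, rp_nat, pow_add, pow_add]
      field_simp
    have g9 := fl_sub_near ((2 : ℝ) ^ j * (v ω - Pool.JMN.ev (b (T ω)) (y ω)))
      (2 ^ j * (v ω' - Pool.JMN.ev (b (T ω')) (y ω')))
    rw [hf]
    push_cast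
    rw [abs_le] at g8 g9 ⊢
    constructor <;> linarith
  have e4 : ∑ l, (d l : ℝ) = ∑ l : Fin k, (d l.castSucc : ℝ) + dl := by
    rw [Fin.sum_univ_castSucc, hdl]
  have e5 : ∑ l, (dz l : ℝ) = ∑ l, (ds s cap l : ℝ) + ∑ l : Fin k, (d l.castSucc : ℝ) := by
    rw [hdz, ← Finset.sum_add_distrib]
    exact Finset.sum_congr rfl fun l _ => by push_cast; ring
  rw [e5] at c2
  rw [e4]
  unfold Lp
  rw [← hm]
  push_cast
  have e6 : (m : ℝ) * Real.log 2 ≤ m := by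
    have := mul_le_mul_of_nonneg_left hl21 (Nat.cast_nonneg (α := ℝ) m)
    linarith
  have e7 : g s * Real.log 2 ≤ n * Real.log 2 := mul_le_mul_of_nonneg_right hgn hl2.le
  have e8 : ((m : ℝ) - n - dl * X + j) * Real.log 2 + ((E : ℝ) - j) * Real.log 2 =
    E * Real.log 2 + m * Real.log 2 - n * Real.log 2 - dl * (X * Real.log 2) := by ring
  have e9 : ((E : ℝ) - g s) * Real.log 2 = E * Real.log 2 - g s * Real.log 2 := by ring
  have e10 : (∑ l : Fin k, (d l.castSucc : ℝ) + (dl : ℝ)) * (X * Real.log 2) =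
    (∑ l : Fin k, (d l.castSucc : ℝ)) * (X * Real.log 2) + dl * (X * Real.log 2) := by ring
  have e11 : (∑ l, (ds s cap l : ℝ) + ∑ l : Fin k, (d l.castSucc : ℝ)) * (X * Real.log 2) =
    (∑ l, (ds s cap l : ℝ)) * (X * Real.log 2) +
      (∑ l : Fin k, (d l.castSucc : ℝ)) * (X * Real.log 2) := by ring
  rw [e9, e10]
  rw [e11] at c2
  linarith only [e1, e2, e3, c2, e6, e7, e8]

end tb

/-- **Fullness in the box**, for a random variable which is almost known on both sides. -/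
theorem fat_full (k r : ℕ) : ∃ C1 : ℝ, 0 ≤ C1 ∧ ∀ K : ℕ, ∃ C2 : ℝ, 0 ≤ C2 ∧
    ∀ {Ω α β τ δ ε φ : Type} [Fintype Ω] {q : Ω → ℝ} {X S h s₀ : ℕ} {g : ℕ → ℝ}
    {cap : Fin k → ℕ} {A : Ω → α} {B : Ω → β} {W : Ω → τ} {Dz : Ω → ε} {D : Ω → δ}
    {y : Ω → Fin k → ℝ} {v : Ω → ℝ} {a b : Ω → (Fin k → Fin (K + 1)) → ℝ} {E : ℕ} {th Lz : ℝ},
    Tb q k K r X S h s₀ g cap A B W Dz D y v a b E th Lz → ∀ {s : ℕ}, s₀ ≤ s → s ≤ S →
    ∀ (F : Ω → φ) {η : ℝ}, 0 ≤ η → CH q F (fun ω => (A ω, (W ω, cs X s cap y ω))) ≤ η →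
    CH q F (fun ω => (B ω, (W ω, cs X s cap y ω))) ≤ η →
    Lp X s g cap E Lz - (C1 * ((((S - s : ℕ) : ℝ) + 1) * (th + η) + X) +
        C2 * ((((S - s : ℕ) : ℝ) + 1) * (1 + h))) ≤
      CH q D (fun ω => (F ω, wp X s cap W y b ⌈g s⌉₊ ω)) := by
  obtain ⟨C1, hC1, h1⟩ := own k r
  refine ⟨C1, hC1, fun K => ?_⟩
  obtain ⟨C2, hC2, h2⟩ := h1 K
  refine ⟨C2, hC2, ?_⟩
  intro Ω α β τ δ ε φ _ q X S h s₀ g cap A B W Dz D y v a b E th Lz H s hs0 hsS F η hη hFa hFb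
  have e1 := h2 H hs0 hsS F hη hFa hFb
  have e2 : CH q D (fun ω => ((F ω, rc X s cap y b ⌈g s⌉₊ ω), (W ω, cs X s cap y ω))) ≤
      CH q D (fun ω => (F ω, wp X s cap W y b ⌈g s⌉₊ ω)) := by
    refine CH_mono_cond H.law.nonneg fun ω ω' _ _ hh => ?_
    unfold wp
    simp only [Prod.mk.injEq] at hh ⊢
    exact ⟨hh.1.1, hh.1.2, hh.2.1, hh.2.2⟩
  unfold Lp
  linarith

end Pool.R2
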