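import Pool.Agent.H3.R2.Fat

/-!
# Row R2: the rounded labels of the box

Two labels which are close on the box of depth `s` have close coefficients in the coordinates of
the box; so the rounded label of one side is almost known on the other side.
-/

set_option autoImplicit false

namespace Pool.R2

open Finset Real
open Pool.Agent.H49.Ent Pool.Agent.H32.Dense Pool.STK Pool.KA Pool.KSAT Pool.K2S Pool.PC Pool.LU
open Pool.JMN (shf tdg rp_mono rp_pos rp_nat coef_le)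
open Pool.R1 (Sup Rows cv cv_nest ch_cv r1l)
open Pool.R1P (log_bd fl_sub_near)

/-! ### One variable -/

/-- The polynomial as an array. -/
theorem ev_pol {K : ℕ} {p : Polynomial ℝ} (hp : p.natDegree ≤ K) (t : ℝ) :
    Pool.JMN.ev (fun β : Fin 1 → Fin (K + 1) => p.coeff (β 0)) (fun _ => t) = p.eval t := by
  rw [Polynomial.eval_eq_sum_range' (Nat.lt_succ_of_le hp)]
  unfold Pool.JMN.ev
  have h1 := Equiv.sum_comp (Equiv.funUnique (Fin 1) (Fin (K + 1))).symm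
    (fun a : Fin 1 → Fin (K + 1) => p.coeff (a 0) * ∏ i, t ^ (a i : ℕ))
  rw [← h1, ← Fin.sum_univ_eq_sum_range (fun i => p.coeff i * t ^ i)]
  refine Finset.sum_congr rfl fun b _ => ?_
  simp

/-- The extension from a short interval. -/
theorem ext_one (K : ℕ) : ∃ C : ℝ, 1 ≤ C ∧ ∀ (p : Polynomial ℝ), p.natDegree ≤ K →
    ∀ {c l δ : ℝ}, 0 < l → l ≤ 1 → (∀ t, 0 ≤ t → t ≤ l → |p.eval (c + t)| ≤ δ) →
    ∀ t, |t| ≤ 1 → |p.eval (c + t)| * l ^ K ≤ C * δ := by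
  obtain ⟨C, hC, hc⟩ := coef_le 1 K
  refine ⟨(K + 1) * C, by nlinarith [(Nat.cast_nonneg K : (0 : ℝ) ≤ K)], ?_⟩
  intro p hp c l δ hl hl1 h t ht
  obtain ⟨p', hp'⟩ : ∃ p' : Polynomial ℝ, p' = p.comp (Polynomial.C c + Polynomial.X) := ⟨_, rfl⟩
  have hd : p'.natDegree ≤ K := by
    rw [hp', Polynomial.natDegree_comp]
    have : (Polynomial.C c + Polynomial.X : Polynomial ℝ).natDegree = 1 := by
      rw [add_comm]
      exact Polynomial.natDegree_X_add_C c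
    rw [this, mul_one]
    exact hp
  have he : ∀ t, p'.eval t = p.eval (c + t) := by
    intro t
    rw [hp']
    simp
  have h1 := hc (fun β : Fin 1 → Fin (K + 1) => p'.coeff (β 0)) l δ hl (fun x hx => by
    have e1 : x = fun _ => x 0 := by
      funext i
      rw [Subsingleton.elim i 0]
    rw [e1, ev_pol hd, he]
    exact h (x 0) (hx 0).1 (hx 0).2)
  rw [← he, ← ev_pol hd]
  unfold Pool.JMN.ev
  have h2 : ∀ β : Fin 1 → Fin (K + 1), |p'.coeff (β 0) * ∏ i, t ^ (β i : ℕ)| * l ^ K ≤ C * δ := by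
    intro β
    have e1 := h1 β
    have e2 : |∏ i : Fin 1, t ^ (β i : ℕ)| ≤ 1 := by
      rw [Finset.abs_prod]
      refine Finset.prod_le_one (fun _ _ => abs_nonneg _) fun i _ => ?_
      rw [abs_pow]
      exact pow_le_one₀ (abs_nonneg _) ht
    have e3 : l ^ K ≤ l ^ tdg β := by
      refine pow_le_pow_of_le_one hl.le hl1 ?_
      have := Pool.JMN.tdg_le β
      omega
    rw [abs_mul]
    calc |p'.coeff (β 0)| * |∏ i, t ^ (β i : ℕ)| * l ^ K ≤ |p'.coeff (β 0)| * 1 * l ^ tdg β := by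
          refine mul_le_mul (mul_le_mul_of_nonneg_left e2 (abs_nonneg _)) e3 (by positivity)
            (by positivity)
      _ = |p'.coeff (β 0)| * l ^ tdg β := by ring
      _ ≤ C * δ := e1
  have h3 : |∑ β : Fin 1 → Fin (K + 1), p'.coeff (β 0) * ∏ i, t ^ (β i : ℕ)| * l ^ K ≤
      ∑ β : Fin 1 → Fin (K + 1), C * δ := by
    refine (mul_le_mul_of_nonneg_right (Finset.abs_sum_le_sum_abs _ _) (by positivity)).trans ?_
    rw [Finset.sum_mul]
    exact Finset.sum_le_sum fun β _ => h2 β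
  refine h3.trans (le_of_eq ?_)
  rw [Finset.sum_const, Finset.card_univ, Fintype.card_fun, Fintype.card_fin, Fintype.card_fin,
    nsmul_eq_mul]
  push_cast
  ring

/-- The restriction to a vertical line. -/
noncomputable def vpol {k K : ℕ} (P : (Fin (k + 1) → Fin (K + 1)) → ℝ) (z : Fin k → ℝ) :
    Polynomial ℝ :=
  ∑ α, Polynomial.C (P α * ∏ i : Fin k, z i ^ (α i.castSucc : ℕ)) *
    Polynomial.X ^ (α (Fin.last k) : ℕ)

theorem vpol_deg {k K : ℕ} (P : (Fin (k + 1) → Fin (K + 1)) → ℝ) (z : Fin k → ℝ) :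
    (vpol P z).natDegree ≤ K := by
  unfold vpol
  refine Polynomial.natDegree_sum_le_of_forall_le _ _ fun α _ => ?_
  refine (Polynomial.natDegree_C_mul_X_pow_le _ _).trans ?_
  exact Nat.lt_succ_iff.1 (α (Fin.last k)).isLt

theorem vpol_eval {k K : ℕ} (P : (Fin (k + 1) → Fin (K + 1)) → ℝ) (z : Fin k → ℝ) (u : ℝ) :
    (vpol P z).eval u = Pool.JMN.ev P (Fin.snoc (α := fun _ => ℝ) z u) := by
  unfold vpol Pool.JMN.ev
  rw [Polynomial.eval_finsetSum]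
  refine Finset.sum_congr rfl fun α _ => ?_
  rw [Polynomial.eval_mul, Polynomial.eval_C, Polynomial.eval_pow, Polynomial.eval_X,
    Fin.prod_univ_castSucc]
  simp only [Fin.snoc_castSucc, Fin.snoc_last]
  ring

/-- **The coefficients of a polynomial which is small on a thin curved box.** -/
theorem thin (k K : ℕ) : ∃ C : ℝ, 1 ≤ C ∧ ∀ (P : (Fin (k + 1) → Fin (K + 1)) → ℝ) {l δ : ℝ}
    (c : (Fin k → ℝ) → ℝ), 0 < l → l ≤ 1 → (∀ z : Fin k → ℝ, (∀ i, 0 ≤ z i ∧ z i ≤ 1) →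
      0 ≤ c z ∧ c z ≤ 1) → (∀ z : Fin k → ℝ, (∀ i, 0 ≤ z i ∧ z i ≤ 1) → ∀ u, |u - c z| ≤ l →
      |Pool.JMN.ev P (Fin.snoc (α := fun _ => ℝ) z u)| ≤ δ) →
    ∀ α, |P α| * l ^ K ≤ C * δ := by
  obtain ⟨C, hC, hc⟩ := ext_one K
  obtain ⟨C', hC', hc'⟩ := coef_le (k + 1) K
  refine ⟨C' * C, by nlinarith, ?_⟩
  intro P l δ c hl hl1 c01 h α
  have h1 : ∀ x : Fin (k + 1) → ℝ, (∀ i, 0 ≤ x i ∧ x i ≤ 1) → |Pool.JMN.ev P x| ≤
      C * δ / l ^ K := by
    intro x hx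
    obtain ⟨z, hz⟩ : ∃ z : Fin k → ℝ, z = fun i => x i.castSucc := ⟨_, rfl⟩
    have hzx : x = Fin.snoc (α := fun _ => ℝ) z (x (Fin.last k)) := by
      funext i
      refine Fin.lastCases ?_ (fun i => ?_) i
      · rw [Fin.snoc_last]
      · rw [Fin.snoc_castSucc, hz]
    have hz01 : ∀ i, 0 ≤ z i ∧ z i ≤ 1 := fun i => by
      rw [hz]
      exact hx i.castSucc
    have h2 := hc (vpol P z) (vpol_deg P z) (c := c z) hl hl1 (fun t h0 ht => by
      rw [vpol_eval]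
      refine h z hz01 _ ?_
      rw [add_sub_cancel_left, abs_of_nonneg h0]
      exact ht) (x (Fin.last k) - c z) (by
        have e1 := c01 z hz01
        have e2 := hx (Fin.last k)
        rw [abs_le]
        constructor <;> linarith)
    rw [add_sub_cancel, vpol_eval, ← hzx] at h2
    rw [le_div_iff₀ (by positivity)]
    exact h2
  have h2 := hc' P 1 (C * δ / l ^ K) one_pos h1 α
  rw [one_pow, mul_one] at h2
  have h3 := mul_le_mul_of_nonneg_right h2 (show (0 : ℝ) ≤ l ^ K by positivity)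
  refine h3.trans (le_of_eq ?_)
  have : l ^ K ≠ 0 := by positivity
  field_simp

/-! ### The labels -/

/-- The rounded label in the coordinates of the box. -/
noncomputable def rfat {Ω τ : Type} {k K K' : ℕ} (q : Ω → ℝ) (X s h : ℕ) (cap : Fin k → ℕ)
    (W : Ω → τ) (y : Ω → Fin k → ℝ) (b : Ω → (Fin k → Fin (K + 1)) → ℝ) (n : ℕ)
    (G : Ω → (Fin (k + 1) → Fin (K' + 1)) → ℝ) (e : ℕ) (ω : Ω)
    (α : Fin (k + 1) → Fin (K' * (K + 1) + 1)) : ℤ :=
  ⌊(2 : ℝ) ^ e * fat q X s h cap W y b n G ω α⌋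

/-- The coefficients of two labels in the box. -/
theorem fat_near (k K K' : ℕ) : ∃ C : ℝ, 1 ≤ C ∧
    ∀ {Ω α β τ δ ε : Type} [Fintype Ω] {q : Ω → ℝ} {r X S h s₀ : ℕ} {g : ℕ → ℝ}
    {cap : Fin k → ℕ} {A : Ω → α} {B : Ω → β} {W : Ω → τ} {Dz : Ω → ε} {D : Ω → δ}
    {y : Ω → Fin k → ℝ} {v : Ω → ℝ} {a b : Ω → (Fin k → Fin (K + 1)) → ℝ} {E : ℕ} {th Lz : ℝ},
    Tb q k K r X S h s₀ g cap A B W Dz D y v a b E th Lz → ∀ {s : ℕ}, s₀ ≤ s → s ≤ S →
    ∀ (FA FB : Ω → (Fin (k + 1) → Fin (K' + 1)) → ℝ) (G : ℝ) (ω : Ω), 0 < q ω →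
    (∀ x : Fin k → ℝ, (∀ l, 0 ≤ x l ∧ x l ≤ 1) → ∀ w : ℝ,
      |w - Pool.JMN.ev (a ω) (fun l => cn X s cap y ω l + sd X s cap l * x l)| ≤
        (2 : ℝ) ^ (-(g s)) →
      |Pool.JMN.ev (FA ω) (Fin.snoc (α := fun _ => ℝ)
          (fun l => cn X s cap y ω l + sd X s cap l * x l) w) -
        Pool.JMN.ev (FB ω) (Fin.snoc (α := fun _ => ℝ)
          (fun l => cn X s cap y ω l + sd X s cap l * x l) w)| ≤ (2 : ℝ) ^ ((h : ℝ) - G)) →
    ∀ al, |fat q X s h cap W y b ⌈g s⌉₊ FA ω al - fat q X s h cap W y b ⌈g s⌉₊ FB ω al| ≤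
      C * (2 : ℝ) ^ ((K' * (K + 1) + 1 : ℕ) * (h : ℝ) - G) := by
  obtain ⟨C, hC, hc⟩ := thin k (K' * (K + 1))
  refine ⟨C * 2 ^ (K' * (K + 1) * (2 * ((K + 1) ^ k + 4))), by
    have : (1 : ℝ) ≤ 2 ^ (K' * (K + 1) * (2 * ((K + 1) ^ k + 4))) := one_le_pow₀ (by norm_num)
    nlinarith, ?_⟩
  intro Ω α β τ δ ε _ q r X S h s₀ g cap A B W Dz D y v a b E th Lz H s hs0 hsS FA FB G ω hω hF al
  obtain ⟨n, hn⟩ : ∃ n, n = ⌈g s⌉₊ := ⟨_, rfl⟩
  rw [← hn]
  obtain ⟨m, hm⟩ : ∃ m, m = mm k K h := ⟨_, rfl⟩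
  have hP : (0 : ℝ) < 2 ^ n := by positivity
  have hM : (0 : ℝ) < 2 ^ m := by positivity
  have hgn : g s ≤ n := by
    rw [hn]
    exact Nat.le_ceil _
  -- the point of the cell and the sheet
  obtain ⟨T, hT⟩ : ∃ T, T = rep q (wp X s cap W y b n) ω := ⟨_, rfl⟩
  have e1 := rep_spec (V := wp X s cap W y b n) hω
  rw [← hT] at e1
  have e2 := e1.2
  unfold wp at e2
  simp only [Prod.mk.injEq] at e2
  obtain ⟨pt, hpt⟩ : ∃ pt : (Fin k → ℝ) → Fin k → ℝ, pt = fun x l =>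
    cn X s cap y ω l + sd X s cap l * x l := ⟨_, rfl⟩
  have hsup := H.sup (hs0.trans hsS)
  have hcell := Sup_cell hsup hs0 hsS le_rfl (F := fun _ => (0 : ℕ))
    (by rw [CH_eq_zero H.law.nonneg (fun _ _ _ _ _ => rfl)])
    (by rw [CH_eq_zero H.law.nonneg (fun _ _ _ _ _ => rfl)])
    (fun ω hω z z' h1 h2 h3 => (H.ga ω hω z z' h1 h2 h3).trans (rp_mono (by push_cast; linarith)))
    (fun ω hω z z' h1 h2 h3 => (H.gb ω hω z z' h1 h2 h3).trans (rp_mono (by push_cast; linarith)))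
  have hsh : ∀ x : Fin k → ℝ, (∀ l, 0 ≤ x l ∧ x l ≤ 1) →
      |Pool.JMN.ev (a ω) (pt x) - Pool.JMN.ev (b T) (pt x)| ≤ 1 / 2 * 2 ^ m / 2 ^ n := by
    intro x hx
    have hx1 : ∀ l, |x l| ≤ 1 := fun l => by
      rw [abs_of_nonneg (hx l).1]
      exact (hx l).2
    have f1 := rc_close (b := b) (n := n) e2.2.2.symm e2.1.symm hx1
    have f2 := hcell.up ω hω 0 le_rfl (Nat.zero_le _) x (fun l => by
      rw [zero_mul, pow_zero, div_one]
      have g1 := yc_nonneg (X := X) (s := s) (cap := cap) (y := y) ω l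
      have g2 := yc_lt (X := X) (s := s) (cap := cap) (y := y) ω l
      have g3 := (hx l).1
      have g4 := (hx l).2
      rw [abs_le]
      constructor <;> linarith)
    simp only [add_zero] at f2
    rw [ev_ac, ev_ac] at f2
    have ept : (fun l => cn X s cap y ω l + sd X s cap l * x l) = pt x := by rw [hpt]
    rw [ept] at f1 f2
    have f3 : (2 : ℝ) ^ (((h + 1 : ℕ) : ℝ) - g s) ≤ 4 * 2 ^ h / 2 ^ n := by
      have f4 := Nat.ceil_lt_add_one (H.g0 s)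
      rw [← hn] at f4
      rw [le_div_iff₀ hP, ← rp_nat n, ← Real.rpow_add (by norm_num)]
      have f5 : (4 : ℝ) * 2 ^ h = (2 : ℝ) ^ ((h : ℝ) + 2) := by
        rw [Real.rpow_add (by norm_num), rp_nat]
        norm_num
        ring
      rw [f5]
      exact rp_mono (by push_cast; linarith)
    have f6 := mm_gt k K h
    rw [← hm] at f6
    have f7 : 1 / 2 * 2 ^ m / 2 ^ n > ((K + 1 : ℝ) ^ k + 4 * 2 ^ h) / 2 ^ n :=
      div_lt_div_of_pos_right f6 hP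
    rw [add_div] at f7
    have f8 : Pool.JMN.ev (a ω) (pt x) - Pool.JMN.ev (b T) (pt x) =
      (Pool.JMN.ev (a ω) (pt x) - Pool.JMN.ev (b ω) (pt x)) +
      (Pool.JMN.ev (b ω) (pt x) - Pool.JMN.ev (b T) (pt x)) := by ring
    rw [f8]
    refine (abs_add_le _ _).trans ?_
    linarith
  obtain ⟨c, hcc⟩ : ∃ c : (Fin k → ℝ) → ℝ, c = fun x =>
    2 ^ n / 2 ^ m * (Pool.JMN.ev (a ω) (pt x) - Pool.JMN.ev (b T) (pt x)) + 1 / 2 := ⟨_, rfl⟩
  have hfat : ∀ (F : Ω → (Fin (k + 1) → Fin (K' + 1)) → ℝ) (x : Fin k → ℝ) (u : ℝ),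
      Pool.JMN.ev (fat q X s h cap W y b n F ω) (Fin.snoc (α := fun _ => ℝ) x u) =
      Pool.JMN.ev (F ω) (Fin.snoc (α := fun _ => ℝ) (pt x)
        (Pool.JMN.ev (b T) (pt x) + 2 ^ m / 2 ^ n * (u - 1 / 2))) := by
    intro F x u
    unfold fat
    rw [Pool.TUB.ev_tub]
    simp only [Fin.snoc_castSucc, Fin.snoc_last]
    rw [ev_asc]
    have ept : (fun l => cn X s cap y ω l + sd X s cap l * x l) = pt x := by rw [hpt]
    rw [ept]
    unfold shl
    rw [← hT, ← hm]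
    congr 2
    ring
  have hl0 : (0 : ℝ) < 1 / 2 ^ m := by positivity
  have hl1 : (1 : ℝ) / 2 ^ m ≤ 1 := by
    rw [div_le_one hM]
    exact one_le_pow₀ (by norm_num)
  have key := hc (fun al => fat q X s h cap W y b n FA ω al - fat q X s h cap W y b n FB ω al)
    (l := 1 / 2 ^ m) (δ := (2 : ℝ) ^ ((h : ℝ) - G)) c hl0 hl1 (fun x hx => by
      have f1 := hsh x hx
      have f2 : |2 ^ n / 2 ^ m * (Pool.JMN.ev (a ω) (pt x) - Pool.JMN.ev (b T) (pt x))| ≤ 1 / 2 := by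
        rw [abs_mul, abs_of_pos (by positivity)]
        refine (mul_le_mul_of_nonneg_left f1 (by positivity)).trans (le_of_eq ?_)
        field_simp
      rw [hcc]
      simp only
      rw [abs_le] at f2
      constructor <;> linarith) (fun x hx u hu => by
      rw [Pool.JMN.ev_sub, hfat, hfat]
      obtain ⟨w, hw⟩ : ∃ w, w = Pool.JMN.ev (b T) (pt x) + 2 ^ m / 2 ^ n * (u - 1 / 2) := ⟨_, rfl⟩
      rw [← hw]
      have ept : (fun l => cn X s cap y ω l + sd X s cap l * x l) = pt x := by rw [hpt]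
      have f1 := hF x hx w
      rw [ept] at f1
      refine f1 ?_
      have f2 : w - Pool.JMN.ev (a ω) (pt x) = 2 ^ m / 2 ^ n * (u - c x) := by
        rw [hw, hcc]
        simp only
        field_simp
        ring
      rw [f2, abs_mul, abs_of_pos (by positivity)]
      refine (mul_le_mul_of_nonneg_left hu (by positivity)).trans ?_
      have f3 : (2 : ℝ) ^ m / 2 ^ n * (1 / 2 ^ m) = (2 : ℝ) ^ (-(n : ℝ)) := by
        rw [Real.rpow_neg (by norm_num), rp_nat]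
        field_simp
      rw [f3]
      exact rp_mono (by linarith)) al
  have f1 : ((1 : ℝ) / 2 ^ m) ^ (K' * (K + 1)) = 1 / 2 ^ (m * (K' * (K + 1))) := by
    rw [div_pow, one_pow, ← pow_mul]
  rw [f1, mul_one_div, div_le_iff₀ (by positivity)] at key
  refine key.trans (le_of_eq ?_)
  have f2 : (2 : ℝ) ^ (m * (K' * (K + 1))) = 2 ^ (K' * (K + 1) * h) *
      2 ^ (K' * (K + 1) * (2 * ((K + 1) ^ k + 4))) := by
    rw [← pow_add, hm]
    unfold mm
    congr 1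
    ring
  have f3 : (2 : ℝ) ^ ((K' * (K + 1) + 1 : ℕ) * (h : ℝ) - G) =
      2 ^ (K' * (K + 1) * h) * (2 : ℝ) ^ ((h : ℝ) - G) := by
    rw [← rp_nat (K' * (K + 1) * h), ← Real.rpow_add (by norm_num)]
    congr 1
    push_cast
    ring
  rw [f2, f3]
  ring

/-- **The rounded label of the box is almost known on the other side.** -/
theorem rfat_few (k K K' : ℕ) : ∃ C : ℝ, 0 ≤ C ∧
    ∀ {Ω α β τ δ ε : Type} [Fintype Ω] {q : Ω → ℝ} {r X S h s₀ : ℕ} {g : ℕ → ℝ}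
    {cap : Fin k → ℕ} {A : Ω → α} {B : Ω → β} {W : Ω → τ} {Dz : Ω → ε} {D : Ω → δ}
    {y : Ω → Fin k → ℝ} {v : Ω → ℝ} {a b : Ω → (Fin k → Fin (K + 1)) → ℝ} {E : ℕ} {th Lz : ℝ},
    Tb q k K r X S h s₀ g cap A B W Dz D y v a b E th Lz → ∀ {s : ℕ}, s₀ ≤ s → s ≤ S →
    ∀ (FA FB : Ω → (Fin (k + 1) → Fin (K' + 1)) → ℝ) (G : ℝ) (e : ℕ), (e : ℝ) ≤ G + 1 →
    Det q (fun ω => (A ω, (W ω, cs X s cap y ω))) FA →
    (∀ ω, 0 < q ω → ∀ x : Fin k → ℝ, (∀ l, 0 ≤ x l ∧ x l ≤ 1) → ∀ w : ℝ,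
      |w - Pool.JMN.ev (a ω) (fun l => cn X s cap y ω l + sd X s cap l * x l)| ≤
        (2 : ℝ) ^ (-(g s)) →
      |Pool.JMN.ev (FA ω) (Fin.snoc (α := fun _ => ℝ)
          (fun l => cn X s cap y ω l + sd X s cap l * x l) w) -
        Pool.JMN.ev (FB ω) (Fin.snoc (α := fun _ => ℝ)
          (fun l => cn X s cap y ω l + sd X s cap l * x l) w)| ≤ (2 : ℝ) ^ ((h : ℝ) - G)) →
    CH q (rfat q X s h cap W y b ⌈g s⌉₊ FB e) (fun ω => (A ω, (W ω, cs X s cap y ω))) ≤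
      C * (1 + h) := by
  obtain ⟨C, hC, hc⟩ := fat_near k K K'
  obtain ⟨C3, hC3, h3⟩ := rc_few k K
  obtain ⟨Q, hQ⟩ : ∃ Q : ℕ, Q = K' * (K + 1) + 1 := ⟨_, rfl⟩
  have hl : 0 ≤ Real.log (2 * (4 * C + 1) + 1) := Real.log_nonneg (by linarith)
  refine ⟨C3 + ((Q : ℝ)) ^ (k + 1) * ((1 + Real.log (2 * (4 * C + 1) + 1)) * (Q + 1)), by
    positivity, ?_⟩
  intro Ω α β τ δ ε _ q r X S h s₀ g cap A B W Dz D y v a b E th Lz H s hs0 hsS FA FB G e he hFA hF
  have h0 := H.law.nonneg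
  have hh : (0 : ℝ) ≤ h := Nat.cast_nonneg h
  obtain ⟨n, hn⟩ : ∃ n, n = ⌈g s⌉₊ := ⟨_, rfl⟩
  have e1 := CH_le_add h0 (rfat q X s h cap W y b n FB e) (rc X s cap y b n)
    (fun ω => (A ω, (W ω, cs X s cap y ω)))
  have e2 := h3 H hs0 hsS
  rw [← hn] at e2 ⊢
  have hdet : Det q (fun ω => (A ω, wp X s cap W y b n ω)) (fat q X s h cap W y b n FA) := by
    refine fat_det fun ω ω' hω hω' hh' => ?_
    unfold wp at hh'
    simp only [Prod.mk.injEq] at hh'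
    exact hFA ω ω' hω hω' (Prod.ext hh'.1 (Prod.ext hh'.2.2.1 hh'.2.2.2))
  have key : ∀ al, CH q (fun ω => rfat q X s h cap W y b n FB e ω al)
      (fun ω => (rc X s cap y b n ω, (A ω, (W ω, cs X s cap y ω)))) ≤
      (1 + Real.log (2 * (4 * C + 1) + 1)) * (Q + 1) * (1 + h) := by
    intro al
    refine (CH_bd1 H.law _ _ ((4 * C + 1) * 2 ^ (Q * h)) ?_).trans ?_
    · intro ω ω' hω hω' hh'
      simp only [Prod.mk.injEq] at hh'
      have g1 := hdet ω ω' hω hω' (by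
        unfold wp
        exact Prod.ext hh'.2.1 (Prod.ext hh'.1 (Prod.ext hh'.2.2.1 hh'.2.2.2)))
      have g2 := hc H hs0 hsS FA FB G ω hω (hF ω hω) al
      have g3 := hc H hs0 hsS FA FB G ω' hω' (hF ω' hω') al
      rw [← hn] at g2 g3
      rw [← g1] at g3
      rw [← hQ] at g2 g3
      have g4 : (2 : ℝ) ^ e * (C * (2 : ℝ) ^ ((Q : ℝ) * h - G)) ≤ 2 * C * 2 ^ (Q * h) := by
        have q1 : (2 : ℝ) ^ e * (2 : ℝ) ^ ((Q : ℝ) * h - G) ≤ 2 * 2 ^ (Q * h) := by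
          rw [← rp_nat, ← Real.rpow_add (by norm_num)]
          have q2 : (2 : ℝ) * 2 ^ (Q * h) = (2 : ℝ) ^ ((Q : ℝ) * h + 1) := by
            rw [Real.rpow_add (by norm_num), Real.rpow_one, ← rp_nat (Q * h)]
            push_cast
            ring
          rw [q2]
          exact rp_mono (by linarith)
        calc (2 : ℝ) ^ e * (C * (2 : ℝ) ^ ((Q : ℝ) * h - G)) =
            C * ((2 : ℝ) ^ e * (2 : ℝ) ^ ((Q : ℝ) * h - G)) := by ring
          _ ≤ C * (2 * 2 ^ (Q * h)) := mul_le_mul_of_nonneg_left q1 (by linarith)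
          _ = _ := by ring
      obtain ⟨P, hP⟩ : ∃ P : ℝ, P = 2 ^ e := ⟨_, rfl⟩
      have hP0 : 0 < P := by rw [hP]; positivity
      obtain ⟨fb, hfb⟩ : ∃ fb, fb = fat q X s h cap W y b n FB ω al := ⟨_, rfl⟩
      obtain ⟨fb', hfb'⟩ : ∃ fb, fb = fat q X s h cap W y b n FB ω' al := ⟨_, rfl⟩
      obtain ⟨fa, hfa⟩ : ∃ fa, fa = fat q X s h cap W y b n FA ω al := ⟨_, rfl⟩
      rw [← hfb, ← hfa] at g2
      rw [← hfb', ← hfa] at g3
      have g6 : |P * fb - P * fb'| ≤ 4 * C * 2 ^ (Q * h) := by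
        have q1 := mul_le_mul_of_nonneg_left g2 hP0.le
        have q2 := mul_le_mul_of_nonneg_left g3 hP0.le
        rw [← hP] at g4
        rw [← abs_of_pos hP0, ← abs_mul, abs_of_pos hP0] at q1 q2
        have q3 : P * fb - P * fb' = P * (fa - fb') - P * (fa - fb) := by ring
        rw [q3]
        refine (abs_sub _ _).trans ?_
        linarith
      have g7 := fl_sub_near (P * fb) (P * fb')
      unfold rfat
      rw [← hfb, ← hfb', ← hP]
      push_cast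
      have g8 : (1 : ℝ) ≤ 2 ^ (Q * h) := one_le_pow₀ (by norm_num)
      rw [abs_le] at g6 g7 ⊢
      constructor <;> nlinarith
    · refine (log_bd (by linarith) (Q * h)).trans ?_
      have q1 : ((Q * h : ℕ) : ℝ) + 1 ≤ (Q + 1) * (1 + h) := by
        push_cast
        have : (0 : ℝ) ≤ Q := Nat.cast_nonneg Q
        nlinarith
      rw [mul_assoc]
      exact mul_le_mul_of_nonneg_left q1 (by positivity)
  have e3 := CH_pi h0 (rfat q X s h cap W y b n FB e)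
    (fun ω => (rc X s cap y b n ω, (A ω, (W ω, cs X s cap y ω))))
  have e4 := Finset.sum_le_sum fun al (_ : al ∈ (Finset.univ :
    Finset (Fin (k + 1) → Fin (K' * (K + 1) + 1)))) => key al
  have e5 : ∑ _al : Fin (k + 1) → Fin (K' * (K + 1) + 1),
      (1 + Real.log (2 * (4 * C + 1) + 1)) * (Q + 1) * (1 + h) =
      (Q : ℝ) ^ (k + 1) * ((1 + Real.log (2 * (4 * C + 1) + 1)) * (Q + 1)) * (1 + h) := by
    rw [Finset.sum_const, Finset.card_univ, Fintype.card_fun, Fintype.card_fin, Fintype.card_fin,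
      nsmul_eq_mul, ← hQ]
    push_cast
    ring
  rw [e5] at e4
  have e6 := e3.trans e4
  have e7 : (C3 + (Q : ℝ) ^ (k + 1) * ((1 + Real.log (2 * (4 * C + 1) + 1)) * (Q + 1))) *
    (1 + (h : ℝ)) = C3 * (1 + h) +
    (Q : ℝ) ^ (k + 1) * ((1 + Real.log (2 * (4 * C + 1) + 1)) * (Q + 1)) * (1 + h) := by ring
  rw [e7]
  linarith only [e1, e2, e6]

/-- The rounded label is a function of the own side. -/
theorem rfat_det {Ω β τ : Type} {q : Ω → ℝ} {k K K' X s h n e : ℕ} {cap : Fin k → ℕ} {B : Ω → β}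
    {W : Ω → τ} {y : Ω → Fin k → ℝ} {b : Ω → (Fin k → Fin (K + 1)) → ℝ}
    {FB : Ω → (Fin (k + 1) → Fin (K' + 1)) → ℝ} (hb : Det q (fun ω => (B ω, W ω)) b)
    (hF : Det q (fun ω => (B ω, (W ω, cs X s cap y ω))) FB) :
    Det q (fun ω => (B ω, (W ω, cs X s cap y ω))) (rfat q X s h cap W y b n FB e) := by
  intro ω ω' hω hω' hh
  have e0 := hF ω ω' hω hω' hh
  simp only [Prod.mk.injEq] at hh
  have e1 := hb ω ω' hω hω' (Prod.ext hh.1 hh.2.1)
  have e2 : cn X s cap y ω = cn X s cap y ω' := by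
    unfold cn
    rw [hh.2.2]
  have e3 : wp X s cap W y b n ω = wp X s cap W y b n ω' := by
    unfold wp
    refine Prod.ext ?_ (Prod.ext hh.2.1 hh.2.2)
    funext α
    unfold rc ac
    rw [e1, e2]
  have e4 := rep_eq (V := wp X s cap W y b n) hω e3
  unfold rfat fat shl
  rw [e0, e2, e4]

/-- **Fullness in the box given one side.** -/
theorem fat_side (k K : ℕ) : ∃ C2 : ℝ, 0 ≤ C2 ∧
    ∀ {Ω α β τ δ ε : Type} [Fintype Ω] {q : Ω → ℝ} {r X S h s₀ : ℕ} {g : ℕ → ℝ}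
    {cap : Fin k → ℕ} {A : Ω → α} {B : Ω → β} {W : Ω → τ} {Dz : Ω → ε} {D : Ω → δ}
    {y : Ω → Fin k → ℝ} {v : Ω → ℝ} {a b : Ω → (Fin k → Fin (K + 1)) → ℝ} {E : ℕ} {th Lz : ℝ},
    Tb q k K r X S h s₀ g cap A B W Dz D y v a b E th Lz → ∀ {s : ℕ}, s₀ ≤ s → s ≤ S →
    Lp X s g cap E Lz - ((g S - g s) * Real.log 2 + th + C2 * (1 + h)) ≤
      CH q D (fun ω => (A ω, wp X s cap W y b ⌈g s⌉₊ ω)) ∧
    Lp X s g cap E Lz - ((g S - g s) * Real.log 2 + th) ≤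
      CH q D (fun ω => (B ω, wp X s cap W y b ⌈g s⌉₊ ω)) := by
  obtain ⟨C3, hC3, h3⟩ := rc_few k K
  refine ⟨C3, hC3, ?_⟩
  intro Ω α β τ δ ε _ q r X S h s₀ g cap A B W Dz D y v a b E th Lz H s hs0 hsS
  have h0 := H.law.nonneg
  have e0 := h3 H hs0 hsS
  obtain ⟨R, hR⟩ : ∃ R, R = rc X s cap y b ⌈g s⌉₊ := ⟨_, rfl⟩
  obtain ⟨c, hc⟩ : ∃ c, c = cs X s cap y := ⟨_, rfl⟩
  have hRb : Det q (fun ω => (B ω, (W ω, c ω))) R := by
    intro ω ω' hω hω' hh'
    simp only [Prod.mk.injEq] at hh'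
    have e1 := H.db ω ω' hω hω' (Prod.ext hh'.1 hh'.2.1)
    have e2 := hh'.2.2
    rw [hc] at e2
    rw [hR]
    funext α
    unfold rc ac cn
    rw [e1, e2]
  have key : ∀ {γ : Type} {C : Ω → γ} {x : ℝ},
      CH q R (fun ω => (C ω, (W ω, c ω))) ≤ x →
      Lz + ((E : ℝ) - g S) * Real.log 2 - th ≤ CH q D (fun ω => (C ω, W ω)) →
      Lp X s g cap E Lz - ((g S - g s) * Real.log 2 + th + x) ≤
        CH q D (fun ω => (C ω, (R ω, (W ω, c ω)))) := by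
    intro γ C x hx hC
    have e1 := CH_le_add h0 D c (fun ω => (C ω, W ω))
    have e2 : CH q c (fun ω => (C ω, W ω)) ≤ (∑ l, (ds s cap l : ℝ)) * (X * Real.log 2) := by
      rw [hc]
      exact ch_cv H.law X y H.y0 H.y1 (ds s cap) _
    have e3 := CH_le_add h0 D R (fun ω => (c ω, (C ω, W ω)))
    have e4 : CH q R (fun ω => (c ω, (C ω, W ω))) ≤ x := by
      refine le_trans (CH_mono_cond h0 fun ω ω' _ _ hh => ?_) hx
      simp only [Prod.mk.injEq] at hh ⊢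
      exact ⟨hh.2.1, hh.2.2, hh.1⟩
    have e5 : CH q D (fun ω => (R ω, (c ω, (C ω, W ω)))) ≤
        CH q D (fun ω => (C ω, (R ω, (W ω, c ω)))) := by
      refine CH_mono_cond h0 fun ω ω' _ _ hh => ?_
      simp only [Prod.mk.injEq] at hh ⊢
      exact ⟨hh.2.2.1, hh.1, hh.2.2.2, hh.2.1⟩
    unfold Lp
    have e6 : (g S - g s) * Real.log 2 = g S * Real.log 2 - g s * Real.log 2 := by ring
    have e7 : ((E : ℝ) - g S) * Real.log 2 = E * Real.log 2 - g S * Real.log 2 := by ring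
    have e8 : ((E : ℝ) - g s) * Real.log 2 = E * Real.log 2 - g s * Real.log 2 := by ring
    rw [e6, e8]
    rw [e7] at hC
    linarith only [e1, e2, e3, e4, e5, hC]
  rw [← hR, ← hc] at e0
  have k1 := key e0 H.fa
  have k2 := key (le_of_eq (CH_eq_zero h0 hRb)) H.fb
  rw [hR, hc] at k1 k2
  refine ⟨k1, ?_⟩
  rw [add_zero] at k2
  exact k2

end Pool.R2
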