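import Pool.Agent.H99.JM.MK

/-!
# Multilinear Kakeya in entropy form, between two scales

`mk_at`: the statement of `Pool.MKE.mk` for the digits between `R` and `L`, given the first `R`
digits of the point. `mkd`: the same with flats given by a basis with a large determinant.
-/

set_option autoImplicit false

namespace Pool.MKV

open Finset Real
open Pool.Agent.H49.Ent Pool.Agent.H32.Dense Pool.STK Pool.MKE

variable {Ω S T U κ : Type} {c r : ℕ}

/-- The point in its cube of the scale `R`. -/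
noncomputable def frc (R : ℕ) (x : Ω → Fin c → ℝ) (ω : Ω) (j : Fin c) : ℝ :=
  2 ^ R * x ω j - (fl R (x ω) j : ℝ)

theorem frc_abs (R : ℕ) (x : Ω → Fin c → ℝ) (ω : Ω) (j : Fin c) : |frc R x ω j| ≤ 1 := by
  unfold frc
  have h1 := Int.floor_le ((2 : ℝ) ^ R * x ω j)
  have h2 := Int.lt_floor_add_one ((2 : ℝ) ^ R * x ω j)
  change |(2 : ℝ) ^ R * x ω j - (⌊(2 : ℝ) ^ R * x ω j⌋ : ℝ)| ≤ 1
  rw [abs_le]
  constructor <;> linarith

theorem fl_frc {R m : ℕ} (x : Ω → Fin c → ℝ) (ω : Ω) (j : Fin c) :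
    fl m (frc R x ω) j = fl (R + m) (x ω) j - 2 ^ m * fl R (x ω) j := by
  change ⌊(2 : ℝ) ^ m * (2 ^ R * x ω j - (fl R (x ω) j : ℝ))⌋ = ⌊(2 : ℝ) ^ (R + m) * x ω j⌋ - _
  have h1 : (2 : ℝ) ^ m * (2 ^ R * x ω j - (fl R (x ω) j : ℝ)) =
      2 ^ (R + m) * x ω j - (((2 : ℤ) ^ m * fl R (x ω) j : ℤ) : ℝ) := by
    push_cast
    rw [pow_add]
    ring
  rw [h1, Int.floor_sub_intCast]

variable [Fintype Ω]

/-- The digits between two scales. -/
theorem ch_frc {p : Ω → ℝ} (hp : IsLaw p) {R m : ℕ} (x : Ω → Fin c → ℝ) (V : Ω → T) :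
    CH p (fun ω => fl m (frc R x ω)) (fun ω => (fl R (x ω), V ω)) =
      CH p (fun ω => fl (R + m) (x ω)) (fun ω => (fl R (x ω), V ω)) := by
  refine CH_congr hp.nonneg ?_ ?_ (fun _ _ _ _ h => h) (fun _ _ _ _ h => h)
  · intro ω ω' _ _ hh
    simp only [Prod.mk.injEq] at hh
    obtain ⟨h1, h2, h3⟩ := hh
    refine funext fun j => ?_
    have h4 := congrFun h1 j
    rw [fl_frc, fl_frc, h2] at h4
    exact sub_left_inj.1 h4
  · intro ω ω' _ _ hh
    simp only [Prod.mk.injEq] at hh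
    obtain ⟨h1, h2, h3⟩ := hh
    refine funext fun j => ?_
    change fl m (frc R x ω) j = fl m (frc R x ω') j
    rw [fl_frc, fl_frc, h1, h2]

/-- **Multilinear Kakeya in entropy form, between two scales.** -/
theorem mk_at {p : Ω → ℝ} (hp : IsLaw p) {x : Ω → Fin c → ℝ} {e d : Ω → Fin c → Fin c → ℝ}
    {K B : ℝ} {R L m b : ℕ} (hR : L = R + m * b) (hB : 0 ≤ B)
    (hinv : ∀ ω, 0 < p ω → ∀ (v : Fin c → ℝ) (j : Fin c),
      v j = ∑ i, d ω i j * ∑ k, e ω i k * v k)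
    (hd : ∀ ω, 0 < p ω → ∀ i j, |d ω i j| ≤ 1) (he : ∀ ω, 0 < p ω → ∀ i j, |e ω i j| ≤ K)
    (g : Fin c → Fin r) {Λ : Fin r → Type} (Lam : ∀ a, Ω → Λ a) (W : Ω → κ)
    (hl : ∀ a ω ω', 0 < p ω → 0 < p ω' → fl R (x ω) = fl R (x ω') → Lam a ω = Lam a ω' →
      W ω = W ω' → ∀ k, g k ≠ a → |∑ j, e ω k j * (x ω j - x ω' j)| ≤ B / 2 ^ L) :
    ∑ a, CH p (fun ω => fl L (x ω)) (fun ω => (fl R (x ω), (Lam a ω, W ω))) ≤
      CH p (fun ω => fl L (x ω)) (fun ω => (fl R (x ω), W ω)) +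
        (b * loss c r K B + r * ini c K m) := by
  have hp0 := hp.nonneg
  have key := mk (x := frc R x) (R := m * b) hp rfl hB (fun ω _ j => frc_abs R x ω j) hinv hd he g
    Lam (fun ω => (fl R (x ω), W ω)) (by
      intro a ω ω' hω hω' h1 h2 k hk
      simp only [Prod.mk.injEq] at h2
      have h3 := hl a ω ω' hω hω' h2.1 h1 h2.2 k hk
      have h4 : ∑ j, e ω k j * (frc R x ω j - frc R x ω' j) =
          2 ^ R * ∑ j, e ω k j * (x ω j - x ω' j) := by
        rw [Finset.mul_sum]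
        refine Finset.sum_congr rfl fun j _ => ?_
        unfold frc
        rw [h2.1]
        ring
      rw [h4, abs_mul, abs_of_pos (by positivity)]
      refine (mul_le_mul_of_nonneg_left h3 (by positivity)).trans (le_of_eq ?_)
      rw [hR, pow_add]
      field_simp)
  rw [hR]
  have e1 : ∀ a, CH p (fun ω => fl (m * b) (frc R x ω)) (fun ω => (Lam a ω, (fl R (x ω), W ω))) =
      CH p (fun ω => fl (R + m * b) (x ω)) (fun ω => (fl R (x ω), (Lam a ω, W ω))) := by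
    intro a
    rw [← ch_frc hp]
    refine CH_congr hp0 (fun _ _ _ _ h => (Prod.ext_iff.1 h).1)
      (fun _ _ _ _ h => (Prod.ext_iff.1 h).1) ?_ ?_
    · intro ω ω' _ _ hh
      simp only [Prod.mk.injEq] at hh ⊢
      tauto
    · intro ω ω' _ _ hh
      simp only [Prod.mk.injEq] at hh ⊢
      tauto
  rw [ch_frc hp, Finset.sum_congr rfl fun a _ => e1 a] at key
  exact key

omit [Fintype Ω] in
/-- The dual basis of covectors. -/
theorem dual (D : Matrix (Fin c) (Fin c) ℝ) {δ : ℝ} (hδ : 0 < δ) (hD : ∀ i j, |D i j| ≤ 1)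
    (hdet : δ ≤ |D.det|) :
    (∀ i j, |(D.transpose)⁻¹ i j| ≤ (c.factorial : ℝ) / δ) ∧
    (∀ (v : Fin c → ℝ) (j : Fin c), v j = ∑ i, D i j * ∑ k, (D.transpose)⁻¹ i k * v k) ∧
    (∀ k i, ∑ j, (D.transpose)⁻¹ k j * D i j = if k = i then 1 else 0) := by
  have h0 : D.transpose.det = D.det := Matrix.det_transpose D
  have hne : D.det ≠ 0 := fun h => by
    rw [h, abs_zero] at hdet
    linarith
  have hu : IsUnit D.transpose.det := by
    rw [h0]
    exact isUnit_iff_ne_zero.2 hne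
  have h1 : D.transpose * (D.transpose)⁻¹ = 1 := Matrix.mul_nonsing_inv _ hu
  have h2 : (D.transpose)⁻¹ * D.transpose = 1 := Matrix.nonsing_inv_mul _ hu
  refine ⟨?_, ?_, ?_⟩
  · intro i j
    rw [Matrix.inv_def, Matrix.smul_apply, smul_eq_mul, Matrix.adjugate_apply, abs_mul, h0]
    have h3 : |(Matrix.updateRow D.transpose j (Pi.single i 1)).det| ≤ c.factorial := by
      have h4 := Matrix.det_le (A := Matrix.updateRow D.transpose j (Pi.single i 1))
        (abv := AbsoluteValue.abs) (x := (1 : ℝ)) (by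
          intro a b
          change |Matrix.updateRow D.transpose j (Pi.single i 1) a b| ≤ 1
          by_cases ha : a = j
          · subst ha
            rw [Matrix.updateRow_self]
            by_cases hb : b = i
            · subst hb
              rw [Pi.single_eq_same, abs_one]
            · rw [Pi.single_eq_of_ne hb, abs_zero]
              exact zero_le_one
          · rw [Matrix.updateRow_ne ha]
            exact hD b a)
      rw [one_pow, Fintype.card_fin, nsmul_eq_mul, mul_one] at h4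
      exact h4
    have h5 : |Ring.inverse D.det| ≤ 1 / δ := by
      rw [Ring.inverse_eq_inv', abs_inv, ← one_div]
      exact one_div_le_one_div_of_le hδ hdet
    calc |Ring.inverse D.det| * |(Matrix.updateRow D.transpose j (Pi.single i 1)).det| ≤
        1 / δ * c.factorial := mul_le_mul h5 h3 (abs_nonneg _) (by positivity)
      _ = _ := by ring
  · intro v j
    have h3 : D.transpose.mulVec ((D.transpose)⁻¹.mulVec v) = v := by
      rw [Matrix.mulVec_mulVec, h1, Matrix.one_mulVec]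
    have h4 := congrFun h3 j
    rw [← h4]
    rfl
  · intro k i
    have h3 := congrFun (congrFun h2 k) i
    rw [Matrix.mul_apply, Matrix.one_apply] at h3
    exact h3

/-! ### The constants -/

theorem loss_le (c r : ℕ) : ∃ C : ℝ, 0 ≤ C ∧ ∀ {Kd B₀ : ℝ}, 1 ≤ Kd → 1 ≤ B₀ →
    loss c r (c.factorial * Kd) (c * (c.factorial * Kd) * B₀) ≤
      C * (1 + Real.log Kd + Real.log B₀) := by
  obtain ⟨f, hf⟩ : ∃ f : ℝ, f = c.factorial := ⟨_, rfl⟩
  have hf0 : 0 ≤ f := by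
    rw [hf]
    positivity
  have hc0 : (0 : ℝ) ≤ c := Nat.cast_nonneg c
  have hr0 : (0 : ℝ) ≤ r := Nat.cast_nonneg r
  obtain ⟨A1, hA1⟩ : ∃ A, A = 2 * (c * (f + 1) + 1) + 1 := ⟨_, rfl⟩
  obtain ⟨A2, hA2⟩ : ∃ A : ℝ, A = 2 * (c * (c + 1) + 1) + 1 := ⟨_, rfl⟩
  obtain ⟨A3, hA3⟩ : ∃ A, A = 2 * (c * f + c + 1) + 1 := ⟨_, rfl⟩
  have h1 : 1 ≤ A1 := by
    have : 0 ≤ c * (f + 1) := by positivity
    linarith
  have h2 : 1 ≤ A2 := by
    have : (0 : ℝ) ≤ c * (c + 1) := by positivity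
    linarith
  have h3 : 1 ≤ A3 := by
    have : 0 ≤ c * f := by positivity
    linarith
  have l1 := Real.log_nonneg h1
  have l2 := Real.log_nonneg h2
  have l3 := Real.log_nonneg h3
  refine ⟨c * (Real.log A1 + 1) + r * (c * Real.log A2 + c * (Real.log A3 + 1)), by positivity, ?_⟩
  intro Kd B₀ hK hB
  have lK := Real.log_nonneg hK
  have lB := Real.log_nonneg hB
  have hK0 : 0 < Kd := by linarith
  have hB0 : 0 < B₀ := by linarith
  have g1 : Real.log (2 * (c * (f * Kd + 1) + 1) + 1) ≤ Real.log A1 + Real.log Kd := by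
    rw [← Real.log_mul (by linarith) (by linarith)]
    refine Real.log_le_log (by positivity) ?_
    rw [hA1]
    nlinarith
  have g3 : Real.log (2 * (c * (f * Kd) * B₀ + c + 1) + 1) ≤
      Real.log A3 + Real.log Kd + Real.log B₀ := by
    rw [← Real.log_mul (by linarith) (by linarith), ← Real.log_mul (by positivity) (by linarith)]
    refine Real.log_le_log (by positivity) ?_
    rw [hA3]
    have h5 : 1 ≤ Kd * B₀ := one_le_mul_of_one_le_of_one_le hK hB
    have e1 : (2 * (c * f + c + 1) + 1) * Kd * B₀ = 2 * (c * (f * Kd) * B₀) +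
      (2 * c + 3) * (Kd * B₀) := by ring
    rw [e1]
    nlinarith
  unfold loss
  rw [← hf, ← hA2]
  have e1 : ((c : ℝ) * (Real.log A1 + 1) + r * (c * Real.log A2 + c * (Real.log A3 + 1))) *
      (1 + Real.log Kd + Real.log B₀) = c * ((Real.log A1 + 1) * (1 + Real.log Kd + Real.log B₀)) +
      r * (c * (Real.log A2 * (1 + Real.log Kd + Real.log B₀)) +
        c * ((Real.log A3 + 1) * (1 + Real.log Kd + Real.log B₀))) := by ring
  rw [e1]
  refine add_le_add (mul_le_mul_of_nonneg_left (g1.trans (by nlinarith)) hc0)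
    (mul_le_mul_of_nonneg_left (add_le_add (mul_le_mul_of_nonneg_left (by nlinarith) hc0)
      (mul_le_mul_of_nonneg_left (g3.trans (by nlinarith)) hc0)) hr0)

theorem ini_le' (c : ℕ) : ∃ C : ℝ, 0 ≤ C ∧ ∀ {Kd : ℝ} {m : ℕ}, 1 ≤ Kd →
    ini c (c.factorial * Kd) m ≤ C * (1 + Real.log Kd + m) := by
  obtain ⟨f, hf⟩ : ∃ f : ℝ, f = c.factorial := ⟨_, rfl⟩
  have hf0 : 0 ≤ f := by
    rw [hf]
    positivity
  have hc0 : (0 : ℝ) ≤ c := Nat.cast_nonneg c
  obtain ⟨A1, hA1⟩ : ∃ A, A = 4 * f + 3 := ⟨_, rfl⟩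
  have h1 : 1 ≤ A1 := by linarith
  have l1 := Real.log_nonneg h1
  have l7 : 0 ≤ Real.log 7 := Real.log_nonneg (by norm_num)
  refine ⟨c * Real.log 7 + c * c * (Real.log A1 + 1), by positivity, ?_⟩
  intro Kd m hK
  have lK := Real.log_nonneg hK
  have hK0 : 0 < Kd := by linarith
  have hm0 : (0 : ℝ) ≤ m := Nat.cast_nonneg m
  have hl21 : Real.log 2 ≤ 1 := by
    have := Real.log_two_lt_d9
    linarith
  have hP : (1 : ℝ) ≤ 2 ^ m := one_le_pow₀ (by norm_num)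
  have g1 : Real.log (2 * (2 ^ m * (2 * (f * Kd)) + 1) + 1) ≤
      Real.log A1 + Real.log Kd + m := by
    have h5 : Real.log A1 + Real.log Kd + m * Real.log 2 = Real.log (A1 * Kd * 2 ^ m) := by
      rw [Real.log_mul (mul_pos (by linarith) hK0).ne' (by positivity),
        Real.log_mul (by linarith) (by linarith), Real.log_pow]
    have h6 : Real.log (2 * (2 ^ m * (2 * (f * Kd)) + 1) + 1) ≤ Real.log (A1 * Kd * 2 ^ m) := by
      refine Real.log_le_log (by positivity) ?_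
      rw [hA1]
      have h7 : 1 ≤ Kd * 2 ^ m := one_le_mul_of_one_le_of_one_le hK hP
      nlinarith
    have h7 : m * Real.log 2 ≤ m * 1 := mul_le_mul_of_nonneg_left hl21 hm0
    linarith
  unfold ini
  rw [← hf]
  push_cast
  have e1 : ((c : ℝ) * Real.log 7 + c * c * (Real.log A1 + 1)) * (1 + Real.log Kd + m) =
      c * (Real.log 7 * (1 + Real.log Kd + m)) + c * c * ((Real.log A1 + 1) *
        (1 + Real.log Kd + m)) := by ring
  rw [e1]
  refine add_le_add (mul_le_mul_of_nonneg_left (by nlinarith) hc0)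
    (mul_le_mul_of_nonneg_left (g1.trans (by nlinarith)) (by positivity))

/-- Few digits. -/
theorem ch_tail {p : Ω → ℝ} (hp : IsLaw p) (x : Ω → Fin c → ℝ) (V : Ω → T) {L₁ L m : ℕ}
    (h2 : L ≤ L₁ + m) :
    CH p (fun ω => fl L (x ω)) V ≤ CH p (fun ω => fl L₁ (x ω)) V + c * (m + 2) := by
  have hp0 := hp.nonneg
  have e1 := CH_le_add hp0 (fun ω => fl L (x ω)) (fun ω => fl L₁ (x ω)) V
  have e2 : CH p (fun ω => fl L (x ω)) (fun ω => (fl L₁ (x ω), V ω)) ≤
      c * Real.log (2 * (2 ^ m + 1) + 1) := by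
    refine CH_vecc hp _ _ fun ω ω' _ _ hh k => ?_
    simp only [Prod.mk.injEq] at hh
    refine floor_two ?_
    have h3 : |x ω k - x ω' k| ≤ 1 / 2 ^ L₁ := by
      rw [le_div_iff₀ (by positivity), mul_comm]
      exact fl_same hh.1 k
    have h4 : (2 : ℝ) ^ L * x ω k - 2 ^ L * x ω' k = 2 ^ L * (x ω k - x ω' k) := by ring
    rw [h4, abs_mul, abs_of_pos (by positivity)]
    refine (mul_le_mul_of_nonneg_left h3 (by positivity)).trans ?_
    rw [mul_one_div, div_le_iff₀ (by positivity), ← pow_add]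
    exact pow_le_pow_right₀ (by norm_num) (by omega)
  have e3 : Real.log (2 * ((2 : ℝ) ^ m + 1) + 1) ≤ m + 2 := by
    have hP : (1 : ℝ) ≤ 2 ^ m := one_le_pow₀ (by norm_num)
    have h3 : Real.log (2 * ((2 : ℝ) ^ m + 1) + 1) ≤ Real.log (2 ^ m * 5) :=
      Real.log_le_log (by positivity) (by linarith)
    rw [Real.log_mul (by positivity) (by norm_num), Real.log_pow] at h3
    have h4 : Real.log 5 ≤ 2 := by
      have h5 : Real.log 5 ≤ Real.log (Real.exp 2) := by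
        refine Real.log_le_log (by norm_num) ?_
        have h2 := Real.exp_one_gt_d9
        have h3 : Real.exp 2 = Real.exp 1 * Real.exp 1 := by
          rw [← Real.exp_add]
          norm_num
        rw [h3]
        nlinarith
      rwa [Real.log_exp] at h5
    have h5 : (m : ℝ) * Real.log 2 ≤ m * 1 := by
      refine mul_le_mul_of_nonneg_left ?_ (Nat.cast_nonneg m)
      have := Real.log_two_lt_d9
      linarith
    linarith
  have e4 : (c : ℝ) * Real.log (2 * (2 ^ m + 1) + 1) ≤ c * (m + 2) :=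
    mul_le_mul_of_nonneg_left e3 (Nat.cast_nonneg c)
  linarith

/-- **Multilinear Kakeya in entropy form, between two scales, flats given by a basis.** -/
theorem mkd_m (c r : ℕ) : ∃ C : ℝ, 0 ≤ C ∧ ∀ {Ω κ : Type} [Fintype Ω] {p : Ω → ℝ}, IsLaw p →
    ∀ {x : Ω → Fin c → ℝ} {d : Ω → Fin c → Fin c → ℝ} {Kd B₀ : ℝ} {R L m : ℕ}, 1 ≤ Kd → 1 ≤ B₀ →
    1 ≤ m → R ≤ L → (∀ ω, 0 < p ω → ∀ i j, |d ω i j| ≤ 1) →
    (∀ ω, 0 < p ω → 1 / Kd ≤ |(Matrix.of (d ω)).det|) →
    ∀ (g : Fin c → Fin r) {Λ : Fin r → Type} (Lam : ∀ a, Ω → Λ a) (W : Ω → κ),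
    (∀ a ω ω', 0 < p ω → 0 < p ω' → fl R (x ω) = fl R (x ω') → Lam a ω = Lam a ω' →
      W ω = W ω' → ∃ t : Fin c → ℝ, (∀ i, g i ≠ a → t i = 0) ∧
        ∀ j, |x ω j - x ω' j - ∑ i, t i * d ω i j| ≤ B₀ / 2 ^ L) →
    ∑ a, CH p (fun ω => fl L (x ω)) (fun ω => (fl R (x ω), (Lam a ω, W ω))) ≤
      CH p (fun ω => fl L (x ω)) (fun ω => (fl R (x ω), W ω)) +
        C * (((((L - R) / m : ℕ) : ℝ) + 1) * (1 + Real.log Kd + Real.log B₀) + m) := by
  obtain ⟨C1, hC1, h1⟩ := loss_le c r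
  obtain ⟨C2, hC2, h2⟩ := ini_le' c
  refine ⟨C1 + r * C2 + r * (3 * c), by positivity, ?_⟩
  intro Ω κ _ p hp x d Kd B₀ R L m hK hB hm hRL hd hdet g Λ Lam W hl
  have hp0 := hp.nonneg
  have hK0 : 0 < Kd := by linarith
  obtain ⟨b, hb⟩ : ∃ b, b = (L - R) / m := ⟨_, rfl⟩
  obtain ⟨L₁, hL₁⟩ : ∃ L₁, L₁ = R + m * b := ⟨_, rfl⟩
  have hmb : m * b ≤ L - R := by
    rw [hb]
    exact Nat.mul_div_le _ _
  have hL1 : L₁ ≤ L := by omega
  have hL2 : L ≤ L₁ + m := by
    have e1 := Nat.lt_mul_div_succ (L - R) (show 0 < m by omega)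
    rw [← hb] at e1
    have e2 : m * (b + 1) = m * b + m := by ring
    omega
  obtain ⟨f, hf⟩ : ∃ f : ℝ, f = c.factorial := ⟨_, rfl⟩
  have hf1 : 0 ≤ f := by
    rw [hf]
    positivity
  have hdual : ∀ ω, 0 < p ω →
    (∀ i j, |((Matrix.of (d ω)).transpose)⁻¹ i j| ≤ (c.factorial : ℝ) / (1 / Kd)) ∧
    (∀ (v : Fin c → ℝ) (j : Fin c), v j = ∑ i, (Matrix.of (d ω)) i j *
      ∑ k, ((Matrix.of (d ω)).transpose)⁻¹ i k * v k) ∧
    (∀ k i, ∑ j, ((Matrix.of (d ω)).transpose)⁻¹ k j * (Matrix.of (d ω)) i j =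
      if k = i then 1 else 0) := fun ω hω =>
    dual (Matrix.of (d ω)) (by positivity) (hd ω hω) (hdet ω hω)
  obtain ⟨e, he⟩ : ∃ e : Ω → Fin c → Fin c → ℝ,
    e = fun ω i j => ((Matrix.of (d ω)).transpose)⁻¹ i j := ⟨_, rfl⟩
  have heK : ∀ ω, 0 < p ω → ∀ i j, |e ω i j| ≤ f * Kd := by
    intro ω hω i j
    have e1 := (hdual ω hω).1 i j
    rw [he, hf]
    refine e1.trans (le_of_eq ?_)
    rw [div_div_eq_mul_div, div_one]
  have key := mk_at (e := e) (d := d) (K := f * Kd) (B := c * (f * Kd) * B₀) (L := L₁) (R := R)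
    (m := m) (b := b) hp hL₁ (by positivity)
    (fun ω hω v j => by
      rw [he]
      exact (hdual ω hω).2.1 v j) hd heK g Lam W (by
    intro a ω ω' hω hω' g1 g2 g3 k hk
    obtain ⟨t, ht1, ht2⟩ := hl a ω ω' hω hω' g1 g2 g3
    have q1 : ∑ j, e ω k j * ∑ i, t i * d ω i j = t k := by
      have q2 : ∑ j, e ω k j * ∑ i, t i * d ω i j = ∑ i, t i * ∑ j, e ω k j * d ω i j := by
        simp only [Finset.mul_sum]
        rw [Finset.sum_comm]
        refine Finset.sum_congr rfl fun i _ => Finset.sum_congr rfl fun j _ => ?_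
        ring
      rw [q2]
      have q3 : ∀ i, ∑ j, e ω k j * d ω i j = if k = i then 1 else 0 := by
        intro i
        rw [he]
        exact (hdual ω hω).2.2 k i
      rw [Finset.sum_congr rfl fun i _ => by rw [q3 i]]
      rw [Finset.sum_eq_single k]
      · rw [if_pos rfl, mul_one]
      · intro i _ hi
        rw [if_neg (fun h => hi h.symm), mul_zero]
      · intro h
        exact absurd (Finset.mem_univ k) h
    rw [ht1 k hk] at q1
    have q4 : ∑ j, e ω k j * (x ω j - x ω' j) =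
        ∑ j, e ω k j * (x ω j - x ω' j - ∑ i, t i * d ω i j) := by
      have q5 : ∑ j, e ω k j * (x ω j - x ω' j - ∑ i, t i * d ω i j) =
          ∑ j, e ω k j * (x ω j - x ω' j) - ∑ j, e ω k j * ∑ i, t i * d ω i j := by
        rw [← Finset.sum_sub_distrib]
        refine Finset.sum_congr rfl fun j _ => ?_
        ring
      rw [q5, q1, sub_zero]
    rw [q4]
    refine (Finset.abs_sum_le_sum_abs _ _).trans ?_
    have q6 : ∀ j, |e ω k j * (x ω j - x ω' j - ∑ i, t i * d ω i j)| ≤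
        f * Kd * (B₀ / 2 ^ L₁) := by
      intro j
      rw [abs_mul]
      refine mul_le_mul (heK ω hω k j) ((ht2 j).trans ?_) (abs_nonneg _) (by positivity)
      exact div_le_div_of_nonneg_left (by linarith) (by positivity)
        (pow_le_pow_right₀ (by norm_num) hL1)
    refine (Finset.sum_le_sum fun j _ => q6 j).trans (le_of_eq ?_)
    rw [Finset.sum_const, Finset.card_univ, Fintype.card_fin, nsmul_eq_mul]
    ring)
  have e1 : CH p (fun ω => fl L₁ (x ω)) (fun ω => (fl R (x ω), W ω)) ≤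
      CH p (fun ω => fl L (x ω)) (fun ω => (fl R (x ω), W ω)) := by
    refine CH_mono_left hp0 fun ω ω' _ _ hh => ?_
    exact fl_det hL1 (Prod.ext_iff.1 hh).1
  have e2 : ∀ a, CH p (fun ω => fl L (x ω)) (fun ω => (fl R (x ω), (Lam a ω, W ω))) ≤
      CH p (fun ω => fl L₁ (x ω)) (fun ω => (fl R (x ω), (Lam a ω, W ω))) + c * (m + 2) :=
    fun a => ch_tail hp x _ hL2
  have e3 := Finset.sum_le_sum fun a (_ : a ∈ (univ : Finset (Fin r))) => e2 a
  rw [Finset.sum_add_distrib, Finset.sum_const, Finset.card_univ, Fintype.card_fin,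
    nsmul_eq_mul] at e3
  have e4 := h1 hK hB
  have e5 := h2 (m := m) hK
  rw [← hf] at e4 e5
  have lK := Real.log_nonneg hK
  have lB := Real.log_nonneg hB
  obtain ⟨τ, hτ⟩ : ∃ τ, τ = 1 + Real.log Kd + Real.log B₀ := ⟨_, rfl⟩
  have hτ1 : 1 ≤ τ := by linarith
  have hm1 : (1 : ℝ) ≤ m := by exact_mod_cast hm
  have hb0 : (0 : ℝ) ≤ b := Nat.cast_nonneg b
  have hr0 : (0 : ℝ) ≤ r := Nat.cast_nonneg r
  have hc0 : (0 : ℝ) ≤ c := Nat.cast_nonneg c
  have e6 : (b : ℝ) * loss c r (f * Kd) (c * (f * Kd) * B₀) ≤ C1 * ((b + 1) * τ + m) := by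
    have g1 := mul_le_mul_of_nonneg_left e4 hb0
    rw [← hτ] at g1
    have g2 : 0 ≤ C1 * (τ + m) := by positivity
    calc _ ≤ (b : ℝ) * (C1 * τ) := g1
      _ ≤ b * (C1 * τ) + C1 * (τ + m) := by linarith
      _ = _ := by ring
  have e7 : (r : ℝ) * ini c (f * Kd) m ≤ r * C2 * ((b + 1) * τ + m) := by
    have g1 := mul_le_mul_of_nonneg_left e5 hr0
    have g3 : 1 + Real.log Kd + m ≤ (b + 1) * τ + m := by
      have : 0 ≤ (b : ℝ) * τ := by positivity
      linarith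
    have g2 := mul_le_mul_of_nonneg_left g3 (mul_nonneg hr0 hC2)
    calc _ ≤ (r : ℝ) * (C2 * (1 + Real.log Kd + m)) := g1
      _ = r * C2 * (1 + Real.log Kd + m) := by ring
      _ ≤ _ := g2
  have e8 : (r : ℝ) * (c * (m + 2)) ≤ r * (3 * c) * ((b + 1) * τ + m) := by
    have g3 : (m : ℝ) + 2 ≤ 3 * ((b + 1) * τ + m) := by
      have : 0 ≤ (b : ℝ) * τ := by positivity
      linarith
    calc (r : ℝ) * (c * (m + 2)) = r * c * (m + 2) := by ring
      _ ≤ r * c * (3 * ((b + 1) * τ + m)) :=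
        mul_le_mul_of_nonneg_left g3 (mul_nonneg hr0 hc0)
      _ = _ := by ring
  rw [← hb, ← hτ]
  have e9 : (C1 + r * C2 + r * (3 * c)) * ((b + 1) * τ + m) = C1 * ((b + 1) * τ + m) +
    r * C2 * ((b + 1) * τ + m) + r * (3 * c) * ((b + 1) * τ + m) := by ring
  rw [e9]
  linarith

/-- **Multilinear Kakeya in entropy form, between two scales, flats given by a basis.** -/
theorem mkd (c r : ℕ) : ∃ C : ℝ, 0 ≤ C ∧ ∀ {Ω κ : Type} [Fintype Ω] {p : Ω → ℝ}, IsLaw p →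
    ∀ {x : Ω → Fin c → ℝ} {d : Ω → Fin c → Fin c → ℝ} {Kd B₀ : ℝ} {R L : ℕ}, 1 ≤ Kd → 1 ≤ B₀ →
    R ≤ L → (∀ ω, 0 < p ω → ∀ i j, |d ω i j| ≤ 1) →
    (∀ ω, 0 < p ω → 1 / Kd ≤ |(Matrix.of (d ω)).det|) →
    ∀ (g : Fin c → Fin r) {Λ : Fin r → Type} (Lam : ∀ a, Ω → Λ a) (W : Ω → κ),
    (∀ a ω ω', 0 < p ω → 0 < p ω' → fl R (x ω) = fl R (x ω') → Lam a ω = Lam a ω' →
      W ω = W ω' → ∃ t : Fin c → ℝ, (∀ i, g i ≠ a → t i = 0) ∧
        ∀ j, |x ω j - x ω' j - ∑ i, t i * d ω i j| ≤ B₀ / 2 ^ L) →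
    ∑ a, CH p (fun ω => fl L (x ω)) (fun ω => (fl R (x ω), (Lam a ω, W ω))) ≤
      CH p (fun ω => fl L (x ω)) (fun ω => (fl R (x ω), W ω)) +
        C * (√(((L : ℝ) - R) * (1 + Real.log Kd + Real.log B₀)) +
          (1 + Real.log Kd + Real.log B₀)) := by
  obtain ⟨C, hC, h⟩ := mkd_m c r
  refine ⟨4 * C, by positivity, ?_⟩
  intro Ω κ _ p hp x d Kd B₀ R L hK hB hRL hd hdet g Λ Lam W hl
  have lK := Real.log_nonneg hK
  have lB := Real.log_nonneg hB
  obtain ⟨τ, hτ⟩ : ∃ τ, τ = 1 + Real.log Kd + Real.log B₀ := ⟨_, rfl⟩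
  have hτ1 : 1 ≤ τ := by linarith
  obtain ⟨q, hq⟩ : ∃ q, q = √(((L : ℝ) - R) * τ) := ⟨_, rfl⟩
  have hq0 : 0 ≤ q := by
    rw [hq]
    exact Real.sqrt_nonneg _
  have hLR : (0 : ℝ) ≤ (L : ℝ) - R := by
    have : (R : ℝ) ≤ L := by exact_mod_cast hRL
    linarith
  have hqq : q * q = ((L : ℝ) - R) * τ := by
    rw [hq]
    exact Real.mul_self_sqrt (by positivity)
  have key := h hp (m := ⌊q⌋₊ + 1) hK hB (by omega) hRL hd hdet g Lam W hl
  have e1 : (((L - R) / (⌊q⌋₊ + 1) : ℕ) : ℝ) * τ ≤ q := by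
    have g1 : (((L - R) / (⌊q⌋₊ + 1) : ℕ) : ℝ) ≤ ((L - R : ℕ) : ℝ) / ((⌊q⌋₊ + 1 : ℕ) : ℝ) :=
      Nat.cast_div_le
    have g2 : ((L - R : ℕ) : ℝ) = (L : ℝ) - R := by
      rw [Nat.cast_sub hRL]
    rw [g2] at g1
    push_cast at g1
    have g3 : q < ⌊q⌋₊ + 1 := Nat.lt_floor_add_one q
    have g4 : (0 : ℝ) < ⌊q⌋₊ + 1 := by positivity
    have g5 := mul_le_mul_of_nonneg_right g1 (show 0 ≤ τ by linarith)
    refine g5.trans ?_
    rw [div_mul_eq_mul_div, ← hqq, div_le_iff₀ g4]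
    exact mul_le_mul_of_nonneg_left g3.le hq0
  have e2 : ((⌊q⌋₊ + 1 : ℕ) : ℝ) ≤ q + 1 := by
    push_cast
    linarith [Nat.floor_le hq0]
  rw [← hτ, ← hq]
  rw [← hτ] at key
  refine key.trans ?_
  have e3 : ((((L - R) / (⌊q⌋₊ + 1) : ℕ) : ℝ) + 1) * τ + ((⌊q⌋₊ + 1 : ℕ) : ℝ) ≤
      4 * (q + τ) := by
    rw [add_mul, one_mul]
    linarith
  have e4 := mul_le_mul_of_nonneg_left e3 hC
  linarith

end Pool.MKV
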