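import Pool.Agent.H3.R2.Cel

/-!
# Row R2: own fullness

`Tb`: the falling coordinate `v` over the calm ones. `own`: all digits are full given the record of
the box of depth `s` and any random variable `F` which is almost known on both sides.
-/

set_option autoImplicit false

namespace Pool.R2

open Finset Real
open Pool.Agent.H49.Ent Pool.Agent.H32.Dense Pool.STK Pool.KA Pool.KSAT Pool.K2S Pool.PC Pool.LU
open Pool.JMN (shf tdg rp_mono rp_pos rp_nat coef_le)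
open Pool.R1 (Sup Rows cv cv_nest ch_cv r1l)
open Pool.R1P (log_bd fl_sub_near)

/-- **The falling coordinate over the calm ones.** -/
structure Tb {Ω α β τ δ ε : Type} [Fintype Ω] (q : Ω → ℝ) (k K r X S h s₀ : ℕ) (g : ℕ → ℝ)
    (cap : Fin k → ℕ) (A : Ω → α) (B : Ω → β) (W : Ω → τ) (Dz : Ω → ε) (D : Ω → δ)
    (y : Ω → Fin k → ℝ) (v : Ω → ℝ) (a b : Ω → (Fin k → Fin (K + 1)) → ℝ) (E : ℕ) (th Lz : ℝ) :
    Prop where
  law : IsLaw q
  hX : 1 ≤ X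
  th0 : 0 ≤ th
  y0 : ∀ ω i, 0 ≤ y ω i
  y1 : ∀ ω i, y ω i < 1
  g0 : ∀ i, 0 ≤ g i
  gm : ∀ i, s₀ ≤ i → i < S → g i ≤ g (i + 1)
  gs : ∀ i, s₀ ≤ i → i < S → g (i + 1) ≤ g i + r * X + 2 * h
  anti : ∀ i j : Fin k, i ≤ j → cap j ≤ cap i
  da : Det q (fun ω => (A ω, W ω)) a
  db : Det q (fun ω => (B ω, W ω)) b
  up : ∀ ω, 0 < q ω → ∀ i, s₀ ≤ i → i ≤ S → ∀ z : Fin k → ℝ,
    (∀ l, |z l - y ω l| ≤ 1 / 2 ^ (i * X)) →
    |Pool.JMN.ev (a ω) z - Pool.JMN.ev (b ω) z| ≤ (2 : ℝ) ^ ((h : ℝ) - g i)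
  lo : ∀ ω, 0 < q ω → ∀ i, s₀ ≤ i → i ≤ S → ∃ z : Fin k → ℝ,
    (∀ l, |z l - y ω l| ≤ 1 / 2 ^ (i * X)) ∧
    (2 : ℝ) ^ (-(g i) - h) ≤ |Pool.JMN.ev (a ω) z - Pool.JMN.ev (b ω) z|
  ga : ∀ ω, 0 < q ω → ∀ z z' : Fin k → ℝ, (∀ l, |z l| ≤ 2) → (∀ l, |z' l| ≤ 2) →
    (∀ l, |z l - z' l| ≤ 2 / 2 ^ (cap l * X)) →
    |Pool.JMN.ev (a ω) z - Pool.JMN.ev (a ω) z'| ≤ (2 : ℝ) ^ (-(g S) - h - 4)
  gb : ∀ ω, 0 < q ω → ∀ z z' : Fin k → ℝ, (∀ l, |z l| ≤ 2) → (∀ l, |z' l| ≤ 2) →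
    (∀ l, |z l - z' l| ≤ 2 / 2 ^ (cap l * X)) →
    |Pool.JMN.ev (b ω) z - Pool.JMN.ev (b ω) z'| ≤ (2 : ℝ) ^ (-(g S) - h - 4)
  nn : ∀ ω, 0 < q ω → |v ω - Pool.JMN.ev (a ω) (y ω)| ≤ (2 : ℝ) ^ (-(g S) - 1)
  dc : Det q (fun ω => (Dz ω, W ω)) (cv X y cap)
  cnt : ∀ d : Fin k → ℕ, (∀ l, d l ≤ cap l) →
    CH q Dz (fun ω => (W ω, cv X y d ω)) ≤ Lz - (∑ l, (d l : ℝ)) * (X * Real.log 2) + h
  dz : Det q (fun ω => (D ω, W ω)) Dz
  dy : Det q (fun ω => (D ω, W ω)) (fun ω => (y ω, v ω))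
  ex : CH q D (fun ω => (⌊(2 : ℝ) ^ E * v ω⌋, (Dz ω, W ω))) ≤ h
  c2 : ∀ T : Ω → Ω, (∀ ω, 0 < q ω → 0 < q (T ω) ∧ W (T ω) = W ω) → ∀ d : Fin k → ℕ,
    (∀ l, d l ≤ cap l) → ∀ j ≤ E,
    CH q D (fun ω => (⌊(2 : ℝ) ^ j * (v ω - Pool.JMN.ev (b (T ω)) (y ω))⌋,
      (T ω, (W ω, cv X y d ω)))) ≤
      Lz + ((E : ℝ) - j) * Real.log 2 - (∑ l, (d l : ℝ)) * (X * Real.log 2) + h
  se : g S ≤ E
  fa : Lz + ((E : ℝ) - g S) * Real.log 2 - th ≤ CH q D (fun ω => (A ω, W ω))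
  fb : Lz + ((E : ℝ) - g S) * Real.log 2 - th ≤ CH q D (fun ω => (B ω, W ω))

/-- The rounded leaf in the cell. -/
noncomputable def rc {Ω : Type} {k K : ℕ} (X s : ℕ) (cap : Fin k → ℕ) (y : Ω → Fin k → ℝ)
    (b : Ω → (Fin k → Fin (K + 1)) → ℝ) (n : ℕ) (ω : Ω) (α : Fin k → Fin (K + 1)) : ℤ :=
  ⌊(2 : ℝ) ^ n * ac X s cap y b ω α⌋

section

variable {Ω α β τ δ ε φ : Type} [Fintype Ω] {q : Ω → ℝ} {k K r X S h s₀ : ℕ} {g : ℕ → ℝ}
  {cap : Fin k → ℕ} {A : Ω → α} {B : Ω → β} {W : Ω → τ} {Dz : Ω → ε} {D : Ω → δ}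
  {y : Ω → Fin k → ℝ} {v : Ω → ℝ} {a b : Ω → (Fin k → Fin (K + 1)) → ℝ} {E : ℕ} {th Lz : ℝ}

/-- Real powers: the logarithm of a count. -/
theorem log_cnt {x : ℝ} (hx : 0 ≤ x) : Real.log (2 * ((2 : ℝ) ^ x + 1) + 1) ≤
    x * Real.log 2 + 2 := by
  have h1 : (1 : ℝ) ≤ 2 ^ x := Real.one_le_rpow (by norm_num) hx
  have h2 : 2 * ((2 : ℝ) ^ x + 1) + 1 ≤ 2 ^ x * 5 := by linarith
  refine (Real.log_le_log (by positivity) h2).trans ?_
  rw [Real.log_mul (by positivity) (by norm_num), Real.log_rpow (by norm_num)]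
  have h3 : Real.log 5 ≤ 2 := by
    have h4 : Real.log 5 ≤ Real.log (Real.exp 2) := by
      refine Real.log_le_log (by norm_num) ?_
      have h2 := Real.exp_one_gt_d9
      have h3 : Real.exp 2 = Real.exp 1 * Real.exp 1 := by
        rw [← Real.exp_add]
        norm_num
      rw [h3]
      nlinarith
    rwa [Real.log_exp] at h4
  linarith

theorem Tb.mono (H : Tb q k K r X S h s₀ g cap A B W Dz D y v a b E th Lz) {i j : ℕ} (h0 : s₀ ≤ i)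
    (hij : i ≤ j) (hj : j ≤ S) : g i ≤ g j := by
  induction j, hij using Nat.le_induction with
  | base => exact le_rfl
  | succ j hij ih => exact (ih (by omega)).trans (H.gm j (by omega) (by omega))

/-- The digits of `v` given a leaf and the digits of the base. -/
theorem Tb.few (H : Tb q k K r X S h s₀ g cap A B W Dz D y v a b E th Lz) {γ : Type} {C : Ω → γ}
    {c : Ω → (Fin k → Fin (K + 1)) → ℝ} (dC : Det q (fun ω => (C ω, W ω)) c)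
    (gc : ∀ ω, 0 < q ω → ∀ z z' : Fin k → ℝ, (∀ l, |z l| ≤ 2) → (∀ l, |z' l| ≤ 2) →
      (∀ l, |z l - z' l| ≤ 2 / 2 ^ (cap l * X)) →
      |Pool.JMN.ev (c ω) z - Pool.JMN.ev (c ω) z'| ≤ (2 : ℝ) ^ (-(g S) - h - 4))
    (nc : ∀ ω, 0 < q ω → |v ω - Pool.JMN.ev (c ω) (y ω)| ≤ (2 : ℝ) ^ ((h : ℝ) + 1 - g S))
    {m : ℕ} (hm : g S ≤ m) :
    CH q (fun ω => ⌊(2 : ℝ) ^ m * v ω⌋) (fun ω => (Dz ω, (C ω, W ω))) ≤
      ((m : ℝ) - g S) * Real.log 2 + (h + 5) := by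
  have hh : (0 : ℝ) ≤ h := Nat.cast_nonneg h
  refine (CH_bd1 H.law _ _ ((2 : ℝ) ^ ((m : ℝ) - g S + (h + 3)) + 1) ?_).trans ?_
  · intro ω ω' hω hω' hh'
    simp only [Prod.mk.injEq] at hh'
    obtain ⟨h1, h2, h3⟩ := hh'
    have e1 := dC ω ω' hω hω' (Prod.ext h2 h3)
    have e2 := H.dc ω ω' hω hω' (Prod.ext h1 h3)
    have e3 : ∀ l, |y ω l - y ω' l| ≤ 2 / 2 ^ (cap l * X) := by
      intro l
      have e4 := Pool.R1.fl_close (congrFun e2 l)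
      refine e4.trans ?_
      exact div_le_div_of_nonneg_right (by norm_num) (by positivity)
    have ky : ∀ ω, ∀ l, |y ω l| ≤ 2 := fun ω l => by
      rw [abs_of_nonneg (H.y0 ω l)]
      linarith [H.y1 ω l]
    have e5 := gc ω hω (y ω) (y ω') (ky ω) (ky ω') e3
    have e6 := nc ω hω
    have e7 := nc ω' hω'
    rw [← e1] at e7
    have e8 : |v ω - v ω'| ≤ (2 : ℝ) ^ ((h : ℝ) + 3 - g S) := by
      have f1 : (2 : ℝ) ^ ((h : ℝ) + 3 - g S) = 4 * (2 : ℝ) ^ ((h : ℝ) + 1 - g S) := by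
        have : (h : ℝ) + 3 - g S = 2 + ((h : ℝ) + 1 - g S) := by ring
        rw [this, Real.rpow_add (by norm_num)]
        norm_num
      have f2 : (2 : ℝ) ^ (-(g S) - h - 4) ≤ (2 : ℝ) ^ ((h : ℝ) + 1 - g S) :=
        rp_mono (by linarith)
      have f3 : v ω - v ω' = (v ω - Pool.JMN.ev (c ω) (y ω)) +
          (Pool.JMN.ev (c ω) (y ω) - Pool.JMN.ev (c ω) (y ω')) -
          (v ω' - Pool.JMN.ev (c ω) (y ω')) := by ring
      have f4 := rp_pos ((h : ℝ) + 1 - g S)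
      rw [f3, f1]
      rw [abs_le] at e5 e6 e7 ⊢
      constructor <;> linarith
    have e9 : (2 : ℝ) ^ ((m : ℝ) - g S + (h + 3)) = 2 ^ m * (2 : ℝ) ^ ((h : ℝ) + 3 - g S) := by
      have : (m : ℝ) - g S + (h + 3) = m + ((h : ℝ) + 3 - g S) := by ring
      rw [this, Real.rpow_add (by norm_num), rp_nat]
    have e10 : |(2 : ℝ) ^ m * v ω - 2 ^ m * v ω'| ≤ (2 : ℝ) ^ ((m : ℝ) - g S + (h + 3)) := by
      rw [e9, ← mul_sub, abs_mul, abs_of_pos (by positivity : (0 : ℝ) < 2 ^ m)]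
      exact mul_le_mul_of_nonneg_left e8 (by positivity)
    have e11 := fl_sub_near ((2 : ℝ) ^ m * v ω) (2 ^ m * v ω')
    push_cast
    rw [abs_le] at e10 e11 ⊢
    constructor <;> linarith
  · have hx : 0 ≤ (m : ℝ) - g S + (h + 3) := by linarith
    refine (log_cnt hx).trans ?_
    have hl2' : Real.log 2 ≤ 1 := by
      have := Real.log_two_lt_d9
      linarith
    have e1 : ((h : ℝ) + 3) * Real.log 2 ≤ (h + 3) * 1 :=
      mul_le_mul_of_nonneg_left hl2' (by positivity)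
    linarith

theorem Tb.na (H : Tb q k K r X S h s₀ g cap A B W Dz D y v a b E th Lz) {ω : Ω} (hω : 0 < q ω) :
    |v ω - Pool.JMN.ev (a ω) (y ω)| ≤ (2 : ℝ) ^ ((h : ℝ) + 1 - g S) := by
  refine (H.nn ω hω).trans (rp_mono ?_)
  have hh : (0 : ℝ) ≤ h := Nat.cast_nonneg h
  linarith

theorem Tb.nb (H : Tb q k K r X S h s₀ g cap A B W Dz D y v a b E th Lz) (hS : s₀ ≤ S) {ω : Ω}
    (hω : 0 < q ω) : |v ω - Pool.JMN.ev (b ω) (y ω)| ≤ (2 : ℝ) ^ ((h : ℝ) + 1 - g S) := by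
  have hh : (0 : ℝ) ≤ h := Nat.cast_nonneg h
  have e1 := H.nn ω hω
  have e2 := H.up ω hω S hS le_rfl (y ω) (fun l => by
    rw [sub_self, abs_zero]
    positivity)
  have e3 : (2 : ℝ) ^ ((h : ℝ) + 1 - g S) = 2 * (2 : ℝ) ^ ((h : ℝ) - g S) := by
    have : (h : ℝ) + 1 - g S = 1 + ((h : ℝ) - g S) := by ring
    rw [this, Real.rpow_add (by norm_num), Real.rpow_one]
  have e4 : (2 : ℝ) ^ (-(g S) - 1) ≤ (2 : ℝ) ^ ((h : ℝ) - g S) := rp_mono (by linarith)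
  have e5 : v ω - Pool.JMN.ev (b ω) (y ω) = (v ω - Pool.JMN.ev (a ω) (y ω)) +
    (Pool.JMN.ev (a ω) (y ω) - Pool.JMN.ev (b ω) (y ω)) := by ring
  rw [e3, e5]
  refine (abs_add_le _ _).trans ?_
  linarith

/-- The digits `D` given a leaf and the digits of the base. -/
theorem Tb.rest (H : Tb q k K r X S h s₀ g cap A B W Dz D y v a b E th Lz) {γ : Type} {C : Ω → γ}
    (hC : CH q (fun ω => ⌊(2 : ℝ) ^ E * v ω⌋) (fun ω => (Dz ω, (C ω, W ω))) ≤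
      ((E : ℝ) - g S) * Real.log 2 + (h + 5)) :
    CH q D (fun ω => (Dz ω, (C ω, W ω))) ≤ ((E : ℝ) - g S) * Real.log 2 + (2 * h + 5) := by
  have h0 := H.law.nonneg
  have e1 := CH_le_add h0 D (fun ω => ⌊(2 : ℝ) ^ E * v ω⌋) (fun ω => (Dz ω, (C ω, W ω)))
  have e2 : CH q D (fun ω => (⌊(2 : ℝ) ^ E * v ω⌋, (Dz ω, (C ω, W ω)))) ≤
      CH q D (fun ω => (⌊(2 : ℝ) ^ E * v ω⌋, (Dz ω, W ω))) := by
    refine CH_mono_cond h0 fun ω ω' _ _ hh => ?_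
    simp only [Prod.mk.injEq] at hh ⊢
    exact ⟨hh.1, hh.2.1, hh.2.2.2⟩
  have e3 := H.ex
  linarith

/-- **The data of the local theorem for `v`.** -/
theorem Tb.sup (H : Tb q k K r X S h s₀ g cap A B W Dz D y v a b E th Lz) (hS : s₀ ≤ S) :
    Sup q k K r X S h s₀ g cap A B W Dz y v a b (th + (2 * h + 5)) Lz := by
  have h0 := H.law.nonneg
  have hh : (0 : ℝ) ≤ h := Nat.cast_nonneg h
  have e1 := H.rest (H.few H.da H.ga (fun ω hω => H.na hω) H.se)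
  have e2 := H.rest (H.few H.db H.gb (fun ω hω => H.nb hS hω) H.se)
  have e3 := CH_le_add h0 D Dz (fun ω => (A ω, W ω))
  have e4 := CH_le_add h0 D Dz (fun ω => (B ω, W ω))
  have e5 := H.fa
  have e6 := H.fb
  have e7 : (2 : ℝ) ^ (-(g S) - h - 4) ≤ (2 : ℝ) ^ (-(g S) - h - 3) := rp_mono (by linarith)
  exact ⟨H.law, H.hX, by linarith [H.th0], H.y0, H.y1, H.g0, H.gm, H.gs, H.anti, H.da, H.db, H.up,
    H.lo, fun ω hω z z' h1 h2 h3 => (H.ga ω hω z z' h1 h2 h3).trans e7,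
    fun ω hω z z' h1 h2 h3 => (H.gb ω hω z z' h1 h2 h3).trans e7, H.nn, H.dc, H.cnt, by linarith,
    by linarith⟩

end

/-- The closeness of the two leaves in the cell. -/
theorem rc_near (k K : ℕ) : ∃ C : ℝ, 1 ≤ C ∧
    ∀ {Ω α β τ δ ε : Type} [Fintype Ω] {q : Ω → ℝ} {r X S h s₀ : ℕ} {g : ℕ → ℝ}
    {cap : Fin k → ℕ} {A : Ω → α} {B : Ω → β} {W : Ω → τ} {Dz : Ω → ε} {D : Ω → δ}
    {y : Ω → Fin k → ℝ} {v : Ω → ℝ} {a b : Ω → (Fin k → Fin (K + 1)) → ℝ} {E : ℕ} {th Lz : ℝ},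
    Tb q k K r X S h s₀ g cap A B W Dz D y v a b E th Lz → ∀ {s : ℕ}, s₀ ≤ s → s ≤ S →
    ∀ ω, 0 < q ω → ∀ α, |ac X s cap y a ω α - ac X s cap y b ω α| ≤
      C * (2 : ℝ) ^ ((h : ℝ) + 1 - g s) := by
  obtain ⟨C, hC, hc⟩ := coef_le k K
  refine ⟨C, hC, ?_⟩
  intro Ω α β τ δ ε _ q r X S h s₀ g cap A B W Dz D y v a b E th Lz H s hs0 hsS ω hω α
  have hsup := H.sup (hs0.trans hsS)
  have hcell := Sup_cell hsup hs0 hsS le_rfl (F := fun _ => (0 : ℕ))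
    (by rw [CH_eq_zero H.law.nonneg (fun _ _ _ _ _ => rfl)])
    (by rw [CH_eq_zero H.law.nonneg (fun _ _ _ _ _ => rfl)])
    (fun ω hω z z' h1 h2 h3 => (H.ga ω hω z z' h1 h2 h3).trans (rp_mono (by push_cast; linarith)))
    (fun ω hω z z' h1 h2 h3 => (H.gb ω hω z z' h1 h2 h3).trans (rp_mono (by push_cast; linarith)))
  have h1 := hc (fun α => ac X s cap y a ω α - ac X s cap y b ω α) 1
    ((2 : ℝ) ^ ((h : ℝ) + 1 - g s)) one_pos (fun x hx => by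
      rw [Pool.JMN.ev_sub]
      have h2 := hcell.up ω hω 0 le_rfl (Nat.zero_le _) x (fun l => by
        rw [zero_mul, pow_zero, div_one]
        have e1 := yc_nonneg (X := X) (s := s) (cap := cap) (y := y) ω l
        have e2 := yc_lt (X := X) (s := s) (cap := cap) (y := y) ω l
        have e3 := (hx l).1
        have e4 := (hx l).2
        rw [abs_le]
        constructor <;> linarith)
      simp only [add_zero] at h2
      push_cast at h2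
      exact h2) α
  rw [one_pow, mul_one] at h1
  exact h1

/-- The record of the box is known on the other side. -/
theorem rc_few (k K : ℕ) : ∃ C : ℝ, 0 ≤ C ∧
    ∀ {Ω α β τ δ ε : Type} [Fintype Ω] {q : Ω → ℝ} {r X S h s₀ : ℕ} {g : ℕ → ℝ}
    {cap : Fin k → ℕ} {A : Ω → α} {B : Ω → β} {W : Ω → τ} {Dz : Ω → ε} {D : Ω → δ}
    {y : Ω → Fin k → ℝ} {v : Ω → ℝ} {a b : Ω → (Fin k → Fin (K + 1)) → ℝ} {E : ℕ} {th Lz : ℝ},
    Tb q k K r X S h s₀ g cap A B W Dz D y v a b E th Lz → ∀ {s : ℕ}, s₀ ≤ s → s ≤ S →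
    CH q (rc X s cap y b ⌈g s⌉₊) (fun ω => (A ω, (W ω, cs X s cap y ω))) ≤ C * (1 + h) := by
  obtain ⟨C, hC, hc⟩ := rc_near k K
  refine ⟨(K + 1) ^ k * (2 * (1 + Real.log (2 * (8 * C + 1) + 1))), by
    have : 0 ≤ Real.log (2 * (8 * C + 1) + 1) := Real.log_nonneg (by linarith)
    positivity, ?_⟩
  intro Ω α β τ δ ε _ q r X S h s₀ g cap A B W Dz D y v a b E th Lz H s hs0 hsS
  have hh : (0 : ℝ) ≤ h := Nat.cast_nonneg h
  have hl : 0 ≤ Real.log (2 * (8 * C + 1) + 1) := Real.log_nonneg (by linarith)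
  have key : ∀ α : Fin k → Fin (K + 1), CH q (fun ω => rc X s cap y b ⌈g s⌉₊ ω α)
      (fun ω => (A ω, (W ω, cs X s cap y ω))) ≤
      2 * (1 + Real.log (2 * (8 * C + 1) + 1)) * (1 + h) := by
    intro α
    refine (CH_bd1 H.law _ _ ((8 * C + 1) * 2 ^ (h + 1)) ?_).trans ?_
    · intro ω ω' hω hω' hh'
      simp only [Prod.mk.injEq] at hh'
      obtain ⟨h1, h2, h3⟩ := hh'
      have e1 := H.da ω ω' hω hω' (Prod.ext h1 h2)
      have e2 : ac X s cap y a ω = ac X s cap y a ω' := by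
        unfold ac cn
        rw [e1, h3]
      have e3 := hc H hs0 hsS ω hω α
      have e4 := hc H hs0 hsS ω' hω' α
      rw [← e2] at e4
      have e5 : (2 : ℝ) ^ ⌈g s⌉₊ * (C * (2 : ℝ) ^ ((h : ℝ) + 1 - g s)) ≤ C * 4 * 2 ^ h := by
        have f1 := Nat.ceil_lt_add_one (H.g0 s)
        have f2 : (2 : ℝ) ^ ⌈g s⌉₊ * (2 : ℝ) ^ ((h : ℝ) + 1 - g s) ≤ (2 : ℝ) ^ ((h : ℝ) + 2) := by
          rw [← rp_nat, ← Real.rpow_add (by norm_num)]
          exact rp_mono (by linarith)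
        have f3 : (2 : ℝ) ^ ((h : ℝ) + 2) = 4 * 2 ^ h := by
          rw [Real.rpow_add (by norm_num), rp_nat]
          norm_num
          ring
        calc (2 : ℝ) ^ ⌈g s⌉₊ * (C * (2 : ℝ) ^ ((h : ℝ) + 1 - g s)) =
            C * ((2 : ℝ) ^ ⌈g s⌉₊ * (2 : ℝ) ^ ((h : ℝ) + 1 - g s)) := by ring
          _ ≤ C * (4 * 2 ^ h) := mul_le_mul_of_nonneg_left (f2.trans f3.le) (by linarith)
          _ = _ := by ring
      obtain ⟨P, hP⟩ : ∃ P : ℝ, P = 2 ^ ⌈g s⌉₊ := ⟨_, rfl⟩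
      have hP0 : 0 < P := by rw [hP]; positivity
      have e6 : |P * ac X s cap y b ω α - P * ac X s cap y b ω' α| ≤ C * 8 * 2 ^ h := by
        have g1 := mul_le_mul_of_nonneg_left e3 hP0.le
        have g2 := mul_le_mul_of_nonneg_left e4 hP0.le
        rw [← hP] at e5
        rw [← abs_of_pos hP0, ← abs_mul, abs_of_pos hP0] at g1 g2
        have g3 : P * ac X s cap y b ω α - P * ac X s cap y b ω' α =
            P * (ac X s cap y a ω α - ac X s cap y b ω' α) -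
              P * (ac X s cap y a ω α - ac X s cap y b ω α) := by ring
        rw [g3]
        refine (abs_sub _ _).trans ?_
        linarith
      have e7 := fl_sub_near (P * ac X s cap y b ω α) (P * ac X s cap y b ω' α)
      unfold rc
      rw [← hP]
      push_cast
      have e8 : (1 : ℝ) ≤ 2 ^ h := one_le_pow₀ (by norm_num)
      have e9 : (8 * C + 1) * (2 : ℝ) ^ (h + 1) = (8 * C + 1) * (2 * 2 ^ h) := by
        rw [pow_succ]
        ring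
      rw [e9]
      have e10 : 0 ≤ C * 2 ^ h := by positivity
      rw [abs_le] at e6 e7 ⊢
      constructor <;> nlinarith
    · refine (log_bd (by linarith) (h + 1)).trans ?_
      push_cast
      nlinarith [mul_nonneg hl hh]
  refine (CH_pi H.law.nonneg _ _).trans ((Finset.sum_le_sum fun α _ => key α).trans (le_of_eq ?_))
  rw [Finset.sum_const, Finset.card_univ, Fintype.card_fun, Fintype.card_fin, Fintype.card_fin,
    nsmul_eq_mul]
  push_cast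
  ring

/-- **Own fullness.** -/
theorem own (k r : ℕ) : ∃ C1 : ℝ, 0 ≤ C1 ∧ ∀ K : ℕ, ∃ C2 : ℝ, 0 ≤ C2 ∧
    ∀ {Ω α β τ δ ε φ : Type} [Fintype Ω] {q : Ω → ℝ} {X S h s₀ : ℕ} {g : ℕ → ℝ}
    {cap : Fin k → ℕ} {A : Ω → α} {B : Ω → β} {W : Ω → τ} {Dz : Ω → ε} {D : Ω → δ}
    {y : Ω → Fin k → ℝ} {v : Ω → ℝ} {a b : Ω → (Fin k → Fin (K + 1)) → ℝ} {E : ℕ} {th Lz : ℝ},
    Tb q k K r X S h s₀ g cap A B W Dz D y v a b E th Lz → ∀ {s : ℕ}, s₀ ≤ s → s ≤ S →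
    ∀ (F : Ω → φ) {η : ℝ}, 0 ≤ η → CH q F (fun ω => (A ω, (W ω, cs X s cap y ω))) ≤ η →
    CH q F (fun ω => (B ω, (W ω, cs X s cap y ω))) ≤ η →
    Lz - (∑ l, (ds s cap l : ℝ)) * (X * Real.log 2) + ((E : ℝ) - g s) * Real.log 2 ≤
      CH q D (fun ω => ((F ω, rc X s cap y b ⌈g s⌉₊ ω), (W ω, cs X s cap y ω))) +
      (C1 * ((((S - s : ℕ) : ℝ) + 1) * (th + η) + X) +
        C2 * ((((S - s : ℕ) : ℝ) + 1) * (1 + h))) := by
  obtain ⟨C1, hC1, h1⟩ := r1l k r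
  refine ⟨C1 + 4, by positivity, fun K => ?_⟩
  obtain ⟨C2, hC2, h2⟩ := h1 K
  obtain ⟨C3, hC3, h3⟩ := rc_few k K
  refine ⟨C1 * (5 + C3) + 2 * C2 + 40 + 4 * C3, by positivity, ?_⟩
  intro Ω α β τ δ ε φ _ q X S h s₀ g cap A B W Dz D y v a b E th Lz H s hs0 hsS F η hη hFa hFb
  have h0 := H.law.nonneg
  have hh : (0 : ℝ) ≤ h := Nat.cast_nonneg h
  obtain ⟨M, hM⟩ : ∃ M : ℝ, M = ((S - s : ℕ) : ℝ) := ⟨_, rfl⟩
  have hM0 : 0 ≤ M := by rw [hM]; positivity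
  have hX0 : (0 : ℝ) ≤ X := Nat.cast_nonneg X
  have hth := H.th0
  have hl2 : 0 < Real.log 2 := Real.log_pos (by norm_num)
  have hl21 : Real.log 2 ≤ 1 := by
    have := Real.log_two_lt_d9
    linarith
  obtain ⟨R, hR⟩ : ∃ R, R = rc X s cap y b ⌈g s⌉₊ := ⟨_, rfl⟩
  obtain ⟨c, hc⟩ : ∃ c, c = cs X s cap y := ⟨_, rfl⟩
  have hRa := h3 H hs0 hsS
  rw [← hR, ← hc] at hRa ⊢
  rw [← hc] at hFa hFb
  have hRb : Det q (fun ω => (B ω, (W ω, c ω))) R := by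
    intro ω ω' hω hω' hh'
    simp only [Prod.mk.injEq] at hh'
    have e1 := H.db ω ω' hω hω' (Prod.ext hh'.1 hh'.2.1)
    have e2 := hh'.2.2
    rw [hc] at e2
    rw [hR]
    funext α
    unfold rc ac cn
    rw [e1, e2]
  have hFR : ∀ {γ : Type} {C : Ω → γ} {x y : ℝ}, CH q F (fun ω => (C ω, (W ω, c ω))) ≤ x →
      CH q R (fun ω => (C ω, (W ω, c ω))) ≤ y →
      CH q (fun ω => (F ω, R ω)) (fun ω => (C ω, (W ω, c ω))) ≤ x + y := by
    intro γ C x y h1 h2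
    exact (CH_subadd h0 F R _).trans (add_le_add h1 h2)
  have hRb0 : CH q R (fun ω => (B ω, (W ω, c ω))) ≤ C3 * (1 + h) := by
    rw [CH_eq_zero h0 hRb]
    positivity
  obtain ⟨η', hη'⟩ : ∃ η', η' = η + C3 * (1 + h) := ⟨_, rfl⟩
  have hη'0 : 0 ≤ η' := by rw [hη']; positivity
  have hsup := H.sup (hs0.trans hsS)
  have hcell := Sup_cell hsup hs0 hsS hη'0 (F := fun ω => (F ω, R ω))
    (by rw [← hc, hη']; exact hFR hFa hRa) (by rw [← hc, hη']; exact hFR hFb hRb0)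
    (fun ω hω z z' h1 h2 h3 => (H.ga ω hω z z' h1 h2 h3).trans (rp_mono (by push_cast; linarith)))
    (fun ω hω z z' h1 h2 h3 => (H.gb ω hω z z' h1 h2 h3).trans (rp_mono (by push_cast; linarith)))
  have hrows := h2 hcell (Nat.zero_le _)
  rw [← hc] at hcell hrows
  unfold Rows at hrows
  simp only [add_zero, Nat.sub_zero] at hrows
  have eS : s + (S - s) = S := by omega
  rw [eS] at hrows
  obtain ⟨nS, hnS⟩ : ∃ n, n = ⌈g S⌉₊ := ⟨_, rfl⟩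
  obtain ⟨ns, hns⟩ : ∃ n, n = ⌈g s⌉₊ := ⟨_, rfl⟩
  rw [← hnS, ← hns] at hrows
  obtain ⟨f, hf⟩ : ∃ f : ℕ → Ω → ℤ, f = fun n ω => ⌊(2 : ℝ) ^ n * v ω⌋ := ⟨_, rfl⟩
  have ef : ∀ n, (fun ω => ⌊(2 : ℝ) ^ n * v ω⌋) = f n := fun n => by rw [hf]
  have ef2 : ∀ n ω, ⌊(2 : ℝ) ^ n * v ω⌋ = f n ω := fun n ω => by rw [hf]
  simp only [ef2] at hrows
  obtain ⟨V, hV⟩ : ∃ V : Ω → (φ × ((Fin k → Fin (K + 1)) → ℤ)) × (τ × (Fin k → ℤ)), V = fun ω =>
    ((F ω, R ω), (W ω, c ω)) := ⟨_, rfl⟩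
  have eV : ∀ ω, ((F ω, R ω), (W ω, c ω)) = V ω := fun ω => by rw [hV]
  simp only [eV] at hrows ⊢
  have VW : ∀ ω ω', V ω = V ω' → F ω = F ω' ∧ R ω = R ω' ∧ W ω = W ω' ∧ c ω = c ω' := by
    intro ω ω' hh'
    rw [hV] at hh'
    simp only [Prod.mk.injEq] at hh'
    exact ⟨hh'.1.1, hh'.1.2, hh'.2.1, hh'.2.2⟩
  -- the base digits
  have s1 := CH_chain h0 D Dz V
  have s2 : CH q (fun ω => (D ω, Dz ω)) V ≤ CH q D V := by
    refine CH_mono_left h0 fun ω ω' hω hω' hh' => ?_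
    simp only [Prod.mk.injEq] at hh' ⊢
    exact ⟨hh'.1, H.dz ω ω' hω hω' (Prod.ext hh'.1 (VW ω ω' hh'.2).2.2.1)⟩
  have s3 : Lz - (∑ l, (ds s cap l : ℝ)) * (X * Real.log 2) - (th + (2 * h + 5) + η') ≤
      CH q Dz V := by
    have e1 := hcell.fb
    simp only [eV] at e1
    refine e1.trans (CH_mono_cond h0 fun ω ω' _ _ hh' => ?_)
    exact (Prod.ext_iff.mp hh').2
  -- the rows of `v`
  have s4 := CH_chain h0 D (f nS) (fun ω => (Dz ω, V ω))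
  have s5 : CH q (fun ω => (D ω, f nS ω)) (fun ω => (Dz ω, V ω)) ≤
      CH q D (fun ω => (Dz ω, V ω)) := by
    refine CH_mono_left h0 fun ω ω' hω hω' hh' => ?_
    simp only [Prod.mk.injEq] at hh' ⊢
    refine ⟨hh'.1, ?_⟩
    have e1 := H.dy ω ω' hω hω' (Prod.ext hh'.1 (VW ω ω' hh'.2.2).2.2.1)
    simp only [Prod.mk.injEq] at e1
    rw [hf]
    simp only [e1.2]
  have s6 : CH q (f nS) (fun ω => (f ns ω, (Dz ω, V ω))) ≤
      CH q (f nS) (fun ω => (Dz ω, V ω)) := by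
    refine CH_mono_cond h0 fun ω ω' _ _ hh' => ?_
    exact (Prod.ext_iff.mp hh').2
  -- the digits below the last row
  have s7 : ((E : ℝ) - g S) * Real.log 2 - th - h - (((nS : ℝ) - g S) * Real.log 2 + (h + 5)) - η ≤
      CH q D (fun ω => (f nS ω, (Dz ω, V ω))) := by
    have e1 := H.fb
    have e2 := CH_le_add h0 D Dz (fun ω => (B ω, W ω))
    have e3 : CH q Dz (fun ω => (B ω, W ω)) ≤ Lz + h := by
      have g1 := H.cnt (fun _ => 0) (fun l => Nat.zero_le _)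
      have g2 : CH q Dz (fun ω => (B ω, W ω)) ≤ CH q Dz (fun ω => (W ω, cv X y (fun _ => 0) ω)) := by
        refine CH_mono_cond h0 fun ω ω' _ _ hh' => ?_
        simp only [Prod.mk.injEq] at hh' ⊢
        refine ⟨hh'.2, ?_⟩
        have g3 : ∀ ω, cv X y (fun _ => 0) ω = fun _ => (0 : ℤ) := by
          intro ω
          funext l
          unfold cv
          rw [Int.floor_eq_zero_iff, Set.mem_Ico]
          simp only [zero_mul, pow_zero, one_mul]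
          exact ⟨H.y0 ω l, H.y1 ω l⟩
        rw [g3, g3]
      have g4 : (∑ _l : Fin k, ((0 : ℕ) : ℝ)) * (X * Real.log 2) = 0 := by simp
      rw [g4] at g1
      linarith
    have e4 := CH_le_add h0 D (f nS) (fun ω => (Dz ω, (B ω, W ω)))
    have e5 : CH q (f nS) (fun ω => (Dz ω, (B ω, W ω))) ≤
        ((nS : ℝ) - g S) * Real.log 2 + (h + 5) := by
      have g1 := H.few H.db H.gb (fun ω hω => H.nb (hs0.trans hsS) hω) (m := nS)
        (by rw [hnS]; exact Nat.le_ceil _)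
      rw [ef] at g1
      exact g1
    have e6 := CH_le_add h0 D F (fun ω => (f nS ω, (Dz ω, (B ω, W ω))))
    have hcD : ∀ ω ω', 0 < q ω → 0 < q ω' → Dz ω = Dz ω' → W ω = W ω' → c ω = c ω' := by
      intro ω ω' hω hω' e e'
      have g1 := H.dc ω ω' hω hω' (Prod.ext e e')
      rw [hc]
      exact cs_of_cv (fun l => ds_le s cap l) g1
    have e7 : CH q F (fun ω => (f nS ω, (Dz ω, (B ω, W ω)))) ≤ η := by
      refine le_trans (CH_mono_cond h0 fun ω ω' hω hω' hh' => ?_) hFb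
      simp only [Prod.mk.injEq] at hh' ⊢
      exact ⟨hh'.2.2.1, hh'.2.2.2, hcD ω ω' hω hω' hh'.2.1 hh'.2.2.2⟩
    have e8 : CH q D (fun ω => (F ω, (f nS ω, (Dz ω, (B ω, W ω))))) ≤
        CH q D (fun ω => (f nS ω, (Dz ω, V ω))) := by
      refine CH_mono_cond h0 fun ω ω' hω hω' hh' => ?_
      simp only [Prod.mk.injEq] at hh' ⊢
      refine ⟨hh'.2.1, hh'.2.2.1, ?_⟩
      have g1 := hcD ω ω' hω hω' hh'.2.2.1 hh'.2.2.2.2
      rw [← eV, ← eV, hh'.1, hh'.2.2.2.2, g1]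
      have g2 := hRb ω ω' hω hω' (Prod.ext hh'.2.2.2.1 (Prod.ext hh'.2.2.2.2 g1))
      rw [g2]
    linarith
  -- the sum
  have hnS' : (nS : ℝ) ≤ g S + 1 := by
    rw [hnS]
    exact (Nat.ceil_lt_add_one (H.g0 S)).le
  have hns' : (ns : ℝ) ≤ g s + 1 := by
    rw [hns]
    exact (Nat.ceil_lt_add_one (H.g0 s)).le
  rw [← hM] at hrows ⊢
  obtain ⟨u, hu⟩ : ∃ u : ℝ, u = C1 * ((M + 1) * (th + (2 * h + 5) + η') + X) +
    C2 * ((M + 1) * (1 + ((h + 1 : ℕ) : ℝ))) := ⟨_, rfl⟩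
  rw [← hu] at hrows
  have hu1 : u ≤ C1 * ((M + 1) * (th + η) + X) +
      (C1 * (5 + C3) + 2 * C2) * ((M + 1) * (1 + h)) := by
    have g2 : (M + 1) * (1 + ((h + 1 : ℕ) : ℝ)) ≤ (M + 1) * (2 * (1 + h)) := by
      refine mul_le_mul_of_nonneg_left (by push_cast; linarith) (by positivity)
    have g3 : (M + 1) * (th + (2 * h + 5) + η') ≤
        (M + 1) * (th + η) + (5 + C3) * ((M + 1) * (1 + h)) := by
      rw [hη']
      have q1 : (M + 1) * (2 * h + 5) ≤ 5 * ((M + 1) * (1 + h)) := by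
        have e1 : 5 * ((M + 1) * (1 + h)) = (M + 1) * (2 * h + 5) + (M + 1) * (3 * h) := by
          ring
        rw [e1]
        have : 0 ≤ (M + 1) * (3 * h) := by positivity
        linarith
      have q2 : (M + 1) * (th + (2 * h + 5) + (η + C3 * (1 + h))) = (M + 1) * (th + η) +
          (M + 1) * (2 * h + 5) + C3 * ((M + 1) * (1 + h)) := by ring
      rw [q2, add_mul 5 C3]
      linarith
    have g4 := mul_le_mul_of_nonneg_left (add_le_add_left g3 (X : ℝ)) hC1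
    have g5 := mul_le_mul_of_nonneg_left g2 hC2
    have g6 : C1 * ((M + 1) * (th + η) + (5 + C3) * ((M + 1) * (1 + h)) + X) =
        C1 * ((M + 1) * (th + η) + X) + C1 * (5 + C3) * ((M + 1) * (1 + h)) := by ring
    have g7 : C2 * ((M + 1) * (2 * (1 + (h : ℝ)))) = 2 * C2 * ((M + 1) * (1 + h)) := by ring
    rw [hu, add_mul (C1 * (5 + C3))]
    linarith
  have g9 : 0 ≤ M * (1 + h) := by positivity
  have g10 : 0 ≤ M * (th + η) := by positivity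
  have g11 : (nS : ℝ) * Real.log 2 ≤ (g S + 1) * Real.log 2 := mul_le_mul_of_nonneg_right hnS' hl2.le
  have g12 : (ns : ℝ) * Real.log 2 ≤ (g s + 1) * Real.log 2 := mul_le_mul_of_nonneg_right hns' hl2.le
  have g13 : g S * Real.log 2 ≤ nS * Real.log 2 := by
    refine mul_le_mul_of_nonneg_right ?_ hl2.le
    rw [hnS]
    exact Nat.le_ceil _
  rw [hη'] at s3
  have g14 : 0 ≤ C3 * (M * (1 + h)) := by positivity
  have g15 : 0 ≤ C3 * (1 + (h : ℝ)) := by positivity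
  have g16 : (C1 + 4) * ((M + 1) * (th + η) + X) = C1 * ((M + 1) * (th + η) + X) +
    (4 * (M * (th + η)) + 4 * (th + η) + 4 * X) := by ring
  have g17 : (C1 * (5 + C3) + 2 * C2 + 40 + 4 * C3) * ((M + 1) * (1 + (h : ℝ))) =
    (C1 * (5 + C3) + 2 * C2) * ((M + 1) * (1 + h)) + (40 * (M * (1 + h)) + 40 * (1 + h) +
      4 * (C3 * (M * (1 + h))) + 4 * (C3 * (1 + h))) := by ring
  rw [g16, g17]
  have g18 : ((E : ℝ) - g s) * Real.log 2 = E * Real.log 2 - g s * Real.log 2 := by ring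
  have g19 : ((E : ℝ) - g S) * Real.log 2 = E * Real.log 2 - g S * Real.log 2 := by ring
  have g20 : ((nS : ℝ) - g S) * Real.log 2 = nS * Real.log 2 - g S * Real.log 2 := by ring
  have g21 : ((nS : ℝ) - ns) * Real.log 2 = nS * Real.log 2 - ns * Real.log 2 := by ring
  rw [g18]
  rw [g19, g20] at s7
  rw [g21] at hrows
  have g22 : (g s + 1) * Real.log 2 ≤ g s * Real.log 2 + 1 := by linarith
  linarith only [s1, s2, s3, s4, s5, s6, s7, hrows, hu1, g9, g10, g12, g14, g15, g22, hth, hη, hh,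
    hX0]

end Pool.R2
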