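import Pool.Agent.H3.R2.Mka

/-!
# The exact lower coordinates

`mk3`: three coordinates `(y, z, v)`, two labels with different slopes. `vex`: the digits of the top
coordinate given the exact lower coordinates, in terms of all the digits.
-/

set_option autoImplicit false

namespace Pool.MKV

open Finset Real
open Pool.Agent.H49.Ent Pool.Agent.H32.Dense Pool.STK Pool.MKE

/-- A small logarithm. -/
theorem log_small {x : ℝ} (n : ℕ) (h1 : 0 < x) (h : x ≤ 2 ^ n) : Real.log x ≤ n := by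
  refine (Real.log_le_log h1 h).trans ?_
  rw [Real.log_pow]
  have h2 : (n : ℝ) * Real.log 2 ≤ n * 1 := by
    refine mul_le_mul_of_nonneg_left ?_ (Nat.cast_nonneg n)
    have := Real.log_two_lt_d9
    linarith
  linarith

section count

variable {Ω T : Type} [Fintype Ω] {c : ℕ} {p : Ω → ℝ}

/-- The digits of one coordinate. -/
theorem ch_one (hp : IsLaw p) (f : Ω → ℝ) (V : Ω → T) {R L : ℕ} (hRL : R ≤ L)
    (h : ∀ ω ω', 0 < p ω → 0 < p ω' → V ω = V ω' → |f ω - f ω'| ≤ 2 / 2 ^ R) :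
    CH p (fun ω => ⌊(2 : ℝ) ^ L * f ω⌋) V ≤ ((L : ℝ) - R) * Real.log 2 + 3 := by
  have h1 := CH_vecc hp (fun ω (_ : Fin 1) => ⌊(2 : ℝ) ^ L * f ω⌋) V
    (L := 2 * 2 ^ (L - R) + 1) (by
    intro ω ω' hω hω' hh _
    refine floor_two ?_
    rw [← mul_sub, abs_mul, abs_of_pos (by positivity)]
    refine (mul_le_mul_of_nonneg_left (h ω ω' hω hω' hh) (by positivity)).trans (le_of_eq ?_)
    have h2 : (2 : ℝ) ^ L = 2 ^ (L - R) * 2 ^ R := by
      rw [← pow_add]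
      congr 1
      omega
    rw [h2]
    field_simp)
  have h2 : CH p (fun ω => ⌊(2 : ℝ) ^ L * f ω⌋) V ≤
      CH p (fun ω (_ : Fin 1) => ⌊(2 : ℝ) ^ L * f ω⌋) V := by
    refine CH_mono_left hp.nonneg fun ω ω' _ _ hh => ?_
    exact congrFun (Prod.ext_iff.1 hh).1 0
  have h3 : Real.log (2 * (2 * (2 : ℝ) ^ (L - R) + 1) + 1) ≤ ((L : ℝ) - R) * Real.log 2 + 3 := by
    have hP : (1 : ℝ) ≤ 2 ^ (L - R) := one_le_pow₀ (by norm_num)
    have h4 : Real.log (2 * (2 * (2 : ℝ) ^ (L - R) + 1) + 1) ≤ Real.log (2 ^ (L - R) * 8) :=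
      Real.log_le_log (by positivity) (by linarith)
    rw [Real.log_mul (by positivity) (by norm_num), Real.log_pow, Nat.cast_sub hRL] at h4
    have h5 := log_small (x := 8) 3 (by norm_num) (by norm_num)
    push_cast at h5
    linarith
  push_cast at h1
  linarith

/-- The digits of several coordinates. -/
theorem ch_many (hp : IsLaw p) (X : Ω → Fin c → ℝ) (V : Ω → T) {R L : ℕ} (hRL : R ≤ L)
    (h : ∀ ω ω', 0 < p ω → 0 < p ω' → V ω = V ω' → ∀ j, |X ω j - X ω' j| ≤ 2 / 2 ^ R) :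
    CH p (fun ω => fl L (X ω)) V ≤ c * (((L : ℝ) - R) * Real.log 2 + 3) := by
  have h1 := CH_vecc hp (fun ω => fl L (X ω)) V (L := 2 * 2 ^ (L - R) + 1) (by
    intro ω ω' hω hω' hh j
    refine floor_two ?_
    rw [← mul_sub, abs_mul, abs_of_pos (by positivity)]
    refine (mul_le_mul_of_nonneg_left (h ω ω' hω hω' hh j) (by positivity)).trans (le_of_eq ?_)
    have h2 : (2 : ℝ) ^ L = 2 ^ (L - R) * 2 ^ R := by
      rw [← pow_add]
      congr 1
      omega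
    rw [h2]
    field_simp)
  have h3 : Real.log (2 * (2 * (2 : ℝ) ^ (L - R) + 1) + 1) ≤ ((L : ℝ) - R) * Real.log 2 + 3 := by
    have hP : (1 : ℝ) ≤ 2 ^ (L - R) := one_le_pow₀ (by norm_num)
    have h4 : Real.log (2 * (2 * (2 : ℝ) ^ (L - R) + 1) + 1) ≤ Real.log (2 ^ (L - R) * 8) :=
      Real.log_le_log (by positivity) (by linarith)
    rw [Real.log_mul (by positivity) (by norm_num), Real.log_pow, Nat.cast_sub hRL] at h4
    have h5 := log_small (x := 8) 3 (by norm_num) (by norm_num)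
    push_cast at h5
    linarith
  exact h1.trans (mul_le_mul_of_nonneg_left h3 (Nat.cast_nonneg c))

/-- Coordinates which are almost known. -/
theorem ch_few (hp : IsLaw p) (X : Ω → Fin c → ℝ) (V : Ω → T) {L : ℕ} {B₀ : ℝ} (hB : 1 ≤ B₀)
    (h : ∀ ω ω', 0 < p ω → 0 < p ω' → V ω = V ω' → ∀ j, |X ω j - X ω' j| ≤ B₀ / 2 ^ L) :
    CH p (fun ω => fl L (X ω)) V ≤ c * (3 + Real.log B₀) := by
  have h1 := CH_vecc hp (fun ω => fl L (X ω)) V (L := B₀ + 1) (by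
    intro ω ω' hω hω' hh j
    refine floor_two ?_
    rw [← mul_sub, abs_mul, abs_of_pos (by positivity)]
    refine (mul_le_mul_of_nonneg_left (h ω ω' hω hω' hh j) (by positivity)).trans (le_of_eq ?_)
    field_simp)
  have h3 : Real.log (2 * (B₀ + 1) + 1) ≤ 3 + Real.log B₀ := by
    have h4 : Real.log (2 * (B₀ + 1) + 1) ≤ Real.log (8 * B₀) :=
      Real.log_le_log (by positivity) (by linarith)
    rw [Real.log_mul (by norm_num) (by linarith)] at h4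
    have h5 := log_small (x := 8) 3 (by norm_num) (by norm_num)
    push_cast at h5
    linarith
  exact h1.trans (mul_le_mul_of_nonneg_left h3 (Nat.cast_nonneg c))

end count

/-- The basis of `mk3`. -/
noncomputable def bas3 (bz : Fin 2) (s1 s2 : Fin 2 → ℝ) : Fin 3 → Fin 3 → ℝ :=
  ![![1, 0, s1 0], ![0, 1, s1 1], ![if bz = 0 then 1 else 0, if bz = 0 then 0 else 1, s2 bz]]

theorem bas3_det (bz : Fin 2) (s1 s2 : Fin 2 → ℝ) :
    |(Matrix.of (bas3 bz s1 s2)).det| = |s2 bz - s1 bz| := by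
  unfold bas3
  rw [Matrix.det_fin_three]
  fin_cases bz <;> simp

theorem bas3_abs (bz : Fin 2) (s1 s2 : Fin 2 → ℝ) (h1 : ∀ b, |s1 b| ≤ 1) (h2 : ∀ b, |s2 b| ≤ 1)
    (i j : Fin 3) : |bas3 bz s1 s2 i j| ≤ 1 := by
  unfold bas3
  fin_cases bz <;> fin_cases i <;> fin_cases j <;> simp [h1, h2]

/-- **Three coordinates, two labels.** -/
theorem mk3 : ∃ C : ℝ, 0 ≤ C ∧ ∀ {Ω κ α β : Type} [Fintype Ω] {p : Ω → ℝ}, IsLaw p →
    ∀ {x : Ω → Fin 3 → ℝ} {K1 : Ω → α} {K2 : Ω → β} {W : Ω → κ} {s1 s2 : Ω → Fin 2 → ℝ}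
    {Kd B₀ e1 e2 : ℝ} {R L : ℕ} (bz : Fin 2), 1 ≤ Kd → 1 ≤ B₀ → R ≤ L →
    (∀ ω, 0 < p ω → ∀ b, |s1 ω b| ≤ 1) → (∀ ω, 0 < p ω → ∀ b, |s2 ω b| ≤ 1) →
    (∀ ω, 0 < p ω → 1 / Kd ≤ |s2 ω bz - s1 ω bz|) →
    (∀ ω ω', 0 < p ω → 0 < p ω' → fl R (x ω) = fl R (x ω') → K1 ω = K1 ω' → W ω = W ω' →
      |x ω 2 - x ω' 2 - (s1 ω 0 * (x ω 0 - x ω' 0) + s1 ω 1 * (x ω 1 - x ω' 1))| ≤ B₀ / 2 ^ L) →
    (∀ ω ω', 0 < p ω → 0 < p ω' → fl R (x ω) = fl R (x ω') → K2 ω = K2 ω' → W ω = W ω' →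
      |x ω 2 - x ω' 2 - (s2 ω 0 * (x ω 0 - x ω' 0) + s2 ω 1 * (x ω 1 - x ω' 1))| ≤ B₀ / 2 ^ L) →
    2 * (((L : ℝ) - R) * Real.log 2) - e1 ≤
      CH p (fun ω => fl L ![x ω 0, x ω 1]) (fun ω => (fl R (x ω), (K1 ω, W ω))) →
    2 * (((L : ℝ) - R) * Real.log 2) - e2 ≤
      CH p (fun ω => fl L ![x ω 0, x ω 1]) (fun ω => (fl R (x ω), (K2 ω, W ω))) →
    3 * (((L : ℝ) - R) * Real.log 2) - (e1 + e2 +
      C * (√(((L : ℝ) - R) * (1 + Real.log Kd + Real.log B₀)) +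
        (1 + Real.log Kd + Real.log B₀))) ≤
      CH p (fun ω => fl L (x ω)) (fun ω => (fl R (x ω), W ω)) := by
  obtain ⟨C, hC, h⟩ := mkd 3 2
  refine ⟨2 * C + 3, by positivity, ?_⟩
  intro Ω κ α β _ p hp x K1 K2 W s1 s2 Kd B₀ e1 e2 R L bz hK hB hRL hs1 hs2 hdet hl1 hl2 hf1 hf2
  have hp0 := hp.nonneg
  have hLR : (0 : ℝ) ≤ (L : ℝ) - R := by
    have : (R : ℝ) ≤ L := by exact_mod_cast hRL
    linarith
  -- the other coordinate
  obtain ⟨oc, hoc⟩ : ∃ oc : Ω → ℤ, oc = fun ω => ⌊(2 : ℝ) ^ L * (if bz = 0 then x ω 1 else x ω 0)⌋ :=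
    ⟨_, rfl⟩
  obtain ⟨lam, hlam⟩ : ∃ lam : Fin 2 → Ω → α ⊕ (β × ℤ), lam = fun a ω =>
    if a = 0 then Sum.inl (K1 ω) else Sum.inr (K2 ω, oc ω) := ⟨_, rfl⟩
  have hlam0 : ∀ ω, lam 0 ω = Sum.inl (K1 ω) := fun ω => by rw [hlam]; rfl
  have hlam1 : ∀ ω, lam 1 ω = Sum.inr (K2 ω, oc ω) := fun ω => by rw [hlam]; rfl
  have key := h hp (x := x) (d := fun ω => bas3 bz (s1 ω) (s2 ω)) (Kd := Kd) (B₀ := B₀ + 1)
    (R := R) (L := L) hK (by linarith) hRL
    (fun ω hω i j => bas3_abs bz (s1 ω) (s2 ω) (hs1 ω hω) (hs2 ω hω) i j)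
    (fun ω hω => by
      rw [bas3_det]
      exact hdet ω hω)
    ![(0 : Fin 2), 0, 1] (Λ := fun _ => α ⊕ (β × ℤ))
    lam W (by
    intro a ω ω' hω hω' g1 g2 g3
    by_cases ha : a = 0
    · subst ha
      rw [hlam0, hlam0] at g2
      have g4 := hl1 ω ω' hω hω' g1 (Sum.inl.inj g2) g3
      refine ⟨![x ω 0 - x ω' 0, x ω 1 - x ω' 1, 0], ?_, ?_⟩
      · intro i hi
        fin_cases i
        · exact absurd rfl hi
        · exact absurd rfl hi
        · rfl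
      · intro j
        rw [Fin.sum_univ_three]
        have hpos : (0 : ℝ) ≤ (B₀ + 1) / 2 ^ L := by positivity
        fin_cases j
        · simp [bas3]
          exact hpos
        · simp [bas3]
          exact hpos
        · simp [bas3]
          have q1 : x ω 2 - x ω' 2 - ((x ω 0 - x ω' 0) * s1 ω 0 + (x ω 1 - x ω' 1) * s1 ω 1) =
            x ω 2 - x ω' 2 - (s1 ω 0 * (x ω 0 - x ω' 0) + s1 ω 1 * (x ω 1 - x ω' 1)) := by ring
          rw [q1]
          exact g4.trans (div_le_div_of_nonneg_right (by linarith) (by positivity))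
    · have ha1 : a = 1 := by omega
      subst ha1
      rw [hlam1, hlam1] at g2
      have g5 := Prod.ext_iff.1 (Sum.inr.inj g2)
      have g4 := hl2 ω ω' hω hω' g1 g5.1 g3
      have g6 := g5.2
      simp only at g6
      rw [hoc] at g6
      have hpos : (0 : ℝ) ≤ (B₀ + 1) / 2 ^ L := by positivity
      have q0 := floor_same g6
      rw [← mul_sub, abs_mul, abs_of_pos (by positivity : (0 : ℝ) < 2 ^ L)] at q0
      have q1 : |(if bz = 0 then x ω 1 else x ω 0) - (if bz = 0 then x ω' 1 else x ω' 0)| ≤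
          1 / 2 ^ L := by
        rw [le_div_iff₀ (by positivity), mul_comm]
        exact q0
      have q2 : (1 : ℝ) / 2 ^ L ≤ (B₀ + 1) / 2 ^ L :=
        div_le_div_of_nonneg_right (by linarith) (by positivity)
      have hs := hs2 ω hω
      refine ⟨![0, 0, if bz = 0 then x ω 0 - x ω' 0 else x ω 1 - x ω' 1], ?_, ?_⟩
      · intro i hi
        fin_cases i
        · rfl
        · rfl
        · exact absurd rfl hi
      · intro j
        rw [Fin.sum_univ_three]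
        have q3 : ∀ u w t : ℝ, |w| ≤ 1 / 2 ^ L → |t| ≤ 1 → |u - t * w| ≤ B₀ / 2 ^ L →
            |u| ≤ (B₀ + 1) / 2 ^ L := by
          intro u w t hw ht hu
          have r1 : u = (u - t * w) + t * w := by ring
          rw [r1]
          refine (abs_add_le _ _).trans ?_
          rw [add_div]
          refine add_le_add hu ?_
          rw [abs_mul]
          calc |t| * |w| ≤ 1 * (1 / 2 ^ L) := mul_le_mul ht hw (abs_nonneg _) zero_le_one
            _ = _ := one_mul _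
        fin_cases bz
        · simp only [Fin.zero_eta, if_true] at q1
          fin_cases j
          · simp [bas3]
            exact hpos
          · simp [bas3]
            refine q1.trans ?_
            exact q2
          · simp [bas3]
            refine q3 _ (x ω 1 - x ω' 1) (s2 ω 1) q1 (hs 1) ?_
            have r1 : x ω 2 - x ω' 2 - (x ω 0 - x ω' 0) * s2 ω 0 - s2 ω 1 * (x ω 1 - x ω' 1) =
              x ω 2 - x ω' 2 - (s2 ω 0 * (x ω 0 - x ω' 0) + s2 ω 1 * (x ω 1 - x ω' 1)) := by ring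
            rw [r1]
            exact g4
        · simp only [Fin.mk_one, one_ne_zero, if_false] at q1
          fin_cases j
          · simp [bas3]
            exact q1.trans q2
          · simp [bas3]
            exact hpos
          · simp [bas3]
            refine q3 _ (x ω 0 - x ω' 0) (s2 ω 0) q1 (hs 0) ?_
            have r1 : x ω 2 - x ω' 2 - (x ω 1 - x ω' 1) * s2 ω 1 - s2 ω 0 * (x ω 0 - x ω' 0) =
              x ω 2 - x ω' 2 - (s2 ω 0 * (x ω 0 - x ω' 0) + s2 ω 1 * (x ω 1 - x ω' 1)) := by ring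
            rw [r1]
            exact g4)
  rw [Fin.sum_univ_two] at key
  -- the first label
  have f1 : 2 * (((L : ℝ) - R) * Real.log 2) - e1 ≤ CH p (fun ω => fl L (x ω)) (fun ω =>
      (fl R (x ω), (lam 0 ω, W ω))) := by
    refine hf1.trans ?_
    have g1 : CH p (fun ω => fl L ![x ω 0, x ω 1]) (fun ω => (fl R (x ω), (K1 ω, W ω))) ≤
        CH p (fun ω => fl L (x ω)) (fun ω => (fl R (x ω), (K1 ω, W ω))) := by
      refine CH_mono_left hp0 fun ω ω' _ _ hh => ?_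
      have h1 : fl L (x ω) = fl L (x ω') := (Prod.ext_iff.1 hh).1
      refine funext fun b => ?_
      fin_cases b
      · exact congrFun h1 0
      · exact congrFun h1 1
    refine g1.trans (CH_mono_cond hp0 fun ω ω' _ _ hh => ?_)
    simp only [Prod.mk.injEq] at hh ⊢
    rw [hlam0, hlam0, hh.2.1]
    exact ⟨hh.1, rfl, hh.2.2⟩
  -- the second label
  have f2 : ((L : ℝ) - R) * Real.log 2 - 3 - e2 ≤ CH p (fun ω => fl L (x ω)) (fun ω =>
      (fl R (x ω), (lam 1 ω, W ω))) := by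
    have g1 := CH_le_add hp0 (fun ω => fl L ![x ω 0, x ω 1]) oc (fun ω => (fl R (x ω), (K2 ω, W ω)))
    have g2 : CH p oc (fun ω => (fl R (x ω), (K2 ω, W ω))) ≤ ((L : ℝ) - R) * Real.log 2 + 3 := by
      rw [hoc]
      refine ch_one hp (fun ω => if bz = 0 then x ω 1 else x ω 0) _ hRL ?_
      intro ω ω' _ _ hh
      have h1 : fl R (x ω) = fl R (x ω') := (Prod.ext_iff.1 hh).1
      have h2 : ∀ j, |x ω j - x ω' j| ≤ 2 / 2 ^ R := by
        intro j
        have h3 := fl_same h1 j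
        rw [le_div_iff₀ (by positivity), mul_comm]
        linarith
      by_cases hb : bz = 0
      · simp only [hb, if_true]
        exact h2 1
      · simp only [hb, if_false]
        exact h2 0
    have g3 : CH p (fun ω => fl L ![x ω 0, x ω 1]) (fun ω => (oc ω, (fl R (x ω), (K2 ω, W ω)))) ≤
        CH p (fun ω => fl L (x ω)) (fun ω => (oc ω, (fl R (x ω), (K2 ω, W ω)))) := by
      refine CH_mono_left hp0 fun ω ω' _ _ hh => ?_
      have h1 : fl L (x ω) = fl L (x ω') := (Prod.ext_iff.1 hh).1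
      refine funext fun b => ?_
      fin_cases b
      · exact congrFun h1 0
      · exact congrFun h1 1
    have g4 : CH p (fun ω => fl L (x ω)) (fun ω => (oc ω, (fl R (x ω), (K2 ω, W ω)))) ≤
        CH p (fun ω => fl L (x ω)) (fun ω => (fl R (x ω), (lam 1 ω, W ω))) := by
      refine CH_mono_cond hp0 fun ω ω' _ _ hh => ?_
      simp only [Prod.mk.injEq] at hh ⊢
      rw [hlam1, hlam1, hh.1, hh.2.2.1]
      exact ⟨hh.2.1, rfl, hh.2.2.2⟩
    linarith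
  have lK := Real.log_nonneg hK
  have lB := Real.log_nonneg hB
  have lB' : Real.log (B₀ + 1) ≤ 1 + Real.log B₀ := by
    have h4 : Real.log (B₀ + 1) ≤ Real.log (2 * B₀) :=
      Real.log_le_log (by linarith) (by linarith)
    rw [Real.log_mul (by norm_num) (by linarith)] at h4
    have := Real.log_two_lt_d9
    linarith
  obtain ⟨τ, hτ⟩ : ∃ τ, τ = 1 + Real.log Kd + Real.log B₀ := ⟨_, rfl⟩
  obtain ⟨τ', hτ'⟩ : ∃ τ', τ' = 1 + Real.log Kd + Real.log (B₀ + 1) := ⟨_, rfl⟩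
  rw [← hτ'] at key
  rw [← hτ]
  have t1 : τ' ≤ 2 * τ := by linarith
  have t2 : √(((L : ℝ) - R) * τ') ≤ 2 * √(((L : ℝ) - R) * τ) := by
    have t3 : √(((L : ℝ) - R) * τ') ≤ √(2 ^ 2 * (((L : ℝ) - R) * τ)) := by
      refine Real.sqrt_le_sqrt ?_
      have t4 : ((L : ℝ) - R) * τ' ≤ ((L : ℝ) - R) * (2 * τ) := mul_le_mul_of_nonneg_left t1 hLR
      have t5 : 0 ≤ ((L : ℝ) - R) * τ := mul_nonneg hLR (by linarith)
      nlinarith
    have t4 := Real.sqrt_mul (show (0 : ℝ) ≤ 2 ^ 2 by norm_num) (((L : ℝ) - R) * τ)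
    rw [Real.sqrt_sq (by norm_num)] at t4
    rw [t4] at t3
    exact t3
  have t6 := Real.sqrt_nonneg (((L : ℝ) - R) * τ)
  have t7 : C * (√(((L : ℝ) - R) * τ') + τ') ≤ 2 * C * (√(((L : ℝ) - R) * τ) + τ) := by
    have := mul_le_mul_of_nonneg_left (add_le_add t2 t1) hC
    linarith
  have t8 : 3 ≤ 3 * (√(((L : ℝ) - R) * τ) + τ) := by linarith
  have t9 : (2 * C + 3) * (√(((L : ℝ) - R) * τ) + τ) =
    2 * C * (√(((L : ℝ) - R) * τ) + τ) + 3 * (√(((L : ℝ) - R) * τ) + τ) := by ring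
  rw [t9]
  linarith

/-! ### The count with an auxiliary label -/

section shannon

variable {Ω α β δ υ κ : Type} [Fintype Ω] {p : Ω → ℝ}

/-- The chain rule, both orders. -/
theorem CH_swap (hp0 : ∀ ω, 0 ≤ p ω) (X : Ω → α) (Y : Ω → β) (W : Ω → κ) :
    CH p Y W + CH p X (fun ω => (Y ω, W ω)) = CH p X W + CH p Y (fun ω => (X ω, W ω)) := by
  rw [← CH_chain hp0, ← CH_chain hp0]
  refine CH_congr hp0 ?_ ?_ (fun _ _ _ _ h => h) (fun _ _ _ _ h => h)
  · intro ω ω' _ _ hh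
    simp only [Prod.mk.injEq] at hh ⊢
    exact ⟨hh.1.2, hh.1.1⟩
  · intro ω ω' _ _ hh
    simp only [Prod.mk.injEq] at hh ⊢
    exact ⟨hh.1.2, hh.1.1⟩

/-- **The count with an auxiliary label.** -/
theorem vexc (hp0 : ∀ ω, 0 ≤ p ω) (V : Ω → δ) (B : Ω → β) (A : Ω → α) (Y : Ω → υ) (W : Ω → κ)
    {a1 a2 a3 a4 : ℝ} (h1 : a1 ≤ CH p Y (fun ω => (A ω, W ω)))
    (h2 : CH p Y (fun ω => (A ω, (B ω, W ω))) ≤ a2) (h3 : a3 ≤ CH p V (fun ω => (B ω, W ω)))
    (h4 : CH p B (fun ω => (V ω, W ω)) ≤ a4) : a1 - a2 + a3 - a4 ≤ CH p V W := by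
  have e1 : CH p B (fun ω => (A ω, W ω)) ≤ CH p B W :=
    CH_mono_cond hp0 fun ω ω' _ _ hh => (Prod.ext_iff.1 hh).2
  have e2 := CH_le_add hp0 Y B (fun ω => (A ω, W ω))
  have e3 : CH p Y (fun ω => (B ω, (A ω, W ω))) ≤ CH p Y (fun ω => (A ω, (B ω, W ω))) := by
    refine CH_mono_cond hp0 fun ω ω' _ _ hh => ?_
    simp only [Prod.mk.injEq] at hh ⊢
    tauto
  have e4 := CH_swap hp0 V B W
  linarith

/-- The complement of a known variable. -/
theorem ch_rest (hp0 : ∀ ω, 0 ≤ p ω) (V : Ω → δ) (X : Ω → υ) (W : Ω → κ) :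
    CH p V W - CH p X W ≤ CH p V (fun ω => (X ω, W ω)) := by
  have e1 := CH_le_add hp0 V X W
  linarith

end shannon

/-- The first digits in a leaf. -/
theorem ch_leaf {Ω α κ : Type} [Fintype Ω] {p : Ω → ℝ} (hp : IsLaw p) {x : Ω → Fin 4 → ℝ}
    {A : Ω → α} {W : Ω → κ} {s n : Ω → Fin 2 → ℝ} {B₀ : ℝ} {R : ℕ} (hB : 1 ≤ B₀)
    (hx : ∀ ω, 0 < p ω → ∀ j, |x ω j| ≤ 1)
    (hs : ∀ ω, 0 < p ω → ∀ b, |s ω b| ≤ 1) (hn : ∀ ω, 0 < p ω → ∀ b, |n ω b| ≤ 1)
    (hv : ∀ ω ω', 0 < p ω → 0 < p ω' → A ω = A ω' → W ω = W ω' →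
      |x ω 2 - x ω' 2 - (s ω 0 * (x ω 0 - x ω' 0) + s ω 1 * (x ω 1 - x ω' 1))| ≤ B₀ / 2 ^ R)
    (hN : ∀ ω ω', 0 < p ω → 0 < p ω' → A ω = A ω' → W ω = W ω' →
      |x ω 3 - x ω' 3 - (n ω 0 * (x ω 0 - x ω' 0) + n ω 1 * (x ω 1 - x ω' 1))| ≤ B₀ / 2 ^ R) :
    CH p (fun ω => fl R (x ω)) (fun ω => (A ω, W ω)) ≤
      2 * (R * Real.log 2) + (30 + 4 * Real.log B₀) := by
  have hp0 := hp.nonneg
  have e1 := CH_le_add hp0 (fun ω => fl R (x ω)) (fun ω => fl R ![x ω 0, x ω 1])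
    (fun ω => (A ω, W ω))
  have e2 := ch_many hp (fun ω => ![x ω 0, x ω 1]) (fun ω => (A ω, W ω)) (R := 0) (L := R)
    (Nat.zero_le _) (by
      intro ω ω' hω hω' _ j
      have g1 := hx ω hω
      have g2 := hx ω' hω'
      have g3 : ∀ i, |x ω i - x ω' i| ≤ 2 / 2 ^ 0 := by
        intro i
        have g4 := abs_sub (x ω i) (x ω' i)
        have g5 := g1 i
        have g6 := g2 i
        rw [pow_zero, div_one]
        linarith
      fin_cases j
      · exact g3 0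
      · exact g3 1)
  have e3 := ch_few hp x (fun ω => (fl R ![x ω 0, x ω 1], (A ω, W ω))) (L := R) (B₀ := B₀ + 2)
    (by linarith) (by
      intro ω ω' hω hω' hh j
      simp only [Prod.mk.injEq] at hh
      have g0 : ∀ b : Fin 2, |(![x ω 0, x ω 1] : Fin 2 → ℝ) b - (![x ω' 0, x ω' 1] : Fin 2 → ℝ) b| ≤
          1 / 2 ^ R := by
        intro b
        have g1 := fl_same hh.1 b
        rw [le_div_iff₀ (by positivity), mul_comm]
        exact g1
      have g1 : |x ω 0 - x ω' 0| ≤ 1 / 2 ^ R := g0 0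
      have g2 : |x ω 1 - x ω' 1| ≤ 1 / 2 ^ R := g0 1
      have hpos : (1 : ℝ) / 2 ^ R ≤ (B₀ + 2) / 2 ^ R :=
        div_le_div_of_nonneg_right (by linarith) (by positivity)
      have key : ∀ (u : ℝ) (t : Fin 2 → ℝ), (∀ b, |t b| ≤ 1) →
          |u - (t 0 * (x ω 0 - x ω' 0) + t 1 * (x ω 1 - x ω' 1))| ≤ B₀ / 2 ^ R →
          |u| ≤ (B₀ + 2) / 2 ^ R := by
        intro u t ht hu
        have r1 : u = (u - (t 0 * (x ω 0 - x ω' 0) + t 1 * (x ω 1 - x ω' 1))) +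
          (t 0 * (x ω 0 - x ω' 0) + t 1 * (x ω 1 - x ω' 1)) := by ring
        have r2 : ∀ b : Fin 2, ∀ w : ℝ, |w| ≤ 1 / 2 ^ R → |t b * w| ≤ 1 / 2 ^ R := by
          intro b w hw
          rw [abs_mul]
          calc |t b| * |w| ≤ 1 * (1 / 2 ^ R) := mul_le_mul (ht b) hw (abs_nonneg _) zero_le_one
            _ = _ := one_mul _
        rw [r1]
        refine (abs_add_le _ _).trans ?_
        have r3 := abs_add_le (t 0 * (x ω 0 - x ω' 0)) (t 1 * (x ω 1 - x ω' 1))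
        have r4 := r2 0 _ g1
        have r5 := r2 1 _ g2
        have r6 : (B₀ + 2) / 2 ^ R = B₀ / 2 ^ R + (1 / 2 ^ R + 1 / 2 ^ R) := by ring
        rw [r6]
        linarith
      fin_cases j
      · exact g1.trans hpos
      · exact g2.trans hpos
      · exact key _ (s ω) (hs ω hω) (hv ω ω' hω hω' hh.2.1 hh.2.2)
      · exact key _ (n ω) (hn ω hω) (hN ω ω' hω hω' hh.2.1 hh.2.2))
  have e4 : Real.log (B₀ + 2) ≤ 2 + Real.log B₀ := by
    have h4 : Real.log (B₀ + 2) ≤ Real.log (4 * B₀) :=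
      Real.log_le_log (by linarith) (by linarith)
    rw [Real.log_mul (by norm_num) (by linarith)] at h4
    have h5 := log_small (x := 4) 2 (by norm_num) (by norm_num)
    push_cast at h5
    linarith
  push_cast at e2 e3
  rw [sub_zero] at e2
  linarith

/-- **Two separated leaves.** -/
theorem two_leaf {Ω α β κ : Type} [Fintype Ω] {p : Ω → ℝ} (hp : IsLaw p) {x : Ω → Fin 4 → ℝ}
    {A : Ω → α} {B : Ω → β} {W : Ω → κ} {s1 s2 : Ω → Fin 2 → ℝ} {B₀ Kd : ℝ} {R L : ℕ}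
    (bz : Fin 2) (hRL : R ≤ L) (hB : 1 ≤ B₀) (hK : 1 ≤ Kd)
    (hs1 : ∀ ω, 0 < p ω → ∀ b, |s1 ω b| ≤ 1) (hs2 : ∀ ω, 0 < p ω → ∀ b, |s2 ω b| ≤ 1)
    (hd : ∀ ω, 0 < p ω → 1 / Kd ≤ |s2 ω bz - s1 ω bz|)
    (hv1 : ∀ ω ω', 0 < p ω → 0 < p ω' → A ω = A ω' → W ω = W ω' →
      |x ω 2 - x ω' 2 - (s1 ω 0 * (x ω 0 - x ω' 0) + s1 ω 1 * (x ω 1 - x ω' 1))| ≤ B₀ / 2 ^ L)
    (hv2 : ∀ ω ω', 0 < p ω → 0 < p ω' → B ω = B ω' → W ω = W ω' →
      |x ω 2 - x ω' 2 - (s2 ω 0 * (x ω 0 - x ω' 0) + s2 ω 1 * (x ω 1 - x ω' 1))| ≤ B₀ / 2 ^ L) :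
    CH p (fun ω => fl L ![x ω 0, x ω 1]) (fun ω => (A ω, (B ω, (fl R (x ω), W ω)))) ≤
      ((L : ℝ) - R) * Real.log 2 + (13 + 2 * (Real.log Kd + Real.log B₀)) := by
  have hp0 := hp.nonneg
  have hK0 : 0 < Kd := by linarith
  obtain ⟨oc, hoc⟩ : ∃ oc : Ω → ℤ, oc = fun ω => ⌊(2 : ℝ) ^ L * (if bz = 0 then x ω 1 else x ω 0)⌋ :=
    ⟨_, rfl⟩
  have e1 := CH_le_add hp0 (fun ω => fl L ![x ω 0, x ω 1]) oc
    (fun ω => (A ω, (B ω, (fl R (x ω), W ω))))
  have e2 : CH p oc (fun ω => (A ω, (B ω, (fl R (x ω), W ω)))) ≤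
      ((L : ℝ) - R) * Real.log 2 + 3 := by
    rw [hoc]
    refine ch_one hp (fun ω => if bz = 0 then x ω 1 else x ω 0) _ hRL ?_
    intro ω ω' _ _ hh
    simp only [Prod.mk.injEq] at hh
    have h1 : fl R (x ω) = fl R (x ω') := hh.2.2.1
    have h2 : ∀ j, |x ω j - x ω' j| ≤ 2 / 2 ^ R := by
      intro j
      have h3 := fl_same h1 j
      rw [le_div_iff₀ (by positivity), mul_comm]
      linarith
    by_cases hb : bz = 0
    · simp only [hb, if_true]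
      exact h2 1
    · simp only [hb, if_false]
      exact h2 0
  have e3 := ch_few hp (fun ω => ![x ω 0, x ω 1])
    (fun ω => (oc ω, (A ω, (B ω, (fl R (x ω), W ω))))) (L := L) (B₀ := Kd * (2 * B₀ + 2))
    (by nlinarith) (by
      intro ω ω' hω hω' hh
      simp only [Prod.mk.injEq] at hh
      obtain ⟨h0, h1, h2, h3, h4⟩ := hh
      have g1 := hv1 ω ω' hω hω' h1 h4
      have g2 := hv2 ω ω' hω hω' h2 h4
      rw [hoc] at h0
      have q0 := floor_same h0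
      rw [← mul_sub, abs_mul, abs_of_pos (by positivity : (0 : ℝ) < 2 ^ L)] at q0
      have q1 : |(if bz = 0 then x ω 1 else x ω 0) - (if bz = 0 then x ω' 1 else x ω' 0)| ≤
          1 / 2 ^ L := by
        rw [le_div_iff₀ (by positivity), mul_comm]
        exact q0
      have hP : (0 : ℝ) < 2 ^ L := by positivity
      have big : (1 : ℝ) / 2 ^ L ≤ Kd * (2 * B₀ + 2) / 2 ^ L :=
        div_le_div_of_nonneg_right (by nlinarith) hP.le
      have d1 := hd ω hω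
      have t1 := hs1 ω hω
      have t2 := hs2 ω hω
      -- the separated coordinate
      have key : ∀ (u w a b a' b' : ℝ), |a| ≤ 1 → |a'| ≤ 1 → |u| ≤ 1 / 2 ^ L →
          1 / Kd ≤ |b' - b| → |x ω 2 - x ω' 2 - (a * u + b * w)| ≤ B₀ / 2 ^ L →
          |x ω 2 - x ω' 2 - (a' * u + b' * w)| ≤ B₀ / 2 ^ L →
          |w| ≤ Kd * (2 * B₀ + 2) / 2 ^ L := by
        intro u w a b a' b' ha ha' hu hb hc hc'
        have r1 : (b' - b) * w = (x ω 2 - x ω' 2 - (a * u + b * w)) -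
          (x ω 2 - x ω' 2 - (a' * u + b' * w)) - (a' - a) * u := by ring
        have r2 : |(b' - b) * w| ≤ (2 * B₀ + 2) / 2 ^ L := by
          rw [r1]
          refine (abs_sub _ _).trans ?_
          have r3 := abs_sub (x ω 2 - x ω' 2 - (a * u + b * w))
            (x ω 2 - x ω' 2 - (a' * u + b' * w))
          have r4 : |(a' - a) * u| ≤ 2 * (1 / 2 ^ L) := by
            rw [abs_mul]
            refine mul_le_mul ?_ hu (abs_nonneg _) (by norm_num)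
            have := abs_sub a' a
            linarith
          have r5 : (2 * B₀ + 2) / 2 ^ L = B₀ / 2 ^ L + B₀ / 2 ^ L + 2 * (1 / 2 ^ L) := by ring
          rw [r5]
          linarith
        rw [abs_mul] at r2
        have r3 : 1 / Kd * |w| ≤ (2 * B₀ + 2) / 2 ^ L :=
          (mul_le_mul_of_nonneg_right hb (abs_nonneg _)).trans r2
        have r4 : |w| = Kd * (1 / Kd * |w|) := by field_simp
        rw [r4, mul_div_assoc]
        exact mul_le_mul_of_nonneg_left r3 hK0.le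
      intro j
      fin_cases bz
      · simp only [Fin.zero_eta, if_true] at q1 d1
        fin_cases j
        · refine key (x ω 1 - x ω' 1) (x ω 0 - x ω' 0) (s1 ω 1) (s1 ω 0) (s2 ω 1) (s2 ω 0) (t1 1)
            (t2 1) q1 d1 ?_ ?_
          · rw [add_comm (s1 ω 1 * (x ω 1 - x ω' 1))]
            exact g1
          · rw [add_comm (s2 ω 1 * (x ω 1 - x ω' 1))]
            exact g2
        · exact q1.trans big
      · simp only [Fin.mk_one, one_ne_zero, if_false] at q1 d1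
        fin_cases j
        · exact q1.trans big
        · exact key (x ω 0 - x ω' 0) (x ω 1 - x ω' 1) (s1 ω 0) (s1 ω 1) (s2 ω 0) (s2 ω 1) (t1 0)
            (t2 0) q1 d1 g1 g2)
  have e4 : Real.log (Kd * (2 * B₀ + 2)) ≤ 2 + Real.log Kd + Real.log B₀ := by
    have h4 : Real.log (Kd * (2 * B₀ + 2)) ≤ Real.log (4 * (Kd * B₀)) :=
      Real.log_le_log (by positivity) (by nlinarith)
    have hKB : Kd * B₀ ≠ 0 := mul_ne_zero hK0.ne' (by linarith)
    have h6 : Real.log (4 * (Kd * B₀)) = Real.log 4 + (Real.log Kd + Real.log B₀) := by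
      rw [Real.log_mul (by norm_num) hKB, Real.log_mul hK0.ne' (by linarith)]
    have h5 := log_small (x := 4) 2 (by norm_num) (by norm_num)
    push_cast at h5
    linarith
  push_cast at e3
  linarith

/-- **The digits of the top coordinate given the exact lower coordinates**, in terms of all the
digits: `B` is the own label, `A` another label, with separated leaves. -/
theorem nf4 {Ω α β δ κ : Type} [Fintype Ω] {p : Ω → ℝ} (hp : IsLaw p) {x : Ω → Fin 4 → ℝ}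
    {A : Ω → α} {B : Ω → β} {V : Ω → δ} {W : Ω → κ} {s1 s2 n1 n2 : Ω → Fin 2 → ℝ}
    {B₀ Kd e1 e3 e4 Lz mu h : ℝ} {R L : ℕ} (bz : Fin 2) (hRL : R ≤ L) (hB : 1 ≤ B₀) (hK : 1 ≤ Kd)
    (hx : ∀ ω, 0 < p ω → ∀ j, |x ω j| ≤ 1)
    (hs1 : ∀ ω, 0 < p ω → ∀ b, |s1 ω b| ≤ 1) (hs2 : ∀ ω, 0 < p ω → ∀ b, |s2 ω b| ≤ 1)
    (hn1 : ∀ ω, 0 < p ω → ∀ b, |n1 ω b| ≤ 1) (hn2 : ∀ ω, 0 < p ω → ∀ b, |n2 ω b| ≤ 1)
    (hd : ∀ ω, 0 < p ω → 1 / Kd ≤ |s2 ω bz - s1 ω bz|)
    (hv1 : ∀ ω ω', 0 < p ω → 0 < p ω' → A ω = A ω' → W ω = W ω' →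
      |x ω 2 - x ω' 2 - (s1 ω 0 * (x ω 0 - x ω' 0) + s1 ω 1 * (x ω 1 - x ω' 1))| ≤ B₀ / 2 ^ L)
    (hv2 : ∀ ω ω', 0 < p ω → 0 < p ω' → B ω = B ω' → W ω = W ω' →
      |x ω 2 - x ω' 2 - (s2 ω 0 * (x ω 0 - x ω' 0) + s2 ω 1 * (x ω 1 - x ω' 1))| ≤ B₀ / 2 ^ L)
    (hN1 : ∀ ω ω', 0 < p ω → 0 < p ω' → A ω = A ω' → W ω = W ω' →
      |x ω 3 - x ω' 3 - (n1 ω 0 * (x ω 0 - x ω' 0) + n1 ω 1 * (x ω 1 - x ω' 1))| ≤ B₀ / 2 ^ R)
    (hN2 : ∀ ω ω', 0 < p ω → 0 < p ω' → B ω = B ω' → W ω = W ω' →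
      |x ω 3 - x ω' 3 - (n2 ω 0 * (x ω 0 - x ω' 0) + n2 ω 1 * (x ω 1 - x ω' 1))| ≤ B₀ / 2 ^ R)
    (hV : Det p (fun ω => (V ω, W ω)) (fun ω => fl R ![x ω 0, x ω 1, x ω 2]))
    (h1 : 2 * (L * Real.log 2) - e1 ≤
      CH p (fun ω => fl L ![x ω 0, x ω 1]) (fun ω => (A ω, W ω)))
    (h3 : Lz - mu - e3 ≤ CH p V (fun ω => (B ω, W ω)))
    (h4 : CH p B (fun ω => (V ω, (fl R (x ω), W ω))) ≤ e4) (hc : CH p V W ≤ Lz + h) :
    CH p (fun ω => fl R (x ω)) W ≤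
      CH p (fun ω => ⌊(2 : ℝ) ^ R * x ω 3⌋) (fun ω => (V ω, W ω)) + 3 * (R * Real.log 2) +
        (e1 + e3 + e4 + h + (mu - L * Real.log 2) +
          (80 + 8 * Real.log B₀ + 2 * (Real.log Kd + Real.log B₀))) := by
  have hp0 := hp.nonneg
  have hLR : (R : ℝ) ≤ L := by exact_mod_cast hRL
  have hmono : B₀ / (2 : ℝ) ^ L ≤ B₀ / 2 ^ R :=
    div_le_div_of_nonneg_left (by linarith) (by positivity) (pow_le_pow_right₀ (by norm_num) hRL)
  -- the first digits in the leaves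
  have q1 := ch_leaf hp hB hx hs1 hn1 (fun ω ω' a b c d => (hv1 ω ω' a b c d).trans hmono) hN1
  have q2 := ch_leaf hp hB hx hs2 hn2 (fun ω ω' a b c d => (hv2 ω ω' a b c d).trans hmono) hN2
  -- the digits `(y, z)` given `A` and the first digits
  have a1 : 2 * (L * Real.log 2) - e1 - (2 * (R * Real.log 2) + (30 + 4 * Real.log B₀)) ≤
      CH p (fun ω => fl L ![x ω 0, x ω 1]) (fun ω => (A ω, (fl R (x ω), W ω))) := by
    have r1 := ch_rest hp0 (fun ω => fl L ![x ω 0, x ω 1]) (fun ω => fl R (x ω))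
      (fun ω => (A ω, W ω))
    have r2 : CH p (fun ω => fl L ![x ω 0, x ω 1]) (fun ω => (fl R (x ω), (A ω, W ω))) ≤
        CH p (fun ω => fl L ![x ω 0, x ω 1]) (fun ω => (A ω, (fl R (x ω), W ω))) := by
      refine CH_mono_cond hp0 fun ω ω' _ _ hh => ?_
      simp only [Prod.mk.injEq] at hh ⊢
      tauto
    linarith
  have a2 := two_leaf (R := R) hp bz hRL hB hK hs1 hs2 hd hv1 hv2
  have a3 : Lz - mu - e3 - (2 * (R * Real.log 2) + (30 + 4 * Real.log B₀)) ≤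
      CH p V (fun ω => (B ω, (fl R (x ω), W ω))) := by
    have r1 := ch_rest hp0 V (fun ω => fl R (x ω)) (fun ω => (B ω, W ω))
    have r2 : CH p V (fun ω => (fl R (x ω), (B ω, W ω))) ≤
        CH p V (fun ω => (B ω, (fl R (x ω), W ω))) := by
      refine CH_mono_cond hp0 fun ω ω' _ _ hh => ?_
      simp only [Prod.mk.injEq] at hh ⊢
      tauto
    linarith
  have key := vexc hp0 V B A (fun ω => fl L ![x ω 0, x ω 1]) (fun ω => (fl R (x ω), W ω)) a1 a2 a3 h4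
  -- the chain
  have c1 := CH_swap hp0 V (fun ω => fl R (x ω)) W
  have c2 : CH p (fun ω => fl R (x ω)) (fun ω => (V ω, W ω)) ≤
      CH p (fun ω => ⌊(2 : ℝ) ^ R * x ω 3⌋) (fun ω => (V ω, W ω)) := by
    have c3 : CH p (fun ω => fl R (x ω)) (fun ω => (V ω, W ω)) ≤
        CH p (fun ω => (⌊(2 : ℝ) ^ R * x ω 3⌋, fl R ![x ω 0, x ω 1, x ω 2]))
          (fun ω => (V ω, W ω)) := by
      refine CH_mono_left hp0 fun ω ω' _ _ hh => ?_
      simp only [Prod.mk.injEq] at hh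
      refine funext fun j => ?_
      have g1 := hh.1.2
      fin_cases j
      · exact congrFun g1 0
      · exact congrFun g1 1
      · exact congrFun g1 2
      · exact hh.1.1
    have c4 := CH_chain hp0 (fun ω => ⌊(2 : ℝ) ^ R * x ω 3⌋)
      (fun ω => fl R ![x ω 0, x ω 1, x ω 2]) (fun ω => (V ω, W ω))
    have c5 : CH p (fun ω => fl R ![x ω 0, x ω 1, x ω 2]) (fun ω => (V ω, W ω)) = 0 :=
      CH_eq_zero hp0 hV
    have c6 : CH p (fun ω => ⌊(2 : ℝ) ^ R * x ω 3⌋)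
        (fun ω => (fl R ![x ω 0, x ω 1, x ω 2], (V ω, W ω))) ≤
        CH p (fun ω => ⌊(2 : ℝ) ^ R * x ω 3⌋) (fun ω => (V ω, W ω)) :=
      CH_mono_cond hp0 fun ω ω' _ _ hh => (Prod.ext_iff.1 hh).2
    linarith
  linarith

/-- **The same when the leaf of the third coordinate is at least as thick as the digits**: one label
is enough. -/
theorem nf4s {Ω α δ κ : Type} [Fintype Ω] {p : Ω → ℝ} (hp : IsLaw p) {x : Ω → Fin 4 → ℝ}
    {A : Ω → α} {V : Ω → δ} {W : Ω → κ} {s1 n1 : Ω → Fin 2 → ℝ}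
    {B₀ e3 Lz mu h : ℝ} {R : ℕ} (hB : 1 ≤ B₀)
    (hx : ∀ ω, 0 < p ω → ∀ j, |x ω j| ≤ 1)
    (hs1 : ∀ ω, 0 < p ω → ∀ b, |s1 ω b| ≤ 1) (hn1 : ∀ ω, 0 < p ω → ∀ b, |n1 ω b| ≤ 1)
    (hv1 : ∀ ω ω', 0 < p ω → 0 < p ω' → A ω = A ω' → W ω = W ω' →
      |x ω 2 - x ω' 2 - (s1 ω 0 * (x ω 0 - x ω' 0) + s1 ω 1 * (x ω 1 - x ω' 1))| ≤ B₀ / 2 ^ R)
    (hN1 : ∀ ω ω', 0 < p ω → 0 < p ω' → A ω = A ω' → W ω = W ω' →
      |x ω 3 - x ω' 3 - (n1 ω 0 * (x ω 0 - x ω' 0) + n1 ω 1 * (x ω 1 - x ω' 1))| ≤ B₀ / 2 ^ R)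
    (hV : Det p (fun ω => (V ω, W ω)) (fun ω => fl R ![x ω 0, x ω 1, x ω 2]))
    (h3 : Lz - mu - e3 ≤ CH p V (fun ω => (A ω, W ω))) (hc : CH p V W ≤ Lz + h) :
    CH p (fun ω => fl R (x ω)) W ≤
      CH p (fun ω => ⌊(2 : ℝ) ^ R * x ω 3⌋) (fun ω => (V ω, W ω)) + 3 * (R * Real.log 2) +
        (e3 + h + (mu - R * Real.log 2) + (30 + 4 * Real.log B₀)) := by
  have hp0 := hp.nonneg
  have q1 := ch_leaf hp hB hx hs1 hn1 hv1 hN1
  have a3 : Lz - mu - e3 - (2 * (R * Real.log 2) + (30 + 4 * Real.log B₀)) ≤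
      CH p V (fun ω => (fl R (x ω), W ω)) := by
    have r1 := ch_rest hp0 V (fun ω => fl R (x ω)) (fun ω => (A ω, W ω))
    have r2 : CH p V (fun ω => (fl R (x ω), (A ω, W ω))) ≤
        CH p V (fun ω => (fl R (x ω), W ω)) := by
      refine CH_mono_cond hp0 fun ω ω' _ _ hh => ?_
      simp only [Prod.mk.injEq] at hh ⊢
      tauto
    linarith
  have c1 := CH_swap hp0 V (fun ω => fl R (x ω)) W
  have c2 : CH p (fun ω => fl R (x ω)) (fun ω => (V ω, W ω)) ≤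
      CH p (fun ω => ⌊(2 : ℝ) ^ R * x ω 3⌋) (fun ω => (V ω, W ω)) := by
    have c3 : CH p (fun ω => fl R (x ω)) (fun ω => (V ω, W ω)) ≤
        CH p (fun ω => (⌊(2 : ℝ) ^ R * x ω 3⌋, fl R ![x ω 0, x ω 1, x ω 2]))
          (fun ω => (V ω, W ω)) := by
      refine CH_mono_left hp0 fun ω ω' _ _ hh => ?_
      simp only [Prod.mk.injEq] at hh
      refine funext fun j => ?_
      have g1 := hh.1.2
      fin_cases j
      · exact congrFun g1 0
      · exact congrFun g1 1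
      · exact congrFun g1 2
      · exact hh.1.1
    have c4 := CH_chain hp0 (fun ω => ⌊(2 : ℝ) ^ R * x ω 3⌋)
      (fun ω => fl R ![x ω 0, x ω 1, x ω 2]) (fun ω => (V ω, W ω))
    have c5 : CH p (fun ω => fl R ![x ω 0, x ω 1, x ω 2]) (fun ω => (V ω, W ω)) = 0 :=
      CH_eq_zero hp0 hV
    have c6 : CH p (fun ω => ⌊(2 : ℝ) ^ R * x ω 3⌋)
        (fun ω => (fl R ![x ω 0, x ω 1, x ω 2], (V ω, W ω))) ≤
        CH p (fun ω => ⌊(2 : ℝ) ^ R * x ω 3⌋) (fun ω => (V ω, W ω)) :=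
      CH_mono_cond hp0 fun ω ω' _ _ hh => (Prod.ext_iff.1 hh).2
    linarith
  linarith

end Pool.MKV
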